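import Pool.Agent.H.MP_43e44c_ag.SB.Def

/-!
Minimal invariant subspaces and intertwining operators of signed permutation representations.
-/

set_option autoImplicit false

open Finset Module

namespace Pool.MP43e44c

namespace Coc

variable {Γ ι : Type*} [Group Γ] [MulAction Γ ι] [Fintype ι] (C : Coc Γ ι)

theorem inv_orthogonal {U : Submodule ℝ (EuclideanSpace ℝ ι)} (hU : C.Inv U) : C.Inv Uᗮ := by
  intro g x hx y hy
  rw [real_inner_comm, C.inner_act_left, real_inner_comm]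
  exact hx _ (hU _ _ hy)

theorem inv_range {U : Submodule ℝ (EuclideanSpace ℝ ι)} (hU : C.Inv U)
    {T : U →L[ℝ] EuclideanSpace ℝ ι} (hT : T ∈ C.Hom U) :
    C.Inv (LinearMap.range (T : U →ₗ[ℝ] EuclideanSpace ℝ ι)) := by
  rintro g _ ⟨x, rfl⟩
  exact ⟨⟨C.act g x, hU g x x.2⟩, hT g x ⟨C.act g x, hU g x x.2⟩ rfl⟩

theorem starProjection_act {U : Submodule ℝ (EuclideanSpace ℝ ι)} (hU : C.Inv U) (g : Γ)
    (x : EuclideanSpace ℝ ι) : U.starProjection (C.act g x) = C.act g (U.starProjection x) := by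
  apply Submodule.eq_starProjection_of_mem_orthogonal (hU g _ (Submodule.starProjection_apply_mem U x))
  rw [← map_sub]
  intro y hy
  rw [real_inner_comm, C.inner_act_left]
  have h1 := Submodule.sub_starProjection_mem_orthogonal (K := U) x
  rw [real_inner_comm]
  exact h1 _ (hU _ _ hy)

set_option backward.isDefEq.respectTransparency false in
/-- Intertwining operators from a minimal subspace are multiples of isometries. -/
theorem norm_hom {U : Submodule ℝ (EuclideanSpace ℝ ι)} (hU : C.Mnl U)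
    {T : U →L[ℝ] EuclideanSpace ℝ ι} (hT : T ∈ C.Hom U) (x : U) : ‖T x‖ = ‖T‖ * ‖x‖ := by
  obtain ⟨hinv, h0, hmin⟩ := hU
  have hnt : Nontrivial U := Submodule.nontrivial_iff_ne_bot.2 h0
  -- the symmetric operator
  let S : U →L[ℝ] U := (ContinuousLinearMap.adjoint T).comp T
  have hS : ∀ x y : U, inner ℝ (S x) y = inner ℝ (T x) (T y) := by
    intro x y
    show inner ℝ ((ContinuousLinearMap.adjoint T) (T x)) y = _
    rw [ContinuousLinearMap.adjoint_inner_left]
  have hsym : (S : U →ₗ[ℝ] U).IsSymmetric := by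
    intro x y
    show inner ℝ (S x) y = inner ℝ x (S y)
    rw [hS, real_inner_comm (S y) x, hS, real_inner_comm]
  obtain ⟨μ, hμ⟩ : ∃ μ : ℝ, Module.End.HasEigenvalue (S : U →ₗ[ℝ] U) μ :=
    ⟨_, hsym.hasEigenvalue_iSup_of_finiteDimensional⟩
  obtain ⟨v, hv⟩ := hμ.exists_hasEigenvector
  -- the eigenspace is invariant
  let W : Submodule ℝ (EuclideanSpace ℝ ι) :=
    (Module.End.eigenspace (S : U →ₗ[ℝ] U) μ).map U.subtype
  have hWU : W ≤ U := by
    rintro _ ⟨y, -, rfl⟩
    exact y.2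
  have hWinv : C.Inv W := by
    rintro g _ ⟨y, hy, rfl⟩
    refine ⟨⟨C.act g y, hinv g y y.2⟩, ?_, rfl⟩
    rw [SetLike.mem_coe, Module.End.mem_eigenspace_iff] at hy ⊢
    have hy' : S y = μ • y := hy
    show S ⟨C.act g y, hinv g y y.2⟩ = μ • (⟨C.act g y, hinv g y y.2⟩ : U)
    refine ext_inner_right ℝ fun z => ?_
    rw [hS, hT g y ⟨C.act g y, hinv g y y.2⟩ rfl, C.inner_act_left,
      ← hT g⁻¹ z ⟨C.act g⁻¹ z, hinv _ z z.2⟩ rfl, ← hS, hy', real_inner_smul_left,
      real_inner_smul_left]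
    congr 1
    show inner ℝ (y : EuclideanSpace ℝ ι) (C.act g⁻¹ z) = inner ℝ (C.act g y) z
    rw [C.inner_act_left]
  have hW0 : W ≠ ⊥ := by
    intro h
    have h1 : (v : EuclideanSpace ℝ ι) ∈ W := ⟨v, hv.1, rfl⟩
    rw [h, Submodule.mem_bot] at h1
    exact hv.2 (Subtype.ext h1)
  have hWeq := hmin W hWU hWinv hW0
  have hall : ∀ x : U, S x = μ • x := by
    intro x
    have h1 : (x : EuclideanSpace ℝ ι) ∈ W := by rw [hWeq]; exact x.2
    obtain ⟨y, hy, hyx⟩ := h1
    have h2 : y = x := Subtype.ext hyx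
    rw [h2] at hy
    exact Module.End.mem_eigenspace_iff.1 hy
  have hsq : ∀ x : U, ‖T x‖ ^ 2 = μ * ‖x‖ ^ 2 := by
    intro x
    rw [← real_inner_self_eq_norm_sq, ← hS, hall, real_inner_smul_left, real_inner_self_eq_norm_sq]
  have hμ0 : 0 ≤ μ := by
    obtain ⟨x, hx⟩ := exists_ne (0 : U)
    have h1 := hsq x
    have h2 : 0 < ‖x‖ ^ 2 := by positivity
    by_contra h3
    push Not at h3
    have h4 : μ * ‖x‖ ^ 2 < 0 := mul_neg_of_neg_of_pos h3 h2
    have h5 : 0 ≤ ‖T x‖ ^ 2 := by positivity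
    linarith
  have hnorm : ∀ x : U, ‖T x‖ = Real.sqrt μ * ‖x‖ := by
    intro x
    rw [← sq_eq_sq₀ (norm_nonneg _) (by positivity), hsq, mul_pow, Real.sq_sqrt hμ0]
  have hTn : ‖T‖ = Real.sqrt μ := by
    apply le_antisymm
    · exact ContinuousLinearMap.opNorm_le_bound _ (Real.sqrt_nonneg _) fun x => (hnorm x).le
    · obtain ⟨x, hx⟩ := exists_ne (0 : U)
      have h1 := T.le_opNorm x
      rw [hnorm x] at h1
      exact le_of_mul_le_mul_right h1 (norm_pos_iff.2 hx)
  rw [hTn, hnorm x]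

/-- Every invariant nonzero subspace contains a minimal one. -/
theorem exists_mnl {U : Submodule ℝ (EuclideanSpace ℝ ι)} (hU : C.Inv U) (h0 : U ≠ ⊥) :
    ∃ W ≤ U, C.Mnl W := by
  induction hn : finrank ℝ U using Nat.strong_induction_on generalizing U with
  | _ n ih =>
    by_cases h : C.Mnl U
    · exact ⟨U, le_rfl, h⟩
    · have h1 : ∃ W ≤ U, C.Inv W ∧ W ≠ ⊥ ∧ W ≠ U := by
        by_contra h2
        push Not at h2
        exact h ⟨hU, h0, fun W hW h3 h4 => h2 W hW h3 h4⟩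
      obtain ⟨W, hWU, hW, hW0, hWne⟩ := h1
      have h2 : finrank ℝ W < n := by
        rw [← hn]
        exact Submodule.finrank_lt_finrank_of_lt (lt_of_le_of_ne hWU hWne)
      obtain ⟨W', hW', hm⟩ := ih _ h2 hW hW0 rfl
      exact ⟨W', hW'.trans hWU, hm⟩

/-- Two minimal subspaces are orthogonal or one is the image of the other. -/
theorem orthogonal_or {U W : Submodule ℝ (EuclideanSpace ℝ ι)} (hU : C.Mnl U) (hW : C.Mnl W) :
    U ⟂ W ∨ ∃ T ∈ C.Hom U, T ≠ 0 ∧
      LinearMap.range (T : U →ₗ[ℝ] EuclideanSpace ℝ ι) = W := by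
  let T : U →L[ℝ] EuclideanSpace ℝ ι := W.starProjection.comp U.subtypeL
  have hT : T ∈ C.Hom U := by
    intro g x y h
    show W.starProjection (y : EuclideanSpace ℝ ι) = C.act g (W.starProjection x)
    rw [← h, C.starProjection_act hW.1]
  have hTx : ∀ x : U, T x = W.starProjection x := fun _ => rfl
  by_cases h0 : T = 0
  · left
    rw [Submodule.isOrtho_iff_inner_eq]
    intro x hx y hy
    have h1 : W.starProjection x = 0 := by
      have := hTx ⟨x, hx⟩
      rw [h0] at this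
      exact this.symm
    have h2 := Submodule.sub_starProjection_mem_orthogonal (K := W) x
    rw [h1, sub_zero] at h2
    rw [real_inner_comm]
    exact h2 y hy
  · right
    refine ⟨T, hT, h0, ?_⟩
    apply hW.2.2
    · rintro _ ⟨x, rfl⟩
      exact Submodule.starProjection_apply_mem W _
    · exact C.inv_range hU.1 hT
    · intro h
      apply h0
      ext1 x
      have h1 : T x ∈ LinearMap.range (T : U →ₗ[ℝ] EuclideanSpace ℝ ι) := ⟨x, rfl⟩
      rw [h, Submodule.mem_bot] at h1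
      exact h1

/-- The multiplicity is at most the dimension. -/
theorem finrank_hom_le [MulAction.IsPretransitive Γ ι] [Nonempty ι]
    {U : Submodule ℝ (EuclideanSpace ℝ ι)} (hU : C.Mnl U) :
    finrank ℝ (C.Hom U) ≤ finrank ℝ U := by
  classical
  obtain ⟨i₀⟩ := ‹Nonempty ι›
  let L : C.Hom U →ₗ[ℝ] (U →ₗ[ℝ] ℝ) :=
    { toFun := fun T =>
        { toFun := fun x => (T : U →L[ℝ] EuclideanSpace ℝ ι) x i₀
          map_add' := fun x y => by simp
          map_smul' := fun r x => by simp }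
      map_add' := fun S T => by ext x; simp
      map_smul' := fun r T => by ext x; simp }
  have hL : Function.Injective L := by
    intro S T hST
    apply Subtype.ext
    ext x i
    obtain ⟨g, hg⟩ := MulAction.exists_smul_eq Γ i i₀
    have h1 : (S : U →L[ℝ] EuclideanSpace ℝ ι) ⟨C.act g x, hU.1 g x x.2⟩ i₀
        = (T : U →L[ℝ] EuclideanSpace ℝ ι) ⟨C.act g x, hU.1 g x x.2⟩ i₀ :=
      LinearMap.congr_fun hST ⟨C.act g x, hU.1 g x x.2⟩
    rw [S.2 g x ⟨C.act g x, hU.1 g x x.2⟩ rfl, T.2 g x ⟨C.act g x, hU.1 g x x.2⟩ rfl,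
      ← hg, C.act_apply_smul, C.act_apply_smul] at h1
    refine mul_left_cancel₀ ?_ h1
    intro h2
    rcases C.sq g i with h3 | h3 <;> rw [h3] at h2 <;> norm_num at h2
  have h1 := LinearMap.finrank_le_finrank_of_injective hL
  have h2 : finrank ℝ (U →ₗ[ℝ] ℝ) = finrank ℝ U := Subspace.dual_finrank_eq
  rwa [h2] at h1

/-- The inclusion is an intertwining operator. -/
theorem subtypeL_mem_hom (U : Submodule ℝ (EuclideanSpace ℝ ι)) : U.subtypeL ∈ C.Hom U := by
  intro g x y h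
  exact h.symm

omit [Fintype ι] in
theorem range_subtypeL (U : Submodule ℝ (EuclideanSpace ℝ ι)) :
    LinearMap.range (U.subtypeL : U →ₗ[ℝ] EuclideanSpace ℝ ι) = U := by
  ext x
  exact ⟨fun ⟨y, hy⟩ => hy ▸ y.2, fun hx => ⟨⟨x, hx⟩, rfl⟩⟩

omit [Fintype ι] in
theorem subtypeL_ne_zero {U : Submodule ℝ (EuclideanSpace ℝ ι)} (h0 : U ≠ ⊥) :
    U.subtypeL ≠ 0 := by
  intro h
  apply h0
  rw [eq_bot_iff]
  intro x hx
  have := DFunLike.congr_fun h (⟨x, hx⟩ : U)
  exact this

set_option backward.isDefEq.respectTransparency false in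
/-- The relation of being an image is symmetric. -/
theorem hom_symm {U W : Submodule ℝ (EuclideanSpace ℝ ι)} (hU : C.Inv U) (hW : C.Mnl W)
    (h : ∃ T ∈ C.Hom W, T ≠ 0 ∧ LinearMap.range (T : W →ₗ[ℝ] EuclideanSpace ℝ ι) = U) :
    ∃ T ∈ C.Hom U, T ≠ 0 ∧ LinearMap.range (T : U →ₗ[ℝ] EuclideanSpace ℝ ι) = W := by
  obtain ⟨T, hT, hT0, hr⟩ := h
  let T' : U →L[ℝ] EuclideanSpace ℝ ι :=
    W.subtypeL.comp ((ContinuousLinearMap.adjoint T).comp U.subtypeL)
  have hadj : ∀ (x : EuclideanSpace ℝ ι) (w : W),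
      inner ℝ (ContinuousLinearMap.adjoint T x) w = inner ℝ x (T w) := fun x w => by
    rw [ContinuousLinearMap.adjoint_inner_left]
  have hT' : T' ∈ C.Hom U := by
    intro g x y hxy
    show ((ContinuousLinearMap.adjoint T (y : EuclideanSpace ℝ ι) : W) : EuclideanSpace ℝ ι)
      = C.act g ((ContinuousLinearMap.adjoint T (x : EuclideanSpace ℝ ι) : W) :
        EuclideanSpace ℝ ι)
    have h1 : (⟨C.act g ((ContinuousLinearMap.adjoint T (x : EuclideanSpace ℝ ι) : W) :
        EuclideanSpace ℝ ι), hW.1 g _ (Subtype.coe_prop _)⟩ : W)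
        = ContinuousLinearMap.adjoint T (y : EuclideanSpace ℝ ι) := by
      refine ext_inner_right ℝ fun w => ?_
      rw [hadj, ← hxy, C.inner_act_left, ← hT g⁻¹ w ⟨C.act g⁻¹ w, hW.1 _ w w.2⟩ rfl, ← hadj]
      exact C.inner_act_left _ _ _
    rw [← h1]
  have hTT : ∀ w : W, ContinuousLinearMap.adjoint T (T w) = (‖T‖ ^ 2) • w := by
    intro w
    refine ext_inner_right ℝ fun w' => ?_
    rw [hadj]
    have h1 : inner ℝ ((‖T‖ ^ 2) • w) w' = ‖T‖ ^ 2 * inner ℝ w w' := real_inner_smul_left _ _ _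
    rw [h1]
    have h2 : ∀ x : W, inner ℝ (T x) (T x) = ‖T‖ ^ 2 * inner ℝ x x := by
      intro x
      rw [real_inner_self_eq_norm_sq, real_inner_self_eq_norm_sq, C.norm_hom hW hT, mul_pow]
    have h3 := h2 (w + w')
    have e1 : inner ℝ (T (w + w')) (T (w + w')) = inner ℝ (T w) (T w) + 2 * inner ℝ (T w) (T w')
        + inner ℝ (T w') (T w') := by
      rw [map_add]; exact real_inner_add_add_self _ _
    have e2 : inner ℝ (w + w') (w + w') = inner ℝ w w + 2 * inner ℝ w w' + inner ℝ w' w' :=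
      real_inner_add_add_self _ _
    rw [e1, e2, h2, h2] at h3
    linarith
  have hTn : ‖T‖ ^ 2 ≠ 0 := by
    refine pow_ne_zero 2 fun h => hT0 ?_
    ext1 x
    have h1 := C.norm_hom hW hT x
    rw [h, zero_mul, norm_eq_zero] at h1
    exact h1
  have hmem : ∀ w : W, T w ∈ U := fun w => by
    rw [← hr]
    exact ⟨w, rfl⟩
  have hT'T : ∀ w : W, T' ⟨T w, hmem w⟩ = (‖T‖ ^ 2) • (w : EuclideanSpace ℝ ι) := by
    intro w
    show ((ContinuousLinearMap.adjoint T (T w) : W) : EuclideanSpace ℝ ι) = _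
    rw [hTT]
    rfl
  have hrange : LinearMap.range (T' : U →ₗ[ℝ] EuclideanSpace ℝ ι) = W := by
    apply le_antisymm
    · rintro _ ⟨x, rfl⟩
      exact Subtype.coe_prop (ContinuousLinearMap.adjoint T (x : EuclideanSpace ℝ ι))
    · intro w hw
      have h1 : T' ⟨T ⟨w, hw⟩, hmem _⟩ ∈ LinearMap.range (T' : U →ₗ[ℝ] EuclideanSpace ℝ ι) :=
        ⟨_, rfl⟩
      rw [hT'T] at h1
      exact (Submodule.smul_mem_iff _ hTn).1 h1
  refine ⟨T', hT', ?_, hrange⟩
  intro h
  apply hW.2.1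
  rw [← hrange, h]
  ext x
  simp [LinearMap.mem_range, eq_comm]

/-- Dimensions of pairwise orthogonal subspaces. -/
theorem finrank_sup_orthogonal {E : Type*} [NormedAddCommGroup E] [InnerProductSpace ℝ E]
    [FiniteDimensional ℝ E] (R : Finset (Submodule ℝ E))
    (hR : ∀ U ∈ R, ∀ W ∈ R, U ≠ W → U ⟂ W) :
    finrank ℝ (R.sup id : Submodule ℝ E) = ∑ U ∈ R, finrank ℝ U := by
  classical
  induction R using Finset.induction_on with
  | empty => simp
  | insert U R hUR ih =>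
    rw [sup_insert, sum_insert hUR, ← ih fun V hV W hW => hR V (mem_insert_of_mem hV) W
      (mem_insert_of_mem hW)]
    have h1 : U ⟂ (R.sup id : Submodule ℝ E) := by
      have h2 : ∀ S : Finset (Submodule ℝ E), S ⊆ R → U ⟂ (S.sup id : Submodule ℝ E) := by
        intro S
        induction S using Finset.induction_on with
        | empty => intro _; simp
        | insert V S hVS ih' =>
          intro hS
          rw [sup_insert]
          refine Submodule.isOrtho_sup_right.2 ⟨?_, ih' ((subset_insert _ _).trans hS)⟩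
          have hV : V ∈ R := hS (mem_insert_self _ _)
          exact hR U (mem_insert_self _ _) V (mem_insert_of_mem hV) fun h => hUR (h ▸ hV)
      exact h2 R subset_rfl
    have h3 := Submodule.finrank_sup_add_finrank_inf_eq U (R.sup id : Submodule ℝ E)
    have h4 : U ⊓ (R.sup id : Submodule ℝ E) = ⊥ := h1.disjoint.eq_bot
    rw [h4, finrank_bot, add_zero] at h3
    exact h3

/-- Representatives of the minimal subspaces. -/
theorem exists_reps : ∃ R : Finset (Submodule ℝ (EuclideanSpace ℝ ι)), (∀ U ∈ R, C.Mnl U) ∧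
    (∀ U ∈ R, ∀ W ∈ R, U ≠ W → U ⟂ W) ∧
    (∀ W, C.Mnl W → ∃ U ∈ R, ∃ T ∈ C.Hom U, T ≠ 0 ∧
      LinearMap.range (T : U →ₗ[ℝ] EuclideanSpace ℝ ι) = W) ∧
    ∑ U ∈ R, finrank ℝ U ≤ Fintype.card ι := by
  classical
  let P : Finset (Submodule ℝ (EuclideanSpace ℝ ι)) → Prop := fun R =>
    (∀ U ∈ R, C.Mnl U) ∧ ∀ U ∈ R, ∀ W ∈ R, U ≠ W → ¬ ∃ T ∈ C.Hom U, T ≠ 0 ∧
      LinearMap.range (T : U →ₗ[ℝ] EuclideanSpace ℝ ι) = W
  have horth : ∀ R, P R → ∀ U ∈ R, ∀ W ∈ R, U ≠ W → U ⟂ W := by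
    intro R hR U hU W hW hne
    exact (C.orthogonal_or (hR.1 U hU) (hR.1 W hW)).resolve_right (hR.2 U hU W hW hne)
  have hsum : ∀ R, P R → ∑ U ∈ R, finrank ℝ U ≤ Fintype.card ι := by
    intro R hR
    rw [← finrank_sup_orthogonal R (horth R hR)]
    have := Submodule.finrank_le (R.sup id : Submodule ℝ (EuclideanSpace ℝ ι))
    rwa [finrank_euclideanSpace] at this
  have hcard : ∀ R, P R → R.card ≤ Fintype.card ι := by
    intro R hR
    refine le_trans ?_ (hsum R hR)
    rw [card_eq_sum_ones]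
    refine sum_le_sum fun U hU => ?_
    have h1 := (hR.1 U hU).2.1
    have : Nontrivial U := Submodule.nontrivial_iff_ne_bot.2 h1
    exact finrank_pos
  let S : Set ℕ := {n | ∃ R, P R ∧ R.card = n}
  have hS0 : S.Nonempty := ⟨0, ∅, ⟨by simp, by simp⟩, rfl⟩
  have hSb : BddAbove S := ⟨Fintype.card ι, by rintro n ⟨R, hR, rfl⟩; exact hcard R hR⟩
  obtain ⟨R, hR, hRc⟩ := Nat.sSup_mem hS0 hSb
  have hmax : ∀ R', P R' → R'.card ≤ R.card := by
    intro R' hR'
    rw [hRc]
    exact le_csSup hSb ⟨R', hR', rfl⟩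
  refine ⟨R, hR.1, horth R hR, ?_, hsum R hR⟩
  intro W hW
  by_cases hWR : W ∈ R
  · exact ⟨W, hWR, W.subtypeL, C.subtypeL_mem_hom W, subtypeL_ne_zero hW.2.1, range_subtypeL W⟩
  · by_contra hcon
    have hcon' : ∀ U ∈ R, ¬ ∃ T ∈ C.Hom U, T ≠ 0 ∧
        LinearMap.range (T : U →ₗ[ℝ] EuclideanSpace ℝ ι) = W := by
      intro U hU h
      exact hcon ⟨U, hU, h⟩
    have hP : P (insert W R) := by
      refine ⟨fun U hU => ?_, fun U hU V hV hne => ?_⟩
      · rcases mem_insert.1 hU with rfl | h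
        · exact hW
        · exact hR.1 U h
      · rcases mem_insert.1 hU with h1 | h1
        · rcases mem_insert.1 hV with h2 | h2
          · exact absurd (h1.trans h2.symm) hne
          · intro h
            rw [h1] at h
            exact hcon' V h2 (C.hom_symm (hR.1 V h2).1 hW h)
        · rcases mem_insert.1 hV with h2 | h2
          · rw [h2]
            exact hcon' U h1
          · exact hR.2 U h1 V h2 hne
    have h1 := hmax _ hP
    rw [card_insert_of_notMem hWR] at h1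
    omega

end Coc

end Pool.MP43e44c
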