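import Mathlib

/-!
Nets of the unit sphere.
-/

set_option autoImplicit false

open Finset Module

namespace Pool.MP43e44c

theorem net_pow_sub {x y : ℝ} (hy : 0 ≤ y) (hxy : y ≤ x) (n : ℕ) :
    x ^ (n + 1) - y ^ (n + 1) ≤ (n + 1) * (x - y) * x ^ n := by
  have hx : 0 ≤ x := hy.trans hxy
  induction n with
  | zero => simp
  | succ n ih =>
    have h1 : y ^ (n + 1) ≤ x ^ (n + 1) := pow_le_pow_left₀ hy hxy _
    have h2 : x * (x ^ (n + 1) - y ^ (n + 1)) ≤ x * ((n + 1) * (x - y) * x ^ n) :=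
      mul_le_mul_of_nonneg_left ih hx
    have h3 : (x - y) * y ^ (n + 1) ≤ (x - y) * x ^ (n + 1) :=
      mul_le_mul_of_nonneg_left h1 (sub_nonneg.2 hxy)
    have e1 : x ^ (n + 1 + 1) - y ^ (n + 1 + 1)
        = x * (x ^ (n + 1) - y ^ (n + 1)) + (x - y) * y ^ (n + 1) := by ring
    have e2 : ((n + 1 : ℕ) + 1 : ℝ) * (x - y) * x ^ (n + 1)
        = x * ((n + 1) * (x - y) * x ^ n) + (x - y) * x ^ (n + 1) := by
      push_cast
      ring
    rw [e1, e2]
    exact add_le_add h2 h3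

theorem net_card {H : Type*} [NormedAddCommGroup H] [NormedSpace ℝ H] [FiniteDimensional ℝ H]
    {h : ℕ} (hh : finrank ℝ H = h) (h1 : 1 ≤ h) {ε : ℝ} (hε : 0 < ε) (hε1 : ε ≤ 1)
    (s : Finset H) (hs : ∀ c ∈ s, ‖c‖ = 1)
    (hsep : ∀ c ∈ s, ∀ d ∈ s, c ≠ d → ε ≤ ‖c - d‖) :
    (s.card : ℝ) ≤ 2 * h * (1 + 2 / ε) ^ (h - 1) := by
  borelize H
  let μ : MeasureTheory.Measure H := MeasureTheory.Measure.addHaar
  have ha : 0 < ε / 2 := by positivity
  have hb : 0 < 1 - ε / 2 := by linarith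
  have hc : 0 < 1 + ε / 2 := by linarith
  set A := ⋃ c ∈ s, Metric.ball (c : H) (ε / 2) with hA
  have D : Set.Pairwise (s : Set H) (Function.onFun Disjoint fun c => Metric.ball c (ε / 2)) := by
    rintro c hc d hd hcd
    apply Metric.ball_disjoint_ball
    rw [dist_eq_norm]
    have := hsep c hc d hd hcd
    linarith
  have A_subset : A ⊆ Metric.ball (0 : H) (1 + ε / 2) := by
    refine Set.iUnion₂_subset fun x hx => ?_
    apply Metric.ball_subset_ball'
    rw [dist_zero_right, hs x hx]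
    linarith
  have A_disj : Disjoint A (Metric.ball (0 : H) (1 - ε / 2)) := by
    rw [hA, Set.disjoint_iUnion₂_left]
    intro c hc
    apply Metric.ball_disjoint_ball
    rw [dist_zero_right, hs c hc]
    linarith
  have B_subset : Metric.ball (0 : H) (1 - ε / 2) ⊆ Metric.ball (0 : H) (1 + ε / 2) :=
    Metric.ball_subset_ball (by linarith)
  have I : ((s.card : ENNReal) * ENNReal.ofReal ((ε / 2) ^ finrank ℝ H)
      + ENNReal.ofReal ((1 - ε / 2) ^ finrank ℝ H)) * μ (Metric.ball 0 1) ≤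
      ENNReal.ofReal ((1 + ε / 2) ^ finrank ℝ H) * μ (Metric.ball 0 1) := by
    calc ((s.card : ENNReal) * ENNReal.ofReal ((ε / 2) ^ finrank ℝ H)
          + ENNReal.ofReal ((1 - ε / 2) ^ finrank ℝ H)) * μ (Metric.ball 0 1)
        = μ A + μ (Metric.ball (0 : H) (1 - ε / 2)) := by
          rw [hA, MeasureTheory.measure_biUnion_finset D fun c _ => measurableSet_ball,
            μ.addHaar_ball_of_pos _ hb, add_mul]
          congr 1
          simp only [μ.addHaar_ball_of_pos _ ha]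
          simp only [Finset.sum_const, nsmul_eq_mul, mul_assoc]
      _ = μ (A ∪ Metric.ball (0 : H) (1 - ε / 2)) :=
          (MeasureTheory.measure_union A_disj measurableSet_ball).symm
      _ ≤ μ (Metric.ball (0 : H) (1 + ε / 2)) :=
          MeasureTheory.measure_mono (Set.union_subset A_subset B_subset)
      _ = ENNReal.ofReal ((1 + ε / 2) ^ finrank ℝ H) * μ (Metric.ball 0 1) := by
          rw [μ.addHaar_ball_of_pos _ hc]
  have J := (ENNReal.mul_le_mul_iff_left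
    (Metric.measure_ball_pos μ (0 : H) zero_lt_one).ne' MeasureTheory.measure_ball_lt_top.ne).1 I
  have K : (s.card : ℝ) * (ε / 2) ^ h + (1 - ε / 2) ^ h ≤ (1 + ε / 2) ^ h := by
    have J2 := ENNReal.toReal_le_of_le_ofReal (pow_nonneg hc.le _) J
    rw [ENNReal.toReal_add (by finiteness) (by finiteness), ENNReal.toReal_mul,
      ENNReal.toReal_ofReal (pow_nonneg ha.le _), ENNReal.toReal_ofReal (pow_nonneg hb.le _),
      hh] at J2
    simpa using J2
  obtain ⟨n, rfl⟩ : ∃ n, h = n + 1 := ⟨h - 1, by omega⟩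
  have h3 := net_pow_sub (x := 1 + ε / 2) (y := 1 - ε / 2) hb.le (by linarith) n
  have h4 : (s.card : ℝ) * (ε / 2) ^ (n + 1) ≤ (n + 1) * ε * (1 + ε / 2) ^ n := by
    have e : (1 + ε / 2) - (1 - ε / 2) = ε := by ring
    rw [e] at h3
    linarith
  have h5 : (1 + 2 / ε) = (1 + ε / 2) / (ε / 2) := by
    field_simp
    ring
  rw [Nat.add_sub_cancel, h5, div_pow]
  have h6 : (0 : ℝ) < (ε / 2) ^ n := pow_pos ha _
  rw [← mul_div_assoc, le_div_iff₀ h6]
  rw [pow_succ] at h4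
  have h7 : (s.card : ℝ) * (ε / 2) ^ n * (ε / 2) ≤ (2 * (n + 1) * (1 + ε / 2) ^ n) * (ε / 2) := by
    calc (s.card : ℝ) * (ε / 2) ^ n * (ε / 2) = (s.card : ℝ) * ((ε / 2) ^ n * (ε / 2)) := by ring
      _ ≤ (n + 1) * ε * (1 + ε / 2) ^ n := h4
      _ = _ := by ring
  have h8 := le_of_mul_le_mul_right h7 ha
  push_cast
  exact h8

theorem exists_net {H : Type*} [NormedAddCommGroup H] [NormedSpace ℝ H] [FiniteDimensional ℝ H]
    {h : ℕ} (hh : finrank ℝ H = h) (h1 : 1 ≤ h) {ε : ℝ} (hε : 0 < ε) (hε1 : ε ≤ 1) :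
    ∃ s : Finset H, (∀ x ∈ s, ‖x‖ = 1) ∧ (∀ x, ‖x‖ = 1 → ∃ y ∈ s, ‖x - y‖ ≤ ε) ∧
      (s.card : ℝ) ≤ 2 * h * (1 + 2 / ε) ^ (h - 1) := by
  classical
  let S : Set ℕ := {n | ∃ s : Finset H, (∀ c ∈ s, ‖c‖ = 1) ∧
    (∀ c ∈ s, ∀ d ∈ s, c ≠ d → ε ≤ ‖c - d‖) ∧ s.card = n}
  have hS0 : S.Nonempty := ⟨0, ∅, by simp, by simp, rfl⟩
  have hSb : BddAbove S := by
    refine ⟨⌊2 * (h : ℝ) * (1 + 2 / ε) ^ (h - 1)⌋₊, ?_⟩
    rintro n ⟨s, hs, hsep, rfl⟩
    exact Nat.le_floor (net_card hh h1 hε hε1 s hs hsep)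
  obtain ⟨s, hs, hsep, hcard⟩ := Nat.sSup_mem hS0 hSb
  refine ⟨s, hs, fun x hx => ?_, net_card hh h1 hε hε1 s hs hsep⟩
  by_contra! hcon
  have hxs : x ∉ s := fun hxs => by
    have := hcon x hxs
    rw [sub_self, norm_zero] at this
    linarith
  have hmem : s.card + 1 ∈ S := by
    refine ⟨insert x s, ?_, ?_, Finset.card_insert_of_notMem hxs⟩
    · intro c hc
      rcases Finset.mem_insert.1 hc with rfl | hc
      · exact hx
      · exact hs c hc
    · intro c hc d hd hcd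
      rcases Finset.mem_insert.1 hc with hc | hc <;> rcases Finset.mem_insert.1 hd with hd | hd
      · exact absurd (hc.trans hd.symm) hcd
      · rw [hc]
        exact (hcon d hd).le
      · rw [hd, norm_sub_rev]
        exact (hcon c hc).le
      · exact hsep c hc d hd hcd
  have := le_csSup hSb hmem
  omega

end Pool.MP43e44c
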