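import Mathlib

/-!
The numerical estimate.
-/

set_option autoImplicit false

namespace Pool.MP43e44c

theorem num_sq_le (N : ℕ) (hN : 1 ≤ N) : (N : ℝ) ^ 2 ≤ 4 * 2 ^ (N - 1) := by
  obtain ⟨n, rfl⟩ : ∃ n, N = n + 1 := ⟨N - 1, by omega⟩
  rw [Nat.add_sub_cancel]
  have h : (n + 1) ^ 2 ≤ 4 * 2 ^ n := by
    induction n with
    | zero => norm_num
    | succ n ih =>
      rcases Nat.lt_or_ge n 2 with h | h
      · interval_cases n <;> norm_num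
      · have h1 := ih (by omega)
        rw [pow_succ 2 n]
        nlinarith
  exact_mod_cast h

theorem num_bound_pow : ∃ D : ℝ, 0 ≤ D ∧
    ∀ N : ℕ, (N : ℝ) ^ 2 * ((97 / 100 : ℝ) ^ 3) ^ N ≤ D := by
  have h := tendsto_pow_const_mul_const_pow_of_abs_lt_one 2 (r := (97 / 100 : ℝ) ^ 3)
    (by rw [abs_of_pos (by norm_num)]; norm_num)
  obtain ⟨D, hD⟩ := h.bddAbove_range
  refine ⟨max D 0, le_max_right _ _, fun N => (hD ⟨N, rfl⟩).trans (le_max_left _ _)⟩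

theorem num_large (N h : ℕ) (s κ : ℝ) (h1 : 1 ≤ h) (hN : h ≤ N) (hs : 317 ≤ s) (hκ : 0 ≤ κ)
    (hκ2 : κ ≤ 13 / 5 / s) :
    2 * h * (1 + 8 * s ^ 2) ^ (h - 1) * κ ^ (3 * N) * (s ^ 3 * N ^ 2) ≤ 144 * N := by
  have hs0 : 0 < s := by linarith
  have hN1 : 1 ≤ N := h1.trans hN
  have a1 : (1 + 8 * s ^ 2) ^ (h - 1) ≤ (9 * s ^ 2) ^ (N - 1) := by
    calc (1 + 8 * s ^ 2) ^ (h - 1) ≤ (9 * s ^ 2) ^ (h - 1) :=
          pow_le_pow_left₀ (by positivity) (by nlinarith) _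
      _ ≤ (9 * s ^ 2) ^ (N - 1) := pow_le_pow_right₀ (by nlinarith) (by omega)
  have a2 : κ ^ (3 * N) ≤ (13 / 5 / s) ^ 3 * ((13 / 5 / s) ^ 3) ^ (N - 1) := by
    calc κ ^ (3 * N) ≤ (13 / 5 / s) ^ (3 * N) := pow_le_pow_left₀ hκ hκ2 _
      _ = ((13 / 5 / s) ^ 3) ^ N := by rw [pow_mul]
      _ = _ := by rw [← pow_succ']; congr 1; omega
  have a3 : (9 * s ^ 2) * (13 / 5 / s) ^ 3 ≤ 1 / 2 := by
    have : (9 * s ^ 2) * (13 / 5 / s) ^ 3 = (9 * (13 / 5) ^ 3) / s := by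
      field_simp
    rw [this, div_le_iff₀ hs0]
    linarith
  have a4 : (9 * s ^ 2) ^ (N - 1) * ((13 / 5 / s) ^ 3) ^ (N - 1) ≤ (1 / 2) ^ (N - 1) := by
    rw [← mul_pow]
    exact pow_le_pow_left₀ (by positivity) a3 _
  have a5 := num_sq_le N hN1
  have a6 : (N : ℝ) ^ 2 * (1 / 2) ^ (N - 1) ≤ 4 := by
    calc (N : ℝ) ^ 2 * (1 / 2) ^ (N - 1) ≤ (4 * 2 ^ (N - 1)) * (1 / 2) ^ (N - 1) :=
          mul_le_mul_of_nonneg_right a5 (by positivity)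
      _ = 4 * (2 * (1 / 2)) ^ (N - 1) := by rw [mul_pow]; ring
      _ = 4 := by norm_num
  have a7 : (h : ℝ) ≤ N := by exact_mod_cast hN
  have a8 : (13 / 5 / s) ^ 3 * s ^ 3 ≤ 18 := by
    rw [← mul_pow, div_mul_cancel₀ _ hs0.ne']
    norm_num
  calc 2 * h * (1 + 8 * s ^ 2) ^ (h - 1) * κ ^ (3 * N) * (s ^ 3 * N ^ 2)
      ≤ 2 * N * (9 * s ^ 2) ^ (N - 1) *
        ((13 / 5 / s) ^ 3 * ((13 / 5 / s) ^ 3) ^ (N - 1)) * (s ^ 3 * N ^ 2) := by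
        gcongr
    _ = 2 * N * ((13 / 5 / s) ^ 3 * s ^ 3) * (N ^ 2 *
        ((9 * s ^ 2) ^ (N - 1) * ((13 / 5 / s) ^ 3) ^ (N - 1))) := by ring
    _ ≤ 2 * N * 18 * (N ^ 2 * (1 / 2) ^ (N - 1)) := by gcongr
    _ ≤ 2 * N * 18 * 4 := by gcongr
    _ = 144 * N := by ring

theorem num_small (S D : ℝ) (H : ℕ) (hH : 4 * S ^ 2 ≤ H)
    (hD : ∀ N : ℕ, (N : ℝ) ^ 2 * ((97 / 100 : ℝ) ^ 3) ^ N ≤ D)
    (N h : ℕ) (s κ : ℝ) (h1 : 1 ≤ h) (hN : 1 ≤ N) (h4 : (h : ℝ) ≤ 4 * s ^ 2) (hs0 : 0 ≤ s)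
    (hs : s ≤ S) (hκ : 0 ≤ κ) (hκ2 : κ ≤ 97 / 100) :
    2 * h * (1 + 8 * s ^ 2) ^ (h - 1) * κ ^ (3 * N) * (s ^ 3 * N ^ 2) ≤
      2 * H * (1 + 8 * S ^ 2) ^ H * S ^ 3 * D * N := by
  have hs2 : s ^ 2 ≤ S ^ 2 := pow_le_pow_left₀ hs0 hs 2
  have b1 : (h : ℝ) ≤ H := h4.trans (by linarith)
  have b1' : h ≤ H := by exact_mod_cast b1
  have b2 : (1 + 8 * s ^ 2) ^ (h - 1) ≤ (1 + 8 * S ^ 2) ^ H := by
    calc (1 + 8 * s ^ 2) ^ (h - 1) ≤ (1 + 8 * S ^ 2) ^ (h - 1) :=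
          pow_le_pow_left₀ (by positivity) (by linarith) _
      _ ≤ (1 + 8 * S ^ 2) ^ H := pow_le_pow_right₀ (by nlinarith [sq_nonneg S]) (by omega)
  have b3 : κ ^ (3 * N) ≤ ((97 / 100 : ℝ) ^ 3) ^ N := by
    rw [← pow_mul]
    exact pow_le_pow_left₀ hκ hκ2 _
  have b4 : (1 : ℝ) ≤ N := by exact_mod_cast hN
  have hS0 : 0 ≤ S := hs0.trans hs
  have hD0 : 0 ≤ D := le_trans (by positivity) (hD 0)
  calc 2 * h * (1 + 8 * s ^ 2) ^ (h - 1) * κ ^ (3 * N) * (s ^ 3 * N ^ 2)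
      ≤ 2 * H * (1 + 8 * S ^ 2) ^ H * ((97 / 100 : ℝ) ^ 3) ^ N * (S ^ 3 * N ^ 2) := by
        gcongr
    _ = 2 * H * (1 + 8 * S ^ 2) ^ H * S ^ 3 * (N ^ 2 * ((97 / 100 : ℝ) ^ 3) ^ N) := by ring
    _ ≤ 2 * H * (1 + 8 * S ^ 2) ^ H * S ^ 3 * D := by gcongr; exact hD N
    _ ≤ 2 * H * (1 + 8 * S ^ 2) ^ H * S ^ 3 * D * N :=
        le_mul_of_one_le_right (by positivity) b4

theorem num_bound : ∃ C : ℝ, ∀ (b N h : ℕ) (k κ : ℝ), 1 ≤ h → h ≤ N → 2 * N ≤ b → h * N ≤ 4 * b →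
    (b : ℝ) = k * N → 0 ≤ κ → κ ≤ 97 / 100 → κ ≤ 13 / 5 / Real.sqrt k →
    2 * h * (1 + 8 * k) ^ (h - 1) * κ ^ (3 * N) * (b * Real.sqrt b) ≤ C * N := by
  obtain ⟨D, hD0, hD⟩ := num_bound_pow
  obtain ⟨S, hS⟩ : ∃ S : ℝ, S = 317 := ⟨_, rfl⟩
  obtain ⟨H, hH⟩ := exists_nat_ge (4 * S ^ 2)
  refine ⟨max 144 (2 * H * (1 + 8 * S ^ 2) ^ H * S ^ 3 * D), ?_⟩
  intro b N h k κ h1 hN hb hhN hbk hκ hκ1 hκ2
  have hN1 : 1 ≤ N := h1.trans hN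
  have hN0 : (0 : ℝ) < N := by exact_mod_cast hN1
  have hNr : (1 : ℝ) ≤ N := by exact_mod_cast hN1
  have hk : 2 ≤ k := by
    have : (2 : ℝ) * N ≤ b := by exact_mod_cast hb
    rw [hbk] at this
    exact le_of_mul_le_mul_right this hN0
  set s := Real.sqrt k with hs
  have hs2 : k = s ^ 2 := (Real.sq_sqrt (by linarith)).symm
  have hs0 : 0 ≤ s := Real.sqrt_nonneg _
  have hb1 : (b : ℝ) * Real.sqrt b ≤ s ^ 3 * N ^ 2 := by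
    have c1 : Real.sqrt b = s * Real.sqrt N := by
      rw [hbk, Real.sqrt_mul (by linarith)]
    have c2 : Real.sqrt N ≤ N := by
      rw [Real.sqrt_le_left hN0.le]
      nlinarith
    rw [c1, hbk, hs2]
    calc s ^ 2 * N * (s * Real.sqrt N) ≤ s ^ 2 * N * (s * N) := by gcongr
      _ = s ^ 3 * N ^ 2 := by ring
  have hpos : 0 ≤ 2 * (h : ℝ) * (1 + 8 * k) ^ (h - 1) * κ ^ (3 * N) := by positivity
  refine (mul_le_mul_of_nonneg_left hb1 hpos).trans ?_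
  rw [hs2]
  rcases le_total S s with hc | hc
  · rw [hS] at hc
    refine (num_large N h s κ h1 hN hc hκ hκ2).trans ?_
    exact mul_le_mul_of_nonneg_right (le_max_left _ _) hN0.le
  · refine (num_small S D H hH hD N h s κ h1 hN1 ?_ hs0 hc hκ hκ1).trans ?_
    · have d1 : (h : ℝ) * N ≤ 4 * b := by exact_mod_cast hhN
      rw [hbk, hs2, ← mul_assoc] at d1
      exact le_of_mul_le_mul_right d1 hN0
    · exact mul_le_mul_of_nonneg_right (le_max_right _ _) hN0.le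

end Pool.MP43e44c
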