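import Pool.Agent.H.MP_43e44c_ag.SB.Rep

/-!
The dimension of the space of intertwining operators from a minimal invariant subspace.
-/

set_option autoImplicit false

open Finset Module

namespace Pool.MP43e44c

section Frob

variable {H : Type*} [NormedAddCommGroup H] [InnerProductSpace ℝ H] [FiniteDimensional ℝ H]

/-- Multiples of isometries. -/
theorem rep2_star_mul (S : H →L[ℝ] H) (hS : ∀ x, ‖S x‖ = ‖S‖ * ‖x‖) :
    star S * S = (‖S‖ ^ 2) • (1 : H →L[ℝ] H) := by
  refine ContinuousLinearMap.ext fun y => ext_inner_left ℝ fun x => ?_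
  have h1 : inner ℝ x ((star S * S) y) = inner ℝ (S x) (S y) := by
    rw [mul_apply_eq_comp, ContinuousLinearMap.star_eq_adjoint,
      ContinuousLinearMap.adjoint_inner_right]
  have h2 : inner ℝ x (((‖S‖ ^ 2) • (1 : H →L[ℝ] H)) y) = ‖S‖ ^ 2 * inner ℝ x y := by
    rw [_root_.smul_apply, one_apply_eq_self, inner_smul_right]
  rw [h1, h2]
  have h3 := norm_add_sq_real (S x) (S y)
  have h4 := norm_add_sq_real x y
  rw [← map_add, hS, hS, hS] at h3
  nlinarith [h3, h4]

theorem rep2_eq_zero {H : Type*} [NormedAddCommGroup H] [InnerProductSpace ℝ H]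
    (A : Subalgebra ℝ (H →L[ℝ] H)) (hn : ∀ S ∈ A, ∀ x, ‖S x‖ = ‖S‖ * ‖x‖)
    {S : H →L[ℝ] H} (hS : S ∈ A) {x : H} (hx : x ≠ 0) (h : S x = 0) : S = 0 := by
  have h1 := hn S hS x
  rw [h, norm_zero] at h1
  rcases mul_eq_zero.1 h1.symm with h2 | h2
  · exact norm_eq_zero.1 h2
  · exact absurd (norm_eq_zero.1 h2) hx

variable [Nontrivial H] (A : Subalgebra ℝ (H →L[ℝ] H)) (hs : ∀ S ∈ A, star S ∈ A)
  (hn : ∀ S ∈ A, ∀ x, ‖S x‖ = ‖S‖ * ‖x‖)

include hn in
theorem rep2_scalar {S : H →L[ℝ] H} (hS : S ∈ A) (h : star S = S) :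
    ∃ μ : ℝ, S = μ • (1 : H →L[ℝ] H) := by
  have h1 : (S : H →ₗ[ℝ] H).IsSymmetric :=
    ContinuousLinearMap.isSelfAdjoint_iff_isSymmetric.1 h
  have h2 := h1.hasEigenvalue_iSup_of_finiteDimensional
  set μ := (⨆ x : { x : H // x ≠ 0 }, RCLike.re (inner ℝ ((S : H →ₗ[ℝ] H) x) (x : H)) /
      ‖(x : H)‖ ^ 2 : ℝ)
  obtain ⟨x, hx⟩ := h2.exists_hasEigenvector
  refine ⟨μ, sub_eq_zero.1 (rep2_eq_zero A hn
    (sub_mem hS (A.smul_mem (one_mem A) μ)) hx.2 ?_)⟩
  rw [_root_.sub_apply, _root_.smul_apply, one_apply_eq_self, sub_eq_zero]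
  exact hx.apply_eq_smul

include hs hn in
theorem rep2_trace {S : H →L[ℝ] H} (hS : S ∈ A) : ∃ μ : ℝ, S + star S = μ • (1 : H →L[ℝ] H) :=
  rep2_scalar A hn (add_mem hS (hs S hS)) (by rw [star_add, star_star, add_comm])

/-- The elements of the algebra commuting with a given element up to a scalar. -/
def rep2_cent (e : H →L[ℝ] H) (r : ℝ) : Submodule ℝ (H →L[ℝ] H) where
  carrier := {S | S ∈ A ∧ S * e = r • (e * S)}
  zero_mem' := ⟨zero_mem A, by simp⟩
  add_mem' := by
    rintro S T ⟨hS, hS1⟩ ⟨hT, hT1⟩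
    exact ⟨add_mem hS hT, by rw [add_mul, hS1, hT1, mul_add, smul_add]⟩
  smul_mem' := by
    rintro c S ⟨hS, hS1⟩
    exact ⟨A.smul_mem hS c, by rw [smul_mul_assoc, hS1, mul_smul_comm, smul_comm]⟩

include hs hn in
theorem rep2_cent_one {e : H →L[ℝ] H} (he : e ∈ A) (he0 : e ≠ 0) (hs1 : star e = -e) :
    rep2_cent A e 1 ≤ Submodule.span ℝ {1, e} := by
  rintro S ⟨hS, hS1⟩
  rw [one_smul] at hS1
  have hc : ‖e‖ ^ 2 ≠ 0 := by
    rw [Ne, sq_eq_zero_iff, norm_eq_zero]
    exact he0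
  have hee : e * e = -(‖e‖ ^ 2) • (1 : H →L[ℝ] H) := by
    have h := rep2_star_mul e (hn e he)
    rw [hs1, neg_mul] at h
    rw [neg_smul, ← h, neg_neg]
  obtain ⟨μ, hμ⟩ := rep2_trace A hs hn hS
  have hstar : star S = μ • (1 : H →L[ℝ] H) - S := by rw [← hμ]; abel
  set S₀ := S - (μ / 2) • (1 : H →L[ℝ] H) with hS₀
  have hS₀A : S₀ ∈ A := sub_mem hS (A.smul_mem (one_mem A) _)
  have hS₀s : star S₀ = -S₀ := by
    rw [hS₀, star_sub, hstar, star_smul, star_one, star_trivial]
    module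
  have hS₀e : S₀ * e = e * S₀ := by
    rw [hS₀, sub_mul, mul_sub, hS1, smul_mul_assoc, mul_smul_comm, one_mul, mul_one]
  obtain ⟨ν, hν⟩ := rep2_scalar A hn (add_mem (mul_mem hS₀A he) (mul_mem he hS₀A))
    (by rw [star_add, star_mul, star_mul, hS₀s, hs1, neg_mul_neg, neg_mul_neg, add_comm])
  rw [← hS₀e] at hν
  have h3 : S₀ = (-(ν / (2 * ‖e‖ ^ 2))) • e := by
    have h4 : (S₀ * e + S₀ * e) * e = ν • e := by rw [hν, smul_mul_assoc, one_mul]
    rw [add_mul, mul_assoc, hee, mul_smul_comm, mul_one] at h4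
    have h5 : (-(2 * ‖e‖ ^ 2)) • S₀ = ν • e := by rw [← h4]; module
    calc S₀ = (-(2 * ‖e‖ ^ 2))⁻¹ • ((-(2 * ‖e‖ ^ 2)) • S₀) := by
          rw [smul_smul, inv_mul_cancel₀ (by simpa using he0), one_smul]
      _ = _ := by
          rw [h5, smul_smul]
          congr 1
          field_simp
  have h6 : S = (μ / 2) • (1 : H →L[ℝ] H) + (-(ν / (2 * ‖e‖ ^ 2))) • e := by
    rw [← h3, hS₀]
    abel
  rw [h6]
  exact add_mem (Submodule.smul_mem _ _ (Submodule.subset_span (by simp)))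
    (Submodule.smul_mem _ _ (Submodule.subset_span (by simp)))

include hs hn in
theorem rep2_finrank_one {e : H →L[ℝ] H} (he : e ∈ A) (he0 : e ≠ 0) (hs1 : star e = -e) :
    finrank ℝ (rep2_cent A e 1) ≤ 2 := by
  classical
  refine (Submodule.finrank_mono (rep2_cent_one A hs hn he he0 hs1)).trans ?_
  have h := finrank_span_finset_le_card (R := ℝ) ({1, e} : Finset (H →L[ℝ] H))
  rw [Finset.coe_insert, Finset.coe_singleton] at h
  exact h.trans Finset.card_le_two

include hs hn in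
theorem rep2_finrank_neg {e : H →L[ℝ] H} (he : e ∈ A) (he0 : e ≠ 0) (hs1 : star e = -e) :
    finrank ℝ (rep2_cent A e (-1)) ≤ 2 := by
  by_cases h0 : rep2_cent A e (-1) = ⊥
  · rw [h0, finrank_bot]
    exact Nat.zero_le _
  obtain ⟨f, hf, hf0⟩ := Submodule.exists_mem_ne_zero_of_ne_bot h0
  have hff := rep2_star_mul f (hn f hf.1)
  refine le_trans ?_ (rep2_finrank_one A hs hn he he0 hs1)
  let Φ : rep2_cent A e (-1) →ₗ[ℝ] rep2_cent A e 1 :=
    { toFun := fun S => ⟨S.1 * star f, mul_mem S.2.1 (hs f hf.1), by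
        have h1 := S.2.2
        have h2 := hf.2
        have h3 : star f * e = -(e * star f) := by
          rw [neg_one_smul] at h2
          have h4 : star (f * e) = star (-(e * f)) := by rw [h2]
          rw [star_mul, star_neg, star_mul, hs1, neg_mul, mul_neg, neg_neg] at h4
          rw [← h4]
        rw [mul_assoc, h3, mul_neg, ← mul_assoc, h1, neg_one_smul, neg_mul, neg_neg, mul_assoc,
          one_smul]⟩
      map_add' := fun S T => Subtype.ext (by simp [add_mul])
      map_smul' := fun r S => Subtype.ext (by simp) }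
  refine LinearMap.finrank_le_finrank_of_injective (f := Φ) ?_
  rw [injective_iff_map_eq_zero]
  intro S hS
  have h1 : S.1 * star f = 0 := congrArg Subtype.val hS
  have h2 : S.1 * (star f * f) = 0 := by rw [← mul_assoc, h1, zero_mul]
  rw [hff, mul_smul_comm, mul_one] at h2
  rcases smul_eq_zero.1 h2 with h3 | h3
  · rw [sq_eq_zero_iff, norm_eq_zero] at h3
    exact absurd h3 hf0
  · exact Subtype.ext h3

include hs hn in
/-- Frobenius: a real algebra of multiples of isometries has dimension at most 4. -/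
theorem rep2_frob : finrank ℝ A ≤ 4 := by
  by_cases h : ∃ e ∈ A, e ≠ 0 ∧ star e = -e
  · obtain ⟨e, he, he0, hs1⟩ := h
    have hc : ‖e‖ ^ 2 ≠ 0 := by
      rw [Ne, sq_eq_zero_iff, norm_eq_zero]
      exact he0
    have hee : e * e = -(‖e‖ ^ 2) • (1 : H →L[ℝ] H) := by
      have h := rep2_star_mul e (hn e he)
      rw [hs1, neg_mul] at h
      rw [neg_smul, ← h, neg_neg]
    generalize ‖e‖ ^ 2 = c at hc hee
    have h1 : Subalgebra.toSubmodule A ≤ rep2_cent A e 1 ⊔ rep2_cent A e (-1) := by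
      intro S hS
      have hS' : S ∈ A := hS
      have hm : e * S * e ∈ A := mul_mem (mul_mem he hS') he
      have a1 : c⁻¹ • (e * S * e * e) = -(e * S) := by
        rw [mul_assoc, hee, mul_smul_comm, mul_one, neg_smul, smul_neg, smul_smul,
          inv_mul_cancel₀ hc, one_smul]
      have a2 : c⁻¹ • (e * (e * S * e)) = -(S * e) := by
        rw [mul_assoc, ← mul_assoc e e, hee, smul_mul_assoc, one_mul, neg_smul, smul_neg,
          smul_smul, inv_mul_cancel₀ hc, one_smul]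
      refine Submodule.mem_sup.2 ⟨(1 / 2 : ℝ) • (S - c⁻¹ • (e * S * e)), ⟨?_, ?_⟩,
        (1 / 2 : ℝ) • (S + c⁻¹ • (e * S * e)), ⟨?_, ?_⟩, ?_⟩
      · exact A.smul_mem (sub_mem hS' (A.smul_mem hm _)) _
      · rw [smul_mul_assoc, mul_smul_comm, sub_mul, mul_sub, smul_mul_assoc, mul_smul_comm, a1, a2]
        module
      · exact A.smul_mem (add_mem hS' (A.smul_mem hm _)) _
      · rw [smul_mul_assoc, mul_smul_comm, add_mul, mul_add, smul_mul_assoc, mul_smul_comm, a1, a2]
        module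
      · module
    calc finrank ℝ A = finrank ℝ (Subalgebra.toSubmodule A) := rfl
      _ ≤ finrank ℝ ↥(rep2_cent A e 1 ⊔ rep2_cent A e (-1)) := Submodule.finrank_mono h1
      _ ≤ finrank ℝ (rep2_cent A e 1) + finrank ℝ (rep2_cent A e (-1)) :=
        Submodule.finrank_add_le_finrank_add_finrank _ _
      _ ≤ 2 + 2 := add_le_add (rep2_finrank_one A hs hn he he0 hs1)
        (rep2_finrank_neg A hs hn he he0 hs1)
  · push Not at h
    have h1 : Subalgebra.toSubmodule A ≤ Submodule.span ℝ {1} := by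
      intro S hS
      have hS' : S ∈ A := hS
      by_cases h2 : S - star S = 0
      · obtain ⟨μ, hμ⟩ := rep2_scalar A hn hS' (sub_eq_zero.1 h2).symm
        rw [hμ]
        exact Submodule.smul_mem _ _ (Submodule.subset_span rfl)
      · exact absurd (by rw [star_sub, star_star, neg_sub])
          (h (S - star S) (sub_mem hS' (hs S hS')) h2)
    calc finrank ℝ A = finrank ℝ (Subalgebra.toSubmodule A) := rfl
      _ ≤ finrank ℝ ↥(Submodule.span ℝ {(1 : H →L[ℝ] H)}) := Submodule.finrank_mono h1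
      _ ≤ 1 := by
        have h := finrank_span_finset_le_card (R := ℝ) ({1} : Finset (H →L[ℝ] H))
        rw [Finset.coe_singleton] at h
        exact h.trans (by simp)
      _ ≤ 4 := by norm_num

end Frob

namespace Coc

variable {Γ ι : Type*} [Group Γ] [MulAction Γ ι] [Fintype ι] (C : Coc Γ ι)

/-- The algebra of intertwining operators of a subspace. -/
def rep2_end (U : Submodule ℝ (EuclideanSpace ℝ ι)) : Subalgebra ℝ (U →L[ℝ] U) where
  carrier := {S | ∀ (g : Γ) (x y : U), C.act g x = y → C.act g (S x) = S y}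
  mul_mem' := by
    intro S T hS hT g x y h
    rw [mul_apply_eq_comp, mul_apply_eq_comp]
    exact hS g (T x) (T y) (hT g x y h)
  add_mem' := by
    intro S T hS hT g x y h
    rw [_root_.add_apply, _root_.add_apply, Submodule.coe_add, Submodule.coe_add, map_add,
      hS g x y h, hT g x y h]
  algebraMap_mem' := by
    intro r g x y h
    rw [Algebra.algebraMap_eq_smul_one, _root_.smul_apply, _root_.smul_apply,
      one_apply_eq_self, one_apply_eq_self, Submodule.coe_smul, Submodule.coe_smul, map_smul, h]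

theorem rep2_adjoint_comp {U : Submodule ℝ (EuclideanSpace ℝ ι)} (hU : C.Inv U)
    {S T : U →L[ℝ] EuclideanSpace ℝ ι} (hS : S ∈ C.Hom U) (hT : T ∈ C.Hom U) :
    (ContinuousLinearMap.adjoint S ∘L T) ∈ C.rep2_end U := by
  intro g x y h
  have h1 : (⟨C.act g (ContinuousLinearMap.adjoint S (T x)),
      hU g _ (ContinuousLinearMap.adjoint S (T x)).2⟩ : U) =
      ContinuousLinearMap.adjoint S (T y) := by
    refine ext_inner_left ℝ fun z => ?_
    rw [ContinuousLinearMap.adjoint_inner_right, Submodule.coe_inner]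
    have h2 : S ⟨C.act g⁻¹ z, hU g⁻¹ z z.2⟩ = C.act g⁻¹ (S z) := hS g⁻¹ z _ rfl
    have h3 : T y = C.act g (T x) := hT g x y h
    calc inner ℝ (z : EuclideanSpace ℝ ι) (C.act g (ContinuousLinearMap.adjoint S (T x)))
        = inner ℝ (C.act g⁻¹ (z : EuclideanSpace ℝ ι))
            ((ContinuousLinearMap.adjoint S (T x) : U) : EuclideanSpace ℝ ι) := by
          rw [inner_act_left, inv_inv]
      _ = inner ℝ (⟨C.act g⁻¹ z, hU g⁻¹ z z.2⟩ : U) (ContinuousLinearMap.adjoint S (T x)) := rfl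
      _ = inner ℝ (C.act g⁻¹ (S z)) (T x) := by
          rw [ContinuousLinearMap.adjoint_inner_right, h2]
      _ = inner ℝ (S z) (T y) := by rw [inner_act_left, inv_inv, h3]
  exact congrArg Subtype.val h1

theorem rep2_end_comp {U : Submodule ℝ (EuclideanSpace ℝ ι)} {S : U →L[ℝ] U}
    (hS : S ∈ C.rep2_end U) : (U.subtypeL ∘L S) ∈ C.Hom U :=
  fun g x y h => (hS g x y h).symm

theorem rep2_end_star {U : Submodule ℝ (EuclideanSpace ℝ ι)} (hU : C.Inv U) {S : U →L[ℝ] U}
    (hS : S ∈ C.rep2_end U) : star S ∈ C.rep2_end U := by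
  have h := C.rep2_adjoint_comp hU (C.rep2_end_comp hS)
    (C.rep2_end_comp (one_mem (C.rep2_end U)))
  have h1 : ContinuousLinearMap.adjoint (U.subtypeL ∘L S) ∘L (U.subtypeL ∘L 1) = star S := by
    refine ContinuousLinearMap.ext fun x => ext_inner_left ℝ fun z => ?_
    rw [ContinuousLinearMap.star_eq_adjoint, ContinuousLinearMap.adjoint_inner_right,
      ContinuousLinearMap.comp_apply, ContinuousLinearMap.adjoint_inner_right]
    rfl
  rwa [h1] at h

theorem rep2_end_norm {U : Submodule ℝ (EuclideanSpace ℝ ι)} (hU : C.Mnl U) {S : U →L[ℝ] U}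
    (hS : S ∈ C.rep2_end U) (x : U) : ‖S x‖ = ‖S‖ * ‖x‖ := by
  have h := C.norm_hom hU (C.rep2_end_comp hS) x
  have h1 : ‖U.subtypeL ∘L S‖ = ‖S‖ := U.subtypeₗᵢ.norm_toContinuousLinearMap_comp
  rwa [h1] at h

theorem rep2_end_finrank {U : Submodule ℝ (EuclideanSpace ℝ ι)} (hU : C.Mnl U) :
    finrank ℝ (C.rep2_end U) ≤ 4 := by
  have : Nontrivial U := Submodule.nontrivial_iff_ne_bot.2 hU.2.1
  exact rep2_frob _ (fun S hS => C.rep2_end_star hU.1 hS) fun S hS => C.rep2_end_norm hU hS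

/-- Intertwining operators into an invariant subspace. -/
def rep2_homTo (U W : Submodule ℝ (EuclideanSpace ℝ ι)) :
    Submodule ℝ (U →L[ℝ] EuclideanSpace ℝ ι) where
  carrier := {T | T ∈ C.Hom U ∧ ∀ x, T x ∈ W}
  zero_mem' := ⟨zero_mem _, fun _ => zero_mem _⟩
  add_mem' := fun hS hT => ⟨add_mem hS.1 hT.1, fun x => add_mem (hS.2 x) (hT.2 x)⟩
  smul_mem' := fun r _ hS => ⟨Submodule.smul_mem _ r hS.1, fun x => Submodule.smul_mem _ r (hS.2 x)⟩

theorem rep2_homTo_finrank {U : Submodule ℝ (EuclideanSpace ℝ ι)} (hU : C.Mnl U) (n : ℕ) :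
    ∀ W : Submodule ℝ (EuclideanSpace ℝ ι), C.Inv W → finrank ℝ W ≤ n →
      finrank ℝ (C.rep2_homTo U W) * finrank ℝ U ≤ 4 * finrank ℝ W := by
  have : Nontrivial U := Submodule.nontrivial_iff_ne_bot.2 hU.2.1
  have hpos : 0 < finrank ℝ U := finrank_pos
  induction n with
  | zero =>
    intro W _ hn
    have hW : W = ⊥ := Submodule.finrank_eq_zero.1 (Nat.le_zero.1 hn)
    have h0 : C.rep2_homTo U W = ⊥ := by
      rw [eq_bot_iff]
      intro T hT
      rw [Submodule.mem_bot]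
      refine ContinuousLinearMap.ext fun x => ?_
      have h := hT.2 x
      rw [hW, Submodule.mem_bot] at h
      rw [h, _root_.zero_apply]
    rw [h0, finrank_bot, zero_mul]
    exact Nat.zero_le _
  | succ n ih =>
    intro W hW hn
    by_cases h0 : C.rep2_homTo U W = ⊥
    · rw [h0, finrank_bot, zero_mul]
      exact Nat.zero_le _
    obtain ⟨T₁, hT₁, hT0⟩ := Submodule.exists_mem_ne_zero_of_ne_bot h0
    have hn0 : ‖T₁‖ ≠ 0 := fun h => hT0 ((ContinuousLinearMap.opNorm_zero_iff T₁).1 h)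
    have hinj : Function.Injective (T₁ : U →ₗ[ℝ] EuclideanSpace ℝ ι) := by
      rw [← LinearMap.ker_eq_bot, eq_bot_iff]
      intro x hx
      have h1 : T₁ x = 0 := hx
      have h2 := C.norm_hom hU hT₁.1 x
      rw [h1, norm_zero] at h2
      rcases mul_eq_zero.1 h2.symm with h3 | h3
      · exact absurd h3 hn0
      · exact norm_eq_zero.1 h3
    set R := LinearMap.range (T₁ : U →ₗ[ℝ] EuclideanSpace ℝ ι) with hR
    have hRI : C.Inv R := C.inv_range hU.1 hT₁.1
    have hRW : R ≤ W := by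
      rintro _ ⟨x, rfl⟩
      exact hT₁.2 x
    have hRd : finrank ℝ R = finrank ℝ U := LinearMap.finrank_range_of_inj hinj
    have hdim : finrank ℝ R + finrank ℝ ↥(Rᗮ ⊓ W) = finrank ℝ W :=
      Submodule.finrank_add_inf_finrank_orthogonal hRW
    have hI : C.Inv (Rᗮ ⊓ W) := fun g x hx => ⟨C.inv_orthogonal hRI g x hx.1, hW g x hx.2⟩
    have ih1 := ih (Rᗮ ⊓ W) hI (by omega)
    let Φ : C.rep2_homTo U W →ₗ[ℝ] Subalgebra.toSubmodule (C.rep2_end U) :=
      { toFun := fun T => ⟨ContinuousLinearMap.adjoint T₁ ∘L T.1,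
          C.rep2_adjoint_comp hU.1 hT₁.1 T.2.1⟩
        map_add' := fun S T => Subtype.ext (by simp)
        map_smul' := fun r S => Subtype.ext (by simp) }
    have h1 : finrank ℝ (LinearMap.range Φ) ≤ 4 :=
      (Submodule.finrank_le _).trans (C.rep2_end_finrank hU)
    have h2 : finrank ℝ (LinearMap.ker Φ) ≤ finrank ℝ (C.rep2_homTo U (Rᗮ ⊓ W)) := by
      let Ψ : LinearMap.ker Φ →ₗ[ℝ] C.rep2_homTo U (Rᗮ ⊓ W) :=
        { toFun := fun T => ⟨T.1.1, T.1.2.1, fun x => ⟨by
            rw [SetLike.mem_coe, Submodule.mem_orthogonal]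
            rintro _ ⟨z, rfl⟩
            have h3 : ContinuousLinearMap.adjoint T₁ ∘L T.1.1 = 0 := congrArg Subtype.val T.2
            have h4 : inner ℝ z ((ContinuousLinearMap.adjoint T₁ ∘L T.1.1) x) = 0 := by
              rw [h3, _root_.zero_apply, inner_zero_right]
            rw [ContinuousLinearMap.comp_apply, ContinuousLinearMap.adjoint_inner_right] at h4
            exact h4, T.1.2.2 x⟩⟩
          map_add' := fun S T => rfl
          map_smul' := fun r S => rfl }
      refine LinearMap.finrank_le_finrank_of_injective (f := Ψ) ?_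
      intro S T h
      have h5 : (Ψ S).1 = (Ψ T).1 := by rw [h]
      exact Subtype.ext (Subtype.ext h5)
    have h3 := LinearMap.finrank_range_add_finrank_ker (K := ℝ) (V := C.rep2_homTo U W)
      (V₂ := Subalgebra.toSubmodule (C.rep2_end U)) Φ
    calc finrank ℝ (C.rep2_homTo U W) * finrank ℝ U
        = (finrank ℝ (LinearMap.range Φ) + finrank ℝ (LinearMap.ker Φ)) * finrank ℝ U := by rw [h3]
      _ ≤ (4 + finrank ℝ (C.rep2_homTo U (Rᗮ ⊓ W))) * finrank ℝ U :=
        Nat.mul_le_mul_right _ (add_le_add h1 h2)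
      _ = 4 * finrank ℝ U + finrank ℝ (C.rep2_homTo U (Rᗮ ⊓ W)) * finrank ℝ U := by ring
      _ ≤ 4 * finrank ℝ U + 4 * finrank ℝ ↥(Rᗮ ⊓ W) := Nat.add_le_add_left ih1 _
      _ = 4 * finrank ℝ W := by rw [← hdim, hRd]; ring

theorem finrank_hom_mul_le {U : Submodule ℝ (EuclideanSpace ℝ ι)} (hU : C.Mnl U) :
    finrank ℝ (C.Hom U) * finrank ℝ U ≤ 4 * Fintype.card ι := by
  have h := C.rep2_homTo_finrank hU _ ⊤ (fun _ _ _ => Submodule.mem_top) le_rfl
  have h1 : C.rep2_homTo U ⊤ = C.Hom U := by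
    ext T
    exact ⟨fun h => h.1, fun h => ⟨h, fun _ => Submodule.mem_top⟩⟩
  rwa [h1, finrank_top, finrank_euclideanSpace] at h

end Coc

end Pool.MP43e44c
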