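import Pool.Agent.H.MP_43e44c_ag.SB.Ball
import Pool.Agent.H.MP_43e44c_ag.SB.Net
import Pool.Agent.H.MP_43e44c_ag.SB.Rep2
import Pool.Agent.H.MP_43e44c_ag.SB.Num

/-!
The union over the images of a minimal subspace.
-/

set_option autoImplicit false

open Finset Module

namespace Pool.MP43e44c

/-- The sign vector is orthogonal to the subspace. -/
def SOrth {ι : Type*} [Fintype ι] (v : ι → Bool) (U : Submodule ℝ (EuclideanSpace ℝ ι)) : Prop :=
  ∀ x ∈ U, inner ℝ (sv v) x = (0 : ℝ)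

open Classical in
/-- A subspace contains few sign vectors. -/
theorem card_sorth_le {ι : Type*} [Fintype ι] [DecidableEq ι]
    (U : Submodule ℝ (EuclideanSpace ℝ ι)) :
    (univ.filter fun v : ι → Bool => SOrth v U).card * 2 ^ finrank ℝ U
      ≤ 2 ^ Fintype.card ι := by
  let V := Uᗮ
  have hV : finrank ℝ U + finrank ℝ V = Fintype.card ι := by
    rw [Submodule.finrank_add_finrank_orthogonal, finrank_euclideanSpace]
  let e : ι → (V →ₗ[ℝ] ℝ) := fun i =>
    { toFun := fun x => (x : EuclideanSpace ℝ ι) i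
      map_add' := fun x y => by simp
      map_smul' := fun r x => by simp }
  obtain ⟨D, hD, f, hf, hspan⟩ : ∃ D : ℕ, D = finrank ℝ (Submodule.span ℝ (Set.range e)) ∧
      ∃ f : Fin D → (V →ₗ[ℝ] ℝ), (∀ j, f j ∈ Set.range e) ∧
        Submodule.span ℝ (Set.range f) = Submodule.span ℝ (Set.range e) := by
    obtain ⟨f, hf, hspan, -⟩ := Submodule.exists_fun_fin_finrank_span_eq ℝ (Set.range e)
    exact ⟨_, rfl, f, hf, hspan⟩
  have hDle : D ≤ finrank ℝ V := by
    have h1 := Submodule.finrank_le (Submodule.span ℝ (Set.range e))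
    have h2 : finrank ℝ (V →ₗ[ℝ] ℝ) = finrank ℝ V := Subspace.dual_finrank_eq
    rwa [h2, ← hD] at h1
  choose J hJ using hf
  have hcard : (univ.filter fun v : ι → Bool => SOrth v U).card ≤ 2 ^ D := by
    have h1 : (2 : ℕ) ^ D = (univ : Finset (Fin D → Bool)).card := by
      rw [card_univ, Fintype.card_fun, Fintype.card_fin, Fintype.card_bool]
    rw [h1]
    refine card_le_card_of_injOn (fun v j => v (J j)) (fun _ _ => mem_univ _) ?_
    intro v hv v' hv' hvv
    rw [mem_coe, mem_filter] at hv hv'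
    have hmem : ∀ w : ι → Bool, SOrth w U → sv w ∈ V := by
      intro w hw x hx
      rw [real_inner_comm]
      exact hw x hx
    let y : V := ⟨sv v, hmem v hv.2⟩ - ⟨sv v', hmem v' hv'.2⟩
    have hy : ∀ i, (y : EuclideanSpace ℝ ι) i = sv v i - sv v' i := fun i => rfl
    have hk : ∀ j, f j y = 0 := by
      intro j
      rw [← hJ j]
      show (y : EuclideanSpace ℝ ι) (J j) = 0
      have h2 : v (J j) = v' (J j) := congrFun hvv j
      rw [hy]
      unfold sv
      simp [h2]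
    have hker : ∀ g ∈ Submodule.span ℝ (Set.range f), g y = 0 := by
      intro g hg
      induction hg using Submodule.span_induction with
      | mem x hx => obtain ⟨j, rfl⟩ := hx; exact hk j
      | zero => rfl
      | add x z _ _ hx hz => rw [LinearMap.add_apply, hx, hz, add_zero]
      | smul r x _ hx => rw [LinearMap.smul_apply, hx, smul_zero]
    funext i
    have h3 : e i y = 0 := by
      apply hker
      rw [hspan]
      exact Submodule.subset_span ⟨i, rfl⟩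
    have h4 : sv v i - sv v' i = 0 := by
      rw [← hy]; exact h3
    unfold sv at h4
    by_cases h5 : v i <;> by_cases h6 : v' i <;> simp [h5, h6] at h4 ⊢ <;> linarith
  calc (univ.filter fun v : ι → Bool => SOrth v U).card * 2 ^ finrank ℝ U
      ≤ 2 ^ finrank ℝ V * 2 ^ finrank ℝ U := by
        refine Nat.mul_le_mul_right _ (hcard.trans (Nat.pow_le_pow_right two_pos hDle))
    _ = 2 ^ Fintype.card ι := by
        rw [← pow_add, add_comm, hV]

variable {Γ ι : Type*} [Group Γ] [Fintype Γ] [MulAction Γ ι] [Fintype ι] [DecidableEq ι]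
  [MulAction.IsPretransitive Γ ι]

omit [Fintype Γ] [DecidableEq ι] [MulAction.IsPretransitive Γ ι] in
set_option backward.isDefEq.respectTransparency false in
/-- The geometric step. -/
theorem norm_proj_le (C : Coc Γ ι) {U : Submodule ℝ (EuclideanSpace ℝ ι)} (hU : C.Mnl U)
    {S T : U →L[ℝ] EuclideanSpace ℝ ι} (hS : S ∈ C.Hom U) (hSn : ‖S‖ = 1) {ε : ℝ}
    (hST : ‖T - S‖ ≤ ε) (v : EuclideanSpace ℝ ι)
    (hv : ∀ x, inner ℝ v (T x) = 0) :
    ‖(LinearMap.range (S : U →ₗ[ℝ] EuclideanSpace ℝ ι)).starProjection v‖ ≤ ε * ‖v‖ := by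
  set W := LinearMap.range (S : U →ₗ[ℝ] EuclideanSpace ℝ ι) with hW
  obtain ⟨x, hx⟩ : W.starProjection v ∈ W := Submodule.starProjection_apply_mem W v
  have hx' : S x = W.starProjection v := hx
  have h1 : ‖x‖ = ‖W.starProjection v‖ := by
    rw [← hx', C.norm_hom hU hS, hSn, one_mul]
  have h2 : ‖W.starProjection v‖ ^ 2 = inner ℝ v ((S - T) x) := by
    have h3 : inner ℝ v ((S - T) x) = inner ℝ v (S x) - inner ℝ v (T x) := by
      rw [← inner_sub_right]; rfl
    rw [h3, hv, sub_zero, hx', ← real_inner_self_eq_norm_sq]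
    have h4 := Submodule.starProjection_inner_eq_zero (K := W) v (W.starProjection v)
      (Submodule.starProjection_apply_mem W v)
    rw [inner_sub_left, sub_eq_zero] at h4
    exact h4.symm
  have h5 : ‖W.starProjection v‖ ^ 2 ≤ ε * ‖v‖ * ‖W.starProjection v‖ := by
    rw [h2]
    refine (real_inner_le_norm _ _).trans ?_
    have h6 : ‖(S - T) x‖ ≤ ε * ‖x‖ := by
      refine ((S - T).le_opNorm x).trans ?_
      have h7 : ‖S - T‖ ≤ ε := (norm_sub_rev S T).trans_le hST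
      gcongr
    rw [← h1]
    calc ‖v‖ * ‖(S - T) x‖ ≤ ‖v‖ * (ε * ‖x‖) := by gcongr
      _ = ε * ‖v‖ * ‖x‖ := by ring
  rcases (norm_nonneg (W.starProjection v)).eq_or_lt with h | h
  · rw [← h]
    have : 0 ≤ ε := (norm_nonneg (T - S)).trans hST
    positivity
  · rw [sq] at h5
    exact le_of_mul_le_mul_right h5 h

set_option backward.isDefEq.respectTransparency false in
open Classical in
/-- Triples of sign vectors orthogonal to an image of a minimal subspace. -/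
theorem card_triple_le (C : Coc Γ ι) {U : Submodule ℝ (EuclideanSpace ℝ ι)} (hU : C.Mnl U)
    {N : ℕ} (hN : finrank ℝ U = N) {k : ℝ} (hc : (Fintype.card ι : ℝ) = k * N) (hk : 2 ≤ k)
    {h : ℕ} (hh : finrank ℝ (C.Hom U) = h) :
    ((univ.filter fun v : Fin 3 → ι → Bool => ∃ T ∈ C.Hom U, T ≠ 0 ∧ ∀ j,
        SOrth (v j) (LinearMap.range (T : U →ₗ[ℝ] EuclideanSpace ℝ ι))).card : ℝ)
      ≤ (2 ^ Fintype.card ι) ^ 3 * (2 * h * (1 + 8 * k) ^ (h - 1) *
        (Real.exp ((1 / 4) ^ 2 / 2) * (Real.exp (1 / 2) * gk k)) ^ (3 * N)) := by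
  have hnt : Nontrivial U := Submodule.nontrivial_iff_ne_bot.2 hU.2.1
  have hN0 : 0 < N := by rw [← hN]; exact finrank_pos
  have hk0 : 0 < k := by linarith
  have hntH : Nontrivial (C.Hom U) := by
    refine ⟨⟨⟨U.subtypeL, C.subtypeL_mem_hom U⟩, 0, fun h1 => ?_⟩⟩
    exact Coc.subtypeL_ne_zero hU.2.1 (congrArg Subtype.val h1)
  have hh1 : 1 ≤ h := by rw [← hh]; exact finrank_pos (R := ℝ) (M := C.Hom U)
  obtain ⟨s, hs1, hs2, hs3⟩ := exists_net (H := C.Hom U) hh hh1 (ε := 1 / (4 * k)) (by positivity)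
    (by rw [div_le_one (by positivity)]; linarith)
  let Bd : C.Hom U → Finset (ι → Bool) := fun S => univ.filter fun v : ι → Bool =>
    ‖(LinearMap.range ((S : U →L[ℝ] EuclideanSpace ℝ ι) : U →ₗ[ℝ] EuclideanSpace ℝ ι)).starProjection
      (sv v)‖ ^ 2 ≤ (1 / 4) ^ 2 * (N / k)
  set κ := Real.exp ((1 / 4) ^ 2 / 2) * (Real.exp (1 / 2) * gk k) with hκ
  have hκ0 : 0 ≤ κ := mul_nonneg (Real.exp_pos _).le (mul_nonneg (Real.exp_pos _).le (gk_nonneg k))
  have hB : ∀ S ∈ s, ((Bd S).card : ℝ) ≤ 2 ^ Fintype.card ι * κ ^ N := by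
    intro S hS
    have hSn : ‖(S : U →L[ℝ] EuclideanSpace ℝ ι)‖ = 1 := hs1 S hS
    refine small_ball C (C.inv_range hU.1 S.2) ?_ hN0 hc (by norm_num)
    rw [← hN]
    apply LinearMap.finrank_range_of_inj
    intro x y hxy
    have h1 : ‖(S : U →L[ℝ] EuclideanSpace ℝ ι) (x - y)‖ = 0 := by
      rw [map_sub]
      have : (S : U →L[ℝ] EuclideanSpace ℝ ι) x = (S : U →L[ℝ] EuclideanSpace ℝ ι) y := hxy
      rw [this, sub_self, norm_zero]
    rw [C.norm_hom hU S.2, hSn, one_mul, norm_eq_zero, sub_eq_zero] at h1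
    exact h1
  have hsub : (univ.filter fun v : Fin 3 → ι → Bool => ∃ T ∈ C.Hom U, T ≠ 0 ∧ ∀ j,
        SOrth (v j) (LinearMap.range (T : U →ₗ[ℝ] EuclideanSpace ℝ ι)))
      ⊆ s.biUnion fun S => Fintype.piFinset fun _ : Fin 3 => Bd S := by
    intro v hv
    obtain ⟨T, hT, hT0, hv⟩ := (mem_filter.1 hv).2
    have hTn : ‖T‖ ≠ 0 := fun h1 => hT0 (by
      ext1 x
      have h2 := C.norm_hom hU hT x
      rw [h1, zero_mul, norm_eq_zero] at h2
      exact h2)
    let T₁ : C.Hom U := ⟨‖T‖⁻¹ • T, (C.Hom U).smul_mem _ hT⟩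
    have hT₁ : ‖T₁‖ = 1 := by
      show ‖‖T‖⁻¹ • T‖ = 1
      obtain ⟨x, hx⟩ := exists_ne (0 : U)
      have hx0 : ‖x‖ ≠ 0 := norm_ne_zero_iff.2 hx
      have e1 := C.norm_hom hU T₁.2 x
      have e2 : ‖(T₁ : U →L[ℝ] EuclideanSpace ℝ ι) x‖ = ‖x‖ := by
        show ‖‖T‖⁻¹ • T x‖ = ‖x‖
        rw [norm_smul, norm_inv, Real.norm_eq_abs, abs_of_nonneg T.opNorm_nonneg,
          C.norm_hom hU hT, ← mul_assoc, inv_mul_cancel₀ hTn, one_mul]
      rw [e2] at e1
      have e3 : ‖(T₁ : U →L[ℝ] EuclideanSpace ℝ ι)‖ * ‖x‖ = 1 * ‖x‖ := by rw [one_mul]; exact e1.symm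
      exact mul_right_cancel₀ hx0 e3
    obtain ⟨S, hS, hST⟩ := hs2 T₁ hT₁
    rw [mem_biUnion]
    refine ⟨S, hS, ?_⟩
    rw [Fintype.mem_piFinset]
    intro j
    rw [mem_filter]
    refine ⟨mem_univ _, ?_⟩
    have h1 := norm_proj_le C hU S.2 (hs1 S hS) (T := ‖T‖⁻¹ • T) (ε := 1 / (4 * k)) hST (sv (v j))
      (fun x => by
        apply hv j
        exact ⟨‖T‖⁻¹ • x, by simp⟩)
    have h2 := pow_le_pow_left₀ (norm_nonneg _) h1 2
    refine h2.trans (le_of_eq ?_)
    rw [mul_pow, norm_sv_sq, hc]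
    field_simp
  have hcardle : ((univ.filter fun v : Fin 3 → ι → Bool => ∃ T ∈ C.Hom U, T ≠ 0 ∧ ∀ j,
        SOrth (v j) (LinearMap.range (T : U →ₗ[ℝ] EuclideanSpace ℝ ι))).card : ℝ)
      ≤ ∑ S ∈ s, ((Bd S).card : ℝ) ^ 3 := by
    have h1 := (card_le_card hsub).trans card_biUnion_le
    have h2 : ∀ S : C.Hom U, (Fintype.piFinset fun _ : Fin 3 => Bd S).card = (Bd S).card ^ 3 := by
      intro S
      rw [Fintype.card_piFinset, prod_const, card_univ, Fintype.card_fin]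
    simp_rw [h2] at h1
    exact_mod_cast h1
  refine hcardle.trans ?_
  calc ∑ S ∈ s, ((Bd S).card : ℝ) ^ 3 ≤ ∑ _S ∈ s, (2 ^ Fintype.card ι * κ ^ N) ^ 3 :=
        sum_le_sum fun S hS => pow_le_pow_left₀ (Nat.cast_nonneg _) (hB S hS) 3
    _ = s.card * (2 ^ Fintype.card ι * κ ^ N) ^ 3 := by rw [sum_const, nsmul_eq_mul]
    _ ≤ (2 * h * (1 + 2 / (1 / (4 * k))) ^ (h - 1)) * (2 ^ Fintype.card ι * κ ^ N) ^ 3 := by
        gcongr
    _ = _ := by
        have h1 : 2 / (1 / (4 * k)) = 8 * k := by field_simp; ring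
        have h2 : κ ^ (3 * N) = (κ ^ N) ^ 3 := by rw [← pow_mul, mul_comm]
        rw [h1, mul_pow, h2]
        ring

end Pool.MP43e44c
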