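import Pool.Agent.H.MP_43e44c_ag.SB.Grp3

/-!
Half systems with a relation and tuples of sign vectors.
-/

set_option autoImplicit false

open Finset Module

namespace Pool.MP43e44c

/-- The action of the stabiliser of a class on the class. -/
@[reducible] def clsAct {G P Q : Type*} [Group G] [MulAction G P] [MulAction G Q]
    {κ : P → Q} (hκ : ∀ (g : G) p, κ (g • p) = g • κ p) (q₀ : Q) :
    MulAction (MulAction.stabilizer G q₀) {p : P // κ p = q₀} where
  smul g p := ⟨(g : G) • (p : P), by rw [hκ, p.2]; exact g.2⟩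
  one_smul p := Subtype.ext (one_smul G (p : P))
  mul_smul g h p := Subtype.ext (mul_smul (g : G) (h : G) (p : P))

section Coc

variable {Γ ι G X : Type*} [Group Γ] [MulAction Γ ι] [Group G] [MulAction G X]

/-- The cocycle of signs of an action on pairs. -/
private noncomputable def grp2_coc (φ : Γ →* G) (r : ι → X) {c : X → X} (hcc : ∀ x, c (c x) = x)
    (hcg : ∀ (g : G) x, g • c x = c (g • x)) (hne : ∀ x, c x ≠ x)
    (hr : ∀ g i, φ g • r i = r (g • i) ∨ φ g • r i = c (r (g • i))) : Coc Γ ι where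
  ε g i := by
    classical
    exact if φ g • r i = r (g • i) then 1 else -1
  sq g i := by
    classical
    by_cases h : φ g • r i = r (g • i)
    · left; exact if_pos h
    · right; exact if_neg h
  mul g h i := by
    classical
    show (if φ (g * h) • r i = r ((g * h) • i) then (1 : ℝ) else -1)
      = (if φ g • r (h • i) = r (g • h • i) then (1 : ℝ) else -1)
        * (if φ h • r i = r (h • i) then (1 : ℝ) else -1)
    rw [map_mul, mul_smul, mul_smul]
    rcases hr h i with h1 | h1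
    · rw [h1, if_pos (rfl : r (h • i) = r (h • i)), mul_one]
    · rw [h1, if_neg (hne (r (h • i))), hcg]
      rcases hr g (h • i) with h2 | h2
      · rw [h2, if_neg (hne _), if_pos rfl, one_mul]
      · rw [h2, hcc, if_pos rfl, if_neg (hne _)]
        norm_num

private theorem grp2_coc_spec {φ : Γ →* G} {r : ι → X} {c : X → X} (hcc : ∀ x, c (c x) = x)
    (hcg : ∀ (g : G) x, g • c x = c (g • x)) (hne : ∀ x, c x ≠ x)
    (hr : ∀ g i, φ g • r i = r (g • i) ∨ φ g • r i = c (r (g • i))) {F : X → ℝ}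
    (hF : ∀ x, F (c x) = - F x) (g : Γ) (i : ι) :
    F (φ g • r i) = (grp2_coc φ r hcc hcg hne hr).ε g i * F (r (g • i)) := by
  classical
  show _ = (if φ g • r i = r (g • i) then (1 : ℝ) else -1) * _
  rcases hr g i with h1 | h1
  · rw [h1, if_pos rfl, one_mul]
  · rw [h1, if_neg (hne _), hF, neg_one_mul]

end Coc

/-- Sums of even functions supported on a class. -/
private theorem grp2_sum {X P Q : Type*} [Fintype X] [Fintype P] {c : X → X} {π : X → P}
    (hfib : ∀ x y, π x = π y ↔ y = x ∨ y = c x) (hne : ∀ x, c x ≠ x) {κ : P → Q} {q₀ : Q}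
    [Fintype {p : P // κ p = q₀}] {r : {p : P // κ p = q₀} → X} (hr : ∀ i, π (r i) = i.1)
    {F : X → ℤ} (hF : ∀ x, F (c x) = F x) (hF0 : ∀ x, κ (π x) ≠ q₀ → F x = 0) :
    ∑ x, F x = 2 * ∑ i, F (r i) := by
  classical
  rw [← sum_fiberwise (s := univ) (g := π) (f := F)]
  rw [← sum_subset (subset_univ (univ.filter fun p => κ p = q₀))]
  · rw [sum_subtype (univ.filter fun p => κ p = q₀) (p := fun p => κ p = q₀) (by simp), mul_sum]
    refine sum_congr rfl fun i _ => ?_
    have h3 : (univ.filter fun y => π y = i.1) = {r i, c (r i)} := by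
      ext y
      simp only [mem_filter, mem_univ, true_and, mem_insert, mem_singleton]
      rw [← hr i, eq_comm, hfib]
    rw [h3, sum_pair (Ne.symm (hne _)), hF]
    ring
  · intro p _ hp
    refine sum_eq_zero fun x hx => hF0 x ?_
    rw [(mem_filter.1 hx).2]
    simpa using hp

variable {G X P Q : Type*} [Group G] [Finite G] [MulAction G X] [Fintype X]
  [MulAction G P] [Fintype P] [MulAction G Q] [Fintype Q]

open Classical in
/-- The passage from half systems to tuples of sign vectors. -/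
theorem bad_count_gen [MulAction.IsPretransitive G X] {c : X → X} (hcc : ∀ x, c (c x) = x)
    (hne : ∀ x, c x ≠ x)
    (hcg : ∀ (g : G) x, g • c x = c (g • x)) {π : X → P}
    (hπ : ∀ (g : G) x, π (g • x) = g • π x) (hfib : ∀ x y, π x = π y ↔ y = x ∨ y = c x)
    (hsurj : Function.Surjective π) {κ : P → Q}
    (hκ : ∀ (g : G) p, κ (g • p) = g • κ p) (hκs : Function.Surjective κ)
    (hproj : ∀ Φ : Finset X, (∀ x, x ∈ Φ ↔ c x ∉ Φ) → ∀ f ∈ lat G c Φ, ∀ q,
      ∃ f' ∈ lat G c Φ, ∀ x, (κ (π x) = q → f' x = f x) ∧ (κ (π x) ≠ q → f' x = 0))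
    {b : ℕ} (hP : Fintype.card P = b * Fintype.card Q) {r : ℕ} (hr : 0 < r)
    (hQ : r ≤ Fintype.card Q) (q₀ : Q) :
    letI := clsAct (G := G) hκ q₀
    MulAction.IsPretransitive (MulAction.stabilizer G q₀) {p : P // κ p = q₀} ∧
    Fintype.card {p : P // κ p = q₀} = b ∧
    ∃ (C : Coc (MulAction.stabilizer G q₀) {p : P // κ p = q₀}) (rr : {p : P // κ p = q₀} → X),
      (∀ i, π (rr i) = i.1) ∧
      (∀ F : X → ℝ, (∀ x, F (c x) = - F x) → ∀ (g : MulAction.stabilizer G q₀) i,
        F ((g : G) • rr i) = C.ε g i * F (rr (g • i))) ∧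
      {Φ : Finset X | (∀ x, x ∈ Φ ↔ c x ∉ Φ) ∧ ∃ f ∈ lat G c Φ, f ≠ 0}.ncard * 2 ^ (r * b)
        ≤ (univ.filter fun v : Fin r → {p : P // κ p = q₀} → Bool =>
            ∃ U : Submodule ℝ (EuclideanSpace ℝ {p : P // κ p = q₀}),
              C.Inv U ∧ U ≠ ⊥ ∧ ∀ j, SOrth (v j) U).card * 2 ^ Fintype.card P := by
  classical
  let act0 := clsAct (G := G) hκ q₀
  change MulAction.IsPretransitive (MulAction.stabilizer G q₀) {p : P // κ p = q₀} ∧
    Fintype.card {p : P // κ p = q₀} = b ∧ _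
  -- the classes
  obtain ⟨e⟩ : Nonempty (Fin r ↪ Q) := Function.Embedding.nonempty_of_card_le (by simpa using hQ)
  obtain ⟨p₀, hp₀⟩ := hκs q₀
  obtain ⟨x₀, hx₀⟩ := hsurj p₀
  subst hx₀
  have htrans : ∀ q, ∃ g : G, g • q₀ = q := by
    intro q
    obtain ⟨p, rfl⟩ := hκs q
    obtain ⟨x, rfl⟩ := hsurj p
    obtain ⟨g, rfl⟩ := MulAction.exists_smul_eq G x₀ x
    exact ⟨g, by rw [hπ, hκ, hp₀]⟩
  choose gg hgg using fun j : Fin r => htrans (e j)
  -- the group and the set
  let Γ := MulAction.stabilizer G q₀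
  let fΓ : Fintype Γ := Fintype.ofFinite Γ
  let ι := {p : P // κ p = q₀}
  let actι : MulAction Γ ι := clsAct hκ q₀
  have hsmul : ∀ (g : Γ) (i : ι), ((g • i : ι) : P) = (g : G) • (i : P) := fun _ _ => rfl
  let ρ : ι → X := fun i => Function.surjInv hsurj i.1
  have hρ : ∀ i, π (ρ i) = i.1 := fun i => Function.surjInv_eq hsurj _
  have hgr : ∀ (g : Γ) (i : ι), Γ.subtype g • ρ i = ρ (g • i) ∨ Γ.subtype g • ρ i = c (ρ (g • i)) := by
    intro g i
    refine (hfib _ _).1 ?_
    rw [hρ, hπ, hρ]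
    rfl
  have hpre : MulAction.IsPretransitive Γ ι := by
    refine ⟨fun i j => ?_⟩
    obtain ⟨g, hg⟩ := MulAction.exists_smul_eq G (ρ i) (ρ j)
    have h1 : g • i.1 = j.1 := by rw [← hρ i, ← hρ j, ← hg, hπ]
    have h2 : g • q₀ = q₀ := by
      have h3 := hκ g i.1
      rw [h1, i.2, j.2] at h3
      exact h3.symm
    exact ⟨⟨g, h2⟩, Subtype.ext h1⟩
  have hι : Nonempty ι := ⟨⟨π x₀, hp₀⟩⟩
  -- the number of elements of a class
  have hcardι : Fintype.card ι = b := by
    have h1 : ∀ q, (univ.filter fun p => κ p = q).card = Fintype.card ι := by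
      intro q
      obtain ⟨g, rfl⟩ := htrans q
      rw [← Fintype.card_subtype]
      refine (Fintype.card_congr ?_).symm
      refine ⟨fun p => ⟨g • p.1, by rw [hκ, p.2]⟩, fun p => ⟨g⁻¹ • p.1, by
        rw [hκ, p.2, inv_smul_smul]⟩, fun p => Subtype.ext (inv_smul_smul _ _),
        fun p => Subtype.ext (smul_inv_smul _ _)⟩
    have h2 : Fintype.card P = Fintype.card Q * Fintype.card ι := by
      rw [← card_univ, card_eq_sum_card_fiberwise (f := κ) (t := univ)
        (fun _ _ => mem_coe.2 (mem_univ _)), sum_congr rfl fun q _ => h1 q, sum_const,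
        card_univ, smul_eq_mul]
    rw [hP, mul_comm] at h2
    exact (Nat.eq_of_mul_eq_mul_left (by omega) h2).symm
  let C : Coc Γ ι := grp2_coc Γ.subtype ρ hcc hcg hne hgr
  refine ⟨hpre, hcardι, C, ρ, hρ, fun F hF g i => grp2_coc_spec hcc hcg hne hgr hF g i, ?_⟩
  set bad : Set (Finset X) := {Φ | (∀ x, x ∈ Φ ↔ c x ∉ Φ) ∧ ∃ f ∈ lat G c Φ, f ≠ 0} with hbad
  -- the patterns
  let s : Fin r × ι → X := fun ji => gg ji.1 • ρ ji.2
  have hs : Function.Injective fun ji => π (s ji) := by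
    rintro ⟨j, i⟩ ⟨j', i'⟩ h
    simp only [s, hπ, hρ] at h
    have h1 := congrArg κ h
    rw [hκ, hκ, i.2, i'.2, hgg, hgg] at h1
    have h2 : j = j' := e.injective h1
    subst h2
    have h3 : i.1 = i'.1 := smul_left_cancel _ h
    rw [Subtype.ext h3]
  let core : Finset (Fin r → ι → Bool) := univ.filter fun v => ∃ U : Submodule ℝ (EuclideanSpace ℝ ι),
    C.Inv U ∧ U ≠ ⊥ ∧ ∀ j, SOrth (v j) U
  let B : Set (Fin r × ι → Bool) := {w | (fun j i => w (j, i)) ∈ core}
  have hBcard : B.ncard ≤ core.card := by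
    rw [← Set.ncard_coe_finset]
    refine Set.ncard_le_ncard_of_injOn (fun w j i => w (j, i)) (fun w hw => hw) ?_ (Set.toFinite _)
    intro w _ w' _ h
    funext ji
    exact congrFun (congrFun h ji.1) ji.2
  have hsub : bad ⊆ {Φ : Finset X | (∀ x, x ∈ Φ ↔ c x ∉ Φ) ∧
      ∃ v ∈ B, ∀ j, v j = true ↔ s j ∈ Φ} := by
    rintro Φ ⟨hΦ, f, hf, hf0⟩
    refine ⟨hΦ, fun ji => decide (s ji ∈ Φ), ?_, fun ji => by simp⟩
    obtain ⟨x₁, hx₁⟩ : ∃ x₁, f x₁ ≠ 0 := by
      by_contra hcon
      push Not at hcon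
      exact hf0 (funext hcon)
    obtain ⟨f₁, hf₁, hf₁s⟩ := hproj Φ hΦ f hf (κ (π x₁))
    obtain ⟨g, hg⟩ := MulAction.exists_smul_eq G x₀ x₁
    have hf₂ := lat_smul hcg g hf₁
    set f₂ : X → ℤ := fun x => f₁ (g • x) with hf₂def
    have hf₂x : f₂ x₀ ≠ 0 := by
      show f₁ (g • x₀) ≠ 0
      rw [hg, (hf₁s x₁).1 rfl]
      exact hx₁
    have hf₂s : ∀ x, κ (π x) ≠ q₀ → f₂ x = 0 := by
      intro x hx
      refine (hf₁s (g • x)).2 fun h => hx ?_
      rw [← hg, hπ, hπ, hκ, hκ, hp₀] at h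
      exact smul_left_cancel _ h
    obtain ⟨hf₂c, hf₂o⟩ := hf₂
    let xv : EuclideanSpace ℝ ι := WithLp.toLp 2 fun i => (f₂ (ρ i) : ℝ)
    have hxv : ∀ i, xv i = (f₂ (ρ i) : ℝ) := fun _ => rfl
    have hxv0 : xv ≠ 0 := by
      intro h
      have h1 : xv ⟨π x₀, hp₀⟩ = 0 := by rw [h]; rfl
      rw [hxv, Int.cast_eq_zero] at h1
      apply hf₂x
      rcases (hfib _ _).1 (hρ ⟨π x₀, hp₀⟩) with h2 | h2
      · rw [h2, h1]
      · rw [h2, hf₂c, h1, neg_zero]
    show (fun j i => decide (s (j, i) ∈ Φ)) ∈ core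
    refine mem_filter.2 ⟨mem_univ _, Submodule.span ℝ (Set.range fun h : Γ => C.act h xv), ?_, ?_, ?_⟩
    · intro h x hx
      have h1 : Submodule.span ℝ (Set.range fun h : Γ => C.act h xv) ≤
          (Submodule.span ℝ (Set.range fun h : Γ => C.act h xv)).comap (C.act h) := by
        rw [Submodule.span_le]
        rintro _ ⟨h', rfl⟩
        refine Submodule.subset_span ⟨h * h', ?_⟩
        exact C.act_mul h h' xv
      exact h1 hx
    · intro h
      apply hxv0
      have h1 : xv ∈ Submodule.span ℝ (Set.range fun h : Γ => C.act h xv) :=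
        Submodule.subset_span ⟨1, C.act_one xv⟩
      rw [h] at h1
      exact (Submodule.mem_bot ℝ).1 h1
    · intro j x hx
      have key : ∀ h : Γ, inner ℝ (sv fun i => decide (s (j, i) ∈ Φ)) (C.act h xv) = (0 : ℝ) := by
        intro h
        have h1 := hf₂o (gg j * (h : G))
        have h2 := grp2_sum (F := fun x => f₂ x * sg Φ ((gg j * (h : G)) • x)) hfib hne (κ := κ)
          (q₀ := q₀) (r := ρ) hρ (fun x => by
            show f₂ (c x) * sg Φ ((gg j * (h : G)) • c x) = _
            rw [hcg, sg_conj hΦ, hf₂c, neg_mul_neg]) (fun x hx => by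
            show f₂ x * _ = 0
            rw [hf₂s x hx, zero_mul])
        rw [h1] at h2
        have h3 : ∑ i : ι, f₂ (ρ i) * sg Φ ((gg j * (h : G)) • ρ i) = 0 := by
          rcases mul_eq_zero.1 h2.symm with h4 | h4
          · norm_num at h4
          · exact h4
        have h4 : ∑ i : ι, (f₂ (ρ i) : ℝ) * (sg Φ ((gg j * (h : G)) • ρ i) : ℝ) = 0 := by
          exact_mod_cast h3
        rw [PiLp.inner_apply, ← h4]
        symm
        refine Fintype.sum_equiv (MulAction.toPerm h) _ _ fun i => ?_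
        rw [MulAction.toPerm_apply, C.act_apply_smul, hxv]
        have h5 := grp2_coc_spec (F := fun y => (sg Φ (gg j • y) : ℝ)) hcc hcg hne hgr (fun x => by
          show (sg Φ (gg j • c x) : ℝ) = _
          rw [hcg, sg_conj hΦ, Int.cast_neg]) h i
        have h6 : (sg Φ ((gg j * (h : G)) • ρ i) : ℝ)
            = C.ε h i * (sg Φ (gg j • ρ (h • i)) : ℝ) := by
          rw [mul_smul]
          exact h5
        have h7 : (sv fun i => decide (s (j, i) ∈ Φ)) (h • i) = (sg Φ (gg j • ρ (h • i)) : ℝ) := by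
          show (if decide (s (j, h • i) ∈ Φ) then (1 : ℝ) else -1) = _
          by_cases h8 : gg j • ρ (h • i) ∈ Φ
          · rw [sg_mem h8, if_pos (by simpa [s] using h8)]; norm_num
          · rw [sg_notMem h8, if_neg (by simpa [s] using h8)]; norm_num
        rw [h6, h7]
        simp only [RCLike.inner_apply, conj_trivial]
        ring
      have h1 : Submodule.span ℝ (Set.range fun h : Γ => C.act h xv) ≤
          LinearMap.ker (innerₛₗ ℝ (sv fun i => decide (s (j, i) ∈ Φ))) := by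
        rw [Submodule.span_le]
        rintro _ ⟨h, rfl⟩
        exact key h
      exact h1 hx
  have hpat := ncard_pattern_le hcc hfib hsurj s hs B
  rw [Fintype.card_prod, Fintype.card_fin, hcardι] at hpat
  exact le_trans (Nat.mul_le_mul_right _ (Set.ncard_le_ncard hsub (Set.toFinite _)))
    (le_trans hpat (Nat.mul_le_mul_right _ hBcard))

end Pool.MP43e44c
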