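import Pool.Agent.H.MP_43e44c_ag.Count2

/-!
Subgroups of the Galois group containing the stabiliser of an embedding, and subfields.
-/

set_option autoImplicit false

open NumberField Finset Module

namespace Pool.MP43e44c

variable {K : Type*} [Field K] [NumberField K] [IsCMField K]

omit [IsCMField K] in
theorem subf_stab (x₀ : K →+* ℂ) :
    MulAction.stabilizer (GG K) x₀ = (lft x₀).fieldRange.fixingSubgroup := by
  ext g
  rw [MulAction.mem_stabilizer_iff, IntermediateField.mem_fixingSubgroup_iff]
  constructor
  · rintro h _ ⟨y, rfl⟩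
    have h1 : lft (g • x₀) y = lft x₀ y := by rw [h]
    rw [lft_smul] at h1
    exact h1
  · intro h
    ext y
    rw [smul_apply, h (lft x₀ y) ⟨y, rfl⟩]
    rfl

omit [IsCMField K] in
theorem subf_map (x₀ : K →+* ℂ) {H : Subgroup (GG K)}
    (hH : MulAction.stabilizer (GG K) x₀ ≤ H) :
    ((IntermediateField.fixedField H).comap (lft x₀)).map (lft x₀) =
      IntermediateField.fixedField H := by
  have h1 : IntermediateField.fixedField H ≤ (lft x₀).fieldRange := by
    rw [subf_stab] at hH
    have h2 := IntermediateField.fixedField_antitone hH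
    rwa [IsGalois.fixedField_fixingSubgroup] at h2
  apply le_antisymm
  · rintro _ ⟨y, hy, rfl⟩
    exact hy
  · intro z hz
    obtain ⟨y, hy⟩ := h1 hz
    refine ⟨y, ?_, hy⟩
    change lft x₀ y ∈ IntermediateField.fixedField H
    have h3 : lft x₀ y = z := hy
    rw [h3]
    exact hz

omit [IsCMField K] in
theorem subf_finrank (x₀ : K →+* ℂ) {H : Subgroup (GG K)}
    (hH : MulAction.stabilizer (GG K) x₀ ≤ H) :
    finrank ℚ ((IntermediateField.fixedField H).comap (lft x₀)) = H.index := by
  have h1 : finrank ℚ ((IntermediateField.fixedField H).comap (lft x₀)) =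
      finrank ℚ (((IntermediateField.fixedField H).comap (lft x₀)).map (lft x₀)) :=
    LinearEquiv.finrank_eq (((IntermediateField.fixedField H).comap (lft x₀)).equivMap
      (lft x₀)).toLinearEquiv
  rw [h1, subf_map x₀ hH]
  have h2 := finrank_mul_finrank ℚ (IntermediateField.fixedField H) (GC K)
  rw [IntermediateField.finrank_fixedField_eq_card, ← IsGalois.card_aut_eq_finrank ℚ (GC K),
    ← H.card_mul_index, mul_comm] at h2
  exact Nat.eq_of_mul_eq_mul_left Nat.card_pos h2

/-- Subgroups between the stabiliser of an embedding and the Galois group give subfields. -/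
theorem ncard_subgroups_le (x₀ : K →+* ℂ) (d : ℕ) :
    {H : Subgroup (GG K) | H.index = d ∧ MulAction.stabilizer (GG K) x₀ ≤ H ∧
        ∀ h ∈ H, h • x₀ ≠ ComplexEmbedding.conjugate x₀}.ncard
      ≤ {F : IntermediateField ℚ K | finrank ℚ F = d ∧
          ¬ ∀ x ∈ F, x ∈ maximalRealSubfield K}.ncard := by
  have hfin : Finite (IntermediateField ℚ K) :=
    Field.finite_intermediateField_of_exists_primitive_element ℚ K
      (Field.exists_primitive_element ℚ K)
  refine Set.ncard_le_ncard_of_injOn
    (fun H => (IntermediateField.fixedField H).comap (lft x₀)) ?_ ?_ (Set.toFinite _)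
  · rintro H ⟨h1, h2, h3⟩
    refine ⟨by rw [subf_finrank x₀ h2, h1], fun h4 => ?_⟩
    refine h3 (conjG K) ?_ (conjG_smul x₀)
    rw [← IntermediateField.fixingSubgroup_fixedField H, IntermediateField.mem_fixingSubgroup_iff]
    intro z hz
    rw [← subf_map x₀ h2] at hz
    obtain ⟨y, hy, rfl⟩ := hz
    have h5 := conj_real x₀ (h4 y hy)
    apply Subtype.ext
    change ((conjG K (lft x₀ y) : GC K) : ℂ) = ((lft x₀ y : GC K) : ℂ)
    rw [conjG_apply, coe_lft]
    rwa [ComplexEmbedding.conjugate_coe_eq] at h5
  · rintro H ⟨-, h2, -⟩ H' ⟨-, h2', -⟩ h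
    have h' : (IntermediateField.fixedField H).comap (lft x₀) =
        (IntermediateField.fixedField H').comap (lft x₀) := h
    have h3 := congrArg (fun F : IntermediateField ℚ K => F.map (lft x₀)) h'
    simp only [subf_map x₀ h2, subf_map x₀ h2'] at h3
    rw [← IntermediateField.fixingSubgroup_fixedField H, h3,
      IntermediateField.fixingSubgroup_fixedField]

end Pool.MP43e44c
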