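import Pool.Agent.H.MP_43e44c_ag.SB.Def

/-!
A large minor of a matrix with orthogonal rows.
-/

set_option autoImplicit false

open Finset Matrix

namespace Pool.MP43e44c

theorem det_sum_aux {ι : Type*} [Fintype ι] {N : ℕ} (A : Matrix (Fin N) ι ℝ)
    (σ : Equiv.Perm (Fin N)) :
    ∑ f : Fin N → ι, (∏ j, A (σ j) (f j)) * (A.submatrix id f).det
      = (Equiv.Perm.sign σ : ℤ) * (A * Aᵀ).det := by
  classical
  have hdet : ∀ f : Fin N → ι, (A.submatrix id f).det
      = Matrix.detRowAlternating (fun (j : Fin N) (i : Fin N) => A i (f j)) := by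
    intro f
    rw [← Matrix.det_transpose]
    rfl
  calc ∑ f : Fin N → ι, (∏ j, A (σ j) (f j)) * (A.submatrix id f).det
      = ∑ f : Fin N → ι, Matrix.detRowAlternating
          (fun (j : Fin N) => (A (σ j) (f j)) • (fun (i : Fin N) => A i (f j))) := by
        refine Finset.sum_congr rfl fun f _ => ?_
        rw [hdet f]
        exact ((Matrix.detRowAlternating (R := ℝ) (n := Fin N)).toMultilinearMap.map_smul_univ
          (fun j => A (σ j) (f j)) (fun (j : Fin N) (i : Fin N) => A i (f j))).symm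
    _ = Matrix.detRowAlternating
          (fun (j : Fin N) => ∑ c : ι, (A (σ j) c) • (fun (i : Fin N) => A i c)) := by
        exact ((Matrix.detRowAlternating (R := ℝ) (n := Fin N)).toMultilinearMap.map_sum
          (fun (j : Fin N) (c : ι) => (A (σ j) c) • (fun (i : Fin N) => A i c))).symm
    _ = ((A * Aᵀ).submatrix σ id).det := by
        change Matrix.det _ = Matrix.det _
        congr 1
        ext j i
        simp only [Finset.sum_apply, Pi.smul_apply, smul_eq_mul, submatrix_apply, id,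
          Matrix.mul_apply, Matrix.transpose_apply]
    _ = (Equiv.Perm.sign σ : ℤ) * (A * Aᵀ).det := by
        rw [Matrix.det_permute]

theorem sum_det_sq {ι : Type*} [Fintype ι] {N : ℕ} (A : Matrix (Fin N) ι ℝ) {k : ℝ}
    (hA : A * Aᵀ = k • (1 : Matrix (Fin N) (Fin N) ℝ)) :
    ∑ f : Fin N → ι, (A.submatrix id f).det ^ 2 = N.factorial * k ^ N := by
  classical
  have hd : (A * Aᵀ).det = k ^ N := by
    rw [hA, Matrix.det_smul, Matrix.det_one, mul_one, Fintype.card_fin]
  calc ∑ f : Fin N → ι, (A.submatrix id f).det ^ 2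
      = ∑ f : Fin N → ι, ∑ σ : Equiv.Perm (Fin N), ((Equiv.Perm.sign σ : ℤ) : ℝ) *
          ((∏ j, A (σ j) (f j)) * (A.submatrix id f).det) := by
        refine Finset.sum_congr rfl fun f _ => ?_
        rw [sq]
        nth_rewrite 1 [Matrix.det_apply']
        rw [Finset.sum_mul]
        refine Finset.sum_congr rfl fun σ _ => ?_
        simp only [submatrix_apply, id, mul_assoc]
    _ = ∑ σ : Equiv.Perm (Fin N), ((Equiv.Perm.sign σ : ℤ) : ℝ) *
          ∑ f : Fin N → ι, ((∏ j, A (σ j) (f j)) * (A.submatrix id f).det) := by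
        rw [Finset.sum_comm]
        refine Finset.sum_congr rfl fun σ _ => ?_
        rw [Finset.mul_sum]
    _ = ∑ σ : Equiv.Perm (Fin N), k ^ N := by
        refine Finset.sum_congr rfl fun σ _ => ?_
        rw [det_sum_aux, hd, ← mul_assoc]
        have h : ((Equiv.Perm.sign σ : ℤ) : ℝ) * ((Equiv.Perm.sign σ : ℤ) : ℝ) = 1 := by
          rw [← Int.cast_mul, ← Units.val_mul, Int.units_mul_self]
          simp
        rw [h, one_mul]
    _ = N.factorial * k ^ N := by
        rw [Finset.sum_const, Finset.card_univ, Fintype.card_perm, Fintype.card_fin, nsmul_eq_mul]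

theorem exists_big_det {ι : Type*} [Fintype ι] {N : ℕ} (A : Matrix (Fin N) ι ℝ) {k : ℝ}
    (hk : 0 < k) (hA : A * Aᵀ = k • (1 : Matrix (Fin N) (Fin N) ℝ))
    (hc : (Fintype.card ι : ℝ) = k * N) :
    ∃ f : Fin N → ι, Real.exp (-N) ≤ (A.submatrix id f).det ^ 2 := by
  classical
  by_contra! hcon
  have h1 := sum_det_sq A hA
  have hne : Nonempty (Fin N → ι) := by
    rcases Nat.eq_zero_or_pos N with h0 | h0
    · subst h0
      exact ⟨fun i => i.elim0⟩
    · have h2 : (0 : ℝ) < Fintype.card ι := by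
        rw [hc]
        exact mul_pos hk (by exact_mod_cast h0)
      have h3 : 0 < Fintype.card ι := by exact_mod_cast h2
      obtain ⟨i⟩ := Fintype.card_pos_iff.1 h3
      exact ⟨fun _ => i⟩
  have h2 : ∑ f : Fin N → ι, (A.submatrix id f).det ^ 2
      < ∑ _f : Fin N → ι, Real.exp (-N) :=
    Finset.sum_lt_sum_of_nonempty Finset.univ_nonempty fun f _ => hcon f
  rw [h1, Finset.sum_const, Finset.card_univ, Fintype.card_fun, Fintype.card_fin, nsmul_eq_mul,
    Nat.cast_pow, hc, mul_pow, Real.exp_neg] at h2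
  have h3 := Real.pow_div_factorial_le_exp (N : ℝ) (Nat.cast_nonneg N) N
  have h4 : (0 : ℝ) < N.factorial := by exact_mod_cast Nat.factorial_pos N
  have h5 : (0 : ℝ) < Real.exp N := Real.exp_pos _
  have h6 : (0 : ℝ) < k ^ N := pow_pos hk N
  rw [div_le_iff₀ h4] at h3
  rw [← div_eq_mul_inv, lt_div_iff₀ h5] at h2
  have h7 : k ^ N * (N : ℝ) ^ N ≤ k ^ N * (Real.exp N * N.factorial) :=
    mul_le_mul_of_nonneg_left h3 h6.le
  have h8 : k ^ N * (Real.exp N * N.factorial) = N.factorial * k ^ N * Real.exp N := by ring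
  rw [h8] at h7
  exact absurd h2 (not_lt.2 h7)

end Pool.MP43e44c
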