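import Pool.Agent.H.MP_43e44c_ag.SB.Def

/-!
The Fourier transform of the Gaussian and averages over signs.
-/

set_option autoImplicit false

open Finset MeasureTheory

namespace Pool.MP43e44c

/-- one-dimensional formula -/
theorem fou_one (S : ℝ) : ∫ t : ℝ, Complex.exp (-(1 / 2 : ℂ) * (t : ℂ) ^ 2 +
    (Complex.I * S) * t + 0) = (Real.sqrt (2 * Real.pi) : ℂ) * Complex.exp (-(S : ℂ) ^ 2 / 2) := by
  rw [integral_cexp_quadratic (by norm_num)]
  have h1 : ((Real.pi : ℂ) / -(-(1 / 2 : ℂ))) ^ (1 / 2 : ℂ) = (Real.sqrt (2 * Real.pi) : ℂ) := by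
    rw [Real.sqrt_eq_rpow, Complex.ofReal_cpow (by positivity)]
    congr 1
    · push_cast; ring
    · push_cast; ring
  rw [h1]
  congr 2
  rw [mul_pow, Complex.I_sq]
  ring

theorem fou_int (S : ℝ) : Integrable (fun t : ℝ => Complex.exp (-(1 / 2 : ℂ) * (t : ℂ) ^ 2 +
    (Complex.I * S) * t + 0)) :=
  integrable_cexp_quadratic (by norm_num) _ _

/-- sum over signs -/
theorem fou_signs {ι : Type*} [Fintype ι] [DecidableEq ι] (x : ι → ℝ) :
    ∑ v : ι → Bool, ∏ i, Complex.exp (Complex.I * ((sv v i : ℝ) : ℂ) * (x i : ℂ)) =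
      2 ^ Fintype.card ι * ∏ i, (Real.cos (x i) : ℂ) := by
  have h := (Finset.prod_univ_sum (fun _ : ι => (Finset.univ : Finset Bool))
    (fun (i : ι) (b : Bool) => Complex.exp (Complex.I * (((if b then 1 else -1 : ℝ)) : ℂ) *
      (x i : ℂ)))).symm
  rw [Fintype.piFinset_univ] at h
  have h2 : ∑ v : ι → Bool, ∏ i, Complex.exp (Complex.I * ((sv v i : ℝ) : ℂ) * (x i : ℂ)) =
      ∑ v : ι → Bool, ∏ i, Complex.exp (Complex.I * (((if v i then 1 else -1 : ℝ)) : ℂ) *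
        (x i : ℂ)) := rfl
  rw [h2, h]
  have h3 : ∀ i : ι, ∑ b : Bool, Complex.exp (Complex.I * (((if b then 1 else -1 : ℝ)) : ℂ) *
      (x i : ℂ)) = 2 * (Real.cos (x i) : ℂ) := by
    intro i
    rw [Fintype.sum_bool]
    simp only [if_true, Bool.false_eq_true, if_false]
    rw [Complex.ofReal_cos, Complex.cos]
    have e1 : Complex.I * (((1 : ℝ)) : ℂ) * (x i : ℂ) = (x i : ℂ) * Complex.I := by
      push_cast; ring
    have e2 : Complex.I * (((-1 : ℝ)) : ℂ) * (x i : ℂ) = -(x i : ℂ) * Complex.I := by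
      push_cast; ring
    rw [e1, e2]
    ring
  rw [Finset.prod_congr rfl (fun i _ => h3 i), Finset.prod_mul_distrib, Finset.prod_const,
    Finset.card_univ]

theorem sum_exp_eq {ι : Type*} [Fintype ι] [DecidableEq ι] {N : ℕ} (A : Matrix (Fin N) ι ℝ) :
    ∑ v : ι → Bool, Real.exp (-(∑ l, (∑ i, A l i * sv v i) ^ 2) / 2)
      = 2 ^ Fintype.card ι * ((Real.sqrt (2 * Real.pi))⁻¹ ^ N *
        ∫ θ : Fin N → ℝ, Real.exp (-(∑ l, θ l ^ 2) / 2) * ∏ i, Real.cos (∑ l, θ l * A l i)) := by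
  -- the complex integrand for `v`
  set F : (ι → Bool) → (Fin N → ℝ) → ℂ := fun v θ => ∏ l, Complex.exp (-(1 / 2 : ℂ) *
    (θ l : ℂ) ^ 2 + (Complex.I * ((∑ i, A l i * sv v i : ℝ) : ℂ)) * (θ l : ℂ) + 0) with hF
  have hint : ∀ v, Integrable (F v) := by
    intro v
    exact Integrable.fintype_prod (f := fun l (t : ℝ) => Complex.exp (-(1 / 2 : ℂ) *
      (t : ℂ) ^ 2 + (Complex.I * ((∑ i, A l i * sv v i : ℝ) : ℂ)) * (t : ℂ) + 0))
      (fun l => fou_int _)
  have hval : ∀ v, ∫ θ, F v θ = (Real.sqrt (2 * Real.pi) : ℂ) ^ N *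
      ((Real.exp (-(∑ l, (∑ i, A l i * sv v i) ^ 2) / 2) : ℝ) : ℂ) := by
    intro v
    rw [hF]
    rw [integral_fintype_prod_volume_eq_prod (fun l (t : ℝ) => Complex.exp (-(1 / 2 : ℂ) *
      (t : ℂ) ^ 2 + (Complex.I * ((∑ i, A l i * sv v i : ℝ) : ℂ)) * (t : ℂ) + 0))]
    rw [Finset.prod_congr rfl (fun l _ => fou_one _), Finset.prod_mul_distrib,
      Finset.prod_const, Finset.card_univ, Fintype.card_fin, ← Complex.exp_sum]
    congr 1
    rw [Complex.ofReal_exp]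
    congr 1
    push_cast
    rw [← Finset.sum_div, Finset.sum_neg_distrib]
  have hsum : ∀ θ : Fin N → ℝ, ∑ v, F v θ = ((2 ^ Fintype.card ι *
      (Real.exp (-(∑ l, θ l ^ 2) / 2) * ∏ i, Real.cos (∑ l, θ l * A l i)) : ℝ) : ℂ) := by
    intro θ
    have e1 : ∀ v, F v θ = Complex.exp (-(∑ l, (θ l : ℂ) ^ 2) / 2) *
        ∏ i, Complex.exp (Complex.I * ((sv v i : ℝ) : ℂ) * ((∑ l, θ l * A l i : ℝ) : ℂ)) := by
      intro v
      rw [hF]
      simp only []
      rw [← Complex.exp_sum, ← Complex.exp_sum, ← Complex.exp_add]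
      congr 1
      rw [Finset.sum_add_distrib, Finset.sum_add_distrib, Finset.sum_const_zero, add_zero]
      congr 1
      · rw [← Finset.mul_sum]; ring
      · push_cast
        rw [Finset.sum_congr rfl (g := fun l => ∑ i, Complex.I * ((A l i : ℂ) *
          ((sv v i : ℝ) : ℂ)) * (θ l : ℂ)) (fun l _ => by rw [Finset.mul_sum, Finset.sum_mul])]
        rw [Finset.sum_comm]
        refine Finset.sum_congr rfl fun i _ => ?_
        rw [Finset.mul_sum]
        refine Finset.sum_congr rfl fun l _ => ?_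
        ring
    rw [Finset.sum_congr rfl (fun v _ => e1 v), ← Finset.mul_sum, fou_signs]
    push_cast
    ring
  have key : (((∑ v : ι → Bool, Real.exp (-(∑ l, (∑ i, A l i * sv v i) ^ 2) / 2)) : ℝ) : ℂ) *
      (Real.sqrt (2 * Real.pi) : ℂ) ^ N = ((2 ^ Fintype.card ι *
      ∫ θ : Fin N → ℝ, Real.exp (-(∑ l, θ l ^ 2) / 2) * ∏ i, Real.cos (∑ l, θ l * A l i) : ℝ)
        : ℂ) := by
    have h1 : ∫ θ, ∑ v, F v θ = ∑ v, ∫ θ, F v θ := integral_finset_sum _ (fun v _ => hint v)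
    rw [Finset.sum_congr rfl (fun v _ => hval v), ← Finset.mul_sum] at h1
    rw [integral_congr_ae (Filter.Eventually.of_forall hsum)] at h1
    rw [integral_complex_ofReal, integral_const_mul] at h1
    rw [h1]
    push_cast
    ring
  have key' : (∑ v : ι → Bool, Real.exp (-(∑ l, (∑ i, A l i * sv v i) ^ 2) / 2)) *
      (Real.sqrt (2 * Real.pi)) ^ N = 2 ^ Fintype.card ι *
      ∫ θ : Fin N → ℝ, Real.exp (-(∑ l, θ l ^ 2) / 2) * ∏ i, Real.cos (∑ l, θ l * A l i) := by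
    exact_mod_cast key
  have hpos : (Real.sqrt (2 * Real.pi)) ^ N ≠ 0 := by positivity
  rw [inv_pow]
  have h5 := (eq_div_iff hpos).mpr key'
  rw [h5]
  ring

end Pool.MP43e44c
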