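import Pool.Agent.H.MP_43e44c_ag.SB.Def

/-!
Hölder's inequality over the translates of a basis.
-/

set_option autoImplicit false

open Finset MeasureTheory Matrix
open scoped ENNReal

namespace Pool.MP43e44c

/-- Fubini for products of functions of one variable, Lebesgue integrals. -/
theorem lintegral_prod_pow {N : ℕ} {φ : ℝ → ℝ≥0∞} (hφ : Measurable φ) :
    ∫⁻ x : Fin N → ℝ, ∏ j, φ (x j) = (∫⁻ t, φ t) ^ N := by
  induction N with
  | zero => simp [volume_pi]
  | succ n ih =>
    rw [← ((volume_preserving_piFinSuccAbove (fun _ : Fin (n + 1) => ℝ) 0).symm).lintegral_comp_emb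
      (MeasurableEquiv.measurableEmbedding _)]
    have h1 : ∀ y : ℝ × (Fin n → ℝ), ∏ j, φ ((MeasurableEquiv.piFinSuccAbove (fun _ : Fin (n + 1) => ℝ) 0).symm y j)
        = φ y.1 * ∏ j, φ (y.2 j) := by
      intro y
      rw [Fin.prod_univ_succ]
      rfl
    simp_rw [h1]
    rw [Measure.volume_eq_prod, lintegral_prod_mul (f := φ) (g := fun y : Fin n → ℝ => ∏ j, φ (y j)) hφ.aemeasurable, ih, pow_succ, mul_comm]
    exact (Finset.measurable_prod _ fun j _ => hφ.comp (measurable_pi_apply j)).aemeasurable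

/-- Linear change of variables. -/
theorem lintegral_prod_comp {N : ℕ} (M : Matrix (Fin N) (Fin N) ℝ) (hM : M.det ≠ 0)
    {φ : ℝ → ℝ≥0∞} (hφ : Measurable φ) :
    ∫⁻ θ : Fin N → ℝ, ∏ j, φ (∑ l, θ l * M l j)
      = ENNReal.ofReal |M.det|⁻¹ * (∫⁻ t, φ t) ^ N := by
  have hM' : Mᵀ.det ≠ 0 := by rwa [Matrix.det_transpose]
  have h1 := Real.map_matrix_volume_pi_eq_smul_volume_pi hM'
  have hmeas : Measurable (toLin' Mᵀ) :=
    (toLin' Mᵀ).continuous_of_finiteDimensional.measurable
  have hm2 : Measurable fun x : Fin N → ℝ => ∏ j, φ (x j) :=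
    Finset.measurable_prod _ fun j _ => hφ.comp (measurable_pi_apply j)
  have h2 := lintegral_map (μ := volume) hm2 hmeas
  rw [h1, lintegral_smul_measure, lintegral_prod_pow hφ, Matrix.det_transpose, abs_inv, smul_eq_mul] at h2
  rw [h2]
  refine lintegral_congr fun θ => ?_
  refine Finset.prod_congr rfl fun j _ => ?_
  congr 1
  rw [toLin'_apply, Matrix.mulVec, dotProduct]
  exact Finset.sum_congr rfl fun l _ => by rw [transpose_apply, mul_comm]

/-- The number of group elements with a given effect on a point. -/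
theorem card_smul_eq_mul {Γ ι : Type*} [Group Γ] [Fintype Γ] [MulAction Γ ι] [Fintype ι] [DecidableEq ι]
    [MulAction.IsPretransitive Γ ι] (x y : ι) :
    (univ.filter fun g : Γ => g • x = y).card * Fintype.card ι = Fintype.card Γ := by
  have key : ∀ y y' : ι, (univ.filter fun g : Γ => g • x = y).card
      ≤ (univ.filter fun g : Γ => g • x = y').card := by
    intro y y'
    obtain ⟨h, hh⟩ := MulAction.exists_smul_eq Γ y y'
    refine Finset.card_le_card_of_injOn (fun g => h * g) ?_ ?_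
    · intro g hg
      rw [mem_coe, mem_filter] at hg ⊢
      exact ⟨mem_univ _, by rw [mul_smul, hg.2, hh]⟩
    · intro g _ g' _ h2
      exact mul_left_cancel h2
  have h1 : Fintype.card Γ = ∑ z : ι, (univ.filter fun g : Γ => g • x = z).card := by
    rw [← card_univ, Finset.card_eq_sum_card_fiberwise (f := fun g : Γ => g • x) (t := univ)]
    exact fun _ _ => mem_coe.2 (mem_univ _)
  rw [h1, Finset.sum_congr rfl fun z _ => le_antisymm (key z y) (key y z), sum_const, card_univ,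
    smul_eq_mul, mul_comm]

/-- Products over the group. -/
theorem prod_orbit {Γ ι : Type*} [Group Γ] [Fintype Γ] [MulAction Γ ι] [Fintype ι]
    [MulAction.IsPretransitive Γ ι] {m : ℕ} (hm : m * Fintype.card ι = Fintype.card Γ) (x : ι)
    (F : ι → ℝ≥0∞) : ∏ g : Γ, F (g • x) = (∏ i, F i) ^ m := by
  classical
  have h1 : ∏ g : Γ, F (g • x) = ∏ z : ι, ∏ g ∈ univ.filter (fun g : Γ => g • x = z), F (g • x) :=
    (Finset.prod_fiberwise_of_maps_to (fun _ _ => mem_univ _) _).symm
  rw [h1, ← Finset.prod_pow]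
  refine Finset.prod_congr rfl fun z _ => ?_
  have h2 : (univ.filter fun g : Γ => g • x = z).card = m := by
    have h3 := card_smul_eq_mul (Γ := Γ) x z
    have h4 : 0 < Fintype.card ι := Fintype.card_pos_iff.2 ⟨x⟩
    rw [← hm] at h3
    exact Nat.eq_of_mul_eq_mul_right h4 h3
  rw [← h2, ← Finset.prod_const]
  exact Finset.prod_congr rfl fun g hg => by rw [(mem_filter.1 hg).2]

/-- Hölder over the translates of a basis. -/
theorem holder_orbit {Γ ι : Type*} [Group Γ] [Fintype Γ] [MulAction Γ ι] [Fintype ι]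
    [MulAction.IsPretransitive Γ ι] {N : ℕ} (hN : 0 < N) (A : Matrix (Fin N) ι ℝ) {k : ℝ}
    (hk : 0 < k) (hc : (Fintype.card ι : ℝ) = k * N) (f : Fin N → ι)
    (hf : (A.submatrix id f).det ≠ 0)
    (hdet : ∀ g : Γ, |(A.submatrix id fun j => g • f j).det| = |(A.submatrix id f).det|)
    {φ : ℝ → ℝ≥0∞} (hφ : Measurable φ) :
    ∫⁻ θ : Fin N → ℝ, ∏ i, φ (∑ l, θ l * A l i)
      ≤ ENNReal.ofReal |(A.submatrix id f).det|⁻¹ * (∫⁻ t, φ t ^ k) ^ N := by
  classical
  set n := Fintype.card Γ with hn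
  have hn0 : 0 < n := Fintype.card_pos
  have hnR : (0 : ℝ) < n := by exact_mod_cast hn0
  have x₀ : ι := f ⟨0, hN⟩
  obtain ⟨m, hm⟩ : ∃ m, m * Fintype.card ι = Fintype.card Γ := ⟨_, card_smul_eq_mul x₀ x₀⟩
  let G : Γ → (Fin N → ℝ) → ℝ≥0∞ := fun g θ => ∏ j, φ (∑ l, θ l * A l (g • f j)) ^ k
  have hφk : Measurable fun t => φ t ^ k := hφ.pow_const k
  have hGint : ∀ g : Γ, ∫⁻ θ, G g θ
      = ENNReal.ofReal |(A.submatrix id f).det|⁻¹ * (∫⁻ t, φ t ^ k) ^ N := by
    intro g
    rw [← hdet g]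
    have h1 : (A.submatrix id fun j => g • f j).det ≠ 0 := by
      rw [← abs_ne_zero, hdet g, abs_ne_zero]
      exact hf
    exact lintegral_prod_comp (A.submatrix id fun j => g • f j) h1 hφk
  have hpt : ∀ θ : Fin N → ℝ, ∏ i, φ (∑ l, θ l * A l i) = ∏ g : Γ, G g θ ^ (1 / (n : ℝ)) := by
    intro θ
    have hk1 : (0 : ℝ) ≤ 1 / (n : ℝ) := by positivity
    rw [ENNReal.prod_rpow_of_nonneg hk1]
    have h1 : ∏ g : Γ, G g θ = ((∏ i, φ (∑ l, θ l * A l i)) ^ (m * N)) ^ k := by
      simp only [G]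
      simp_rw [ENNReal.prod_rpow_of_nonneg hk.le]
      congr 1
      rw [Finset.prod_comm]
      rw [Finset.prod_congr rfl fun j _ => prod_orbit (Γ := Γ) hm (f j) (fun i => φ (∑ l, θ l * A l i))]
      rw [Finset.prod_const, card_univ, Fintype.card_fin, pow_mul]
    rw [h1, ← ENNReal.rpow_natCast, ← ENNReal.rpow_mul, ← ENNReal.rpow_mul]
    have h2 : ((m * N : ℕ) : ℝ) * k * (1 / (n : ℝ)) = 1 := by
      rw [mul_one_div, div_eq_one_iff_eq hnR.ne']
      have h3 : (m : ℝ) * Fintype.card ι = n := by exact_mod_cast hm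
      rw [← h3, hc]
      push_cast
      ring
    rw [← mul_assoc, h2, ENNReal.rpow_one]
  simp_rw [hpt]
  refine (ENNReal.lintegral_prod_norm_pow_le (μ := volume) (univ : Finset Γ) (f := G)
    (p := fun _ => 1 / (n : ℝ)) (fun g _ => ?_) ?_ (fun _ _ => by positivity)).trans ?_
  · exact (Finset.measurable_prod _ fun j _ => hφk.comp (by fun_prop)).aemeasurable
  · rw [sum_const, card_univ, ← hn, nsmul_eq_mul, mul_one_div, div_self hnR.ne']
  · rw [Finset.prod_congr rfl fun g _ => by rw [hGint g], prod_const, card_univ, ← hn,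
      ← ENNReal.rpow_natCast, ← ENNReal.rpow_mul, one_div, inv_mul_cancel₀ hnR.ne',
      ENNReal.rpow_one]

end Pool.MP43e44c
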