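import Pool.Agent.H.MP_43e44c_ag.SB.Gk
import Pool.Agent.H.MP_43e44c_ag.SB.Det
import Pool.Agent.H.MP_43e44c_ag.SB.Hol
import Pool.Agent.H.MP_43e44c_ag.SB.Fou

/-!
The small ball inequality for projections of sign vectors to invariant subspaces.
-/

set_option autoImplicit false

open Finset MeasureTheory Matrix Module
open scoped ENNReal

namespace Pool.MP43e44c

section

variable {Γ ι : Type*} [Group Γ] [MulAction Γ ι] [Fintype ι]

/-- The matrix of an orthonormal basis. -/
noncomputable def bmat {U : Submodule ℝ (EuclideanSpace ℝ ι)} {N : ℕ}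
    (u : OrthonormalBasis (Fin N) ℝ U) (k : ℝ) : Matrix (Fin N) ι ℝ :=
  Matrix.of fun l i => Real.sqrt k * (u l : EuclideanSpace ℝ ι) i

theorem bmat_mul_transpose {U : Submodule ℝ (EuclideanSpace ℝ ι)} {N : ℕ}
    (u : OrthonormalBasis (Fin N) ℝ U) {k : ℝ} (hk : 0 ≤ k) :
    bmat u k * (bmat u k)ᵀ = k • (1 : Matrix (Fin N) (Fin N) ℝ) := by
  ext l m
  rw [mul_apply, Matrix.smul_apply, one_apply, smul_eq_mul]
  have h1 : ∀ i, bmat u k l i * (bmat u k)ᵀ i m
      = k * ((u l : EuclideanSpace ℝ ι) i * (u m : EuclideanSpace ℝ ι) i) := by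
    intro i
    show Real.sqrt k * (u l : EuclideanSpace ℝ ι) i * (Real.sqrt k * (u m : EuclideanSpace ℝ ι) i) = _
    have h2 := Real.mul_self_sqrt hk
    calc _ = (Real.sqrt k * Real.sqrt k) * ((u l : EuclideanSpace ℝ ι) i * (u m : EuclideanSpace ℝ ι) i) := by ring
      _ = _ := by rw [h2]
  rw [sum_congr rfl fun i _ => h1 i, ← mul_sum]
  congr 1
  have h3 := (orthonormal_iff_ite.1 u.orthonormal) m l
  rw [Submodule.coe_inner, PiLp.inner_apply] at h3
  simp only [RCLike.inner_apply, conj_trivial] at h3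
  rw [h3]
  by_cases h : l = m
  · simp [h]
  · simp [h, Ne.symm h]

/-- The projection in terms of the matrix. -/
theorem sum_bmat_sq {U : Submodule ℝ (EuclideanSpace ℝ ι)} {N : ℕ}
    (u : OrthonormalBasis (Fin N) ℝ U) {k : ℝ} (hk : 0 ≤ k) (x : EuclideanSpace ℝ ι) :
    ∑ l, (∑ i, bmat u k l i * x i) ^ 2 = k * ‖U.starProjection x‖ ^ 2 := by
  have h1 : ∀ l, ∑ i, bmat u k l i * x i = Real.sqrt k * inner ℝ (u l) (U.orthogonalProjectionOnto x) := by
    intro l
    rw [Submodule.inner_orthogonalProjectionOnto_eq_of_mem_left, PiLp.inner_apply, mul_sum]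
    refine sum_congr rfl fun i _ => ?_
    show Real.sqrt k * (u l : EuclideanSpace ℝ ι) i * x i = _
    simp only [RCLike.inner_apply, conj_trivial]
    ring
  have h2 : ‖U.starProjection x‖ = ‖U.orthogonalProjectionOnto x‖ := rfl
  rw [sum_congr rfl fun l _ => by rw [h1 l, mul_pow, Real.sq_sqrt hk], ← mul_sum, h2,
    ← u.sum_sq_norm_inner_right]
  simp

/-- The Gram numbers. -/
theorem bmat_transpose_mul {U : Submodule ℝ (EuclideanSpace ℝ ι)} {N : ℕ} [DecidableEq ι]
    (u : OrthonormalBasis (Fin N) ℝ U) {k : ℝ} (hk : 0 ≤ k) (i j : ι) :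
    ∑ l, bmat u k l i * bmat u k l j = k * inner ℝ (U.starProjection (EuclideanSpace.single i 1))
      (U.starProjection (EuclideanSpace.single j 1)) := by
  have h1 : ∀ (l : Fin N) (i : ι), bmat u k l i
      = Real.sqrt k * inner ℝ (u l) (U.orthogonalProjectionOnto (EuclideanSpace.single i 1)) := by
    intro l i
    rw [Submodule.inner_orthogonalProjectionOnto_eq_of_mem_left, EuclideanSpace.inner_single_right]
    show Real.sqrt k * (u l : EuclideanSpace ℝ ι) i = _
    simp
  have h2 : inner ℝ (U.starProjection (EuclideanSpace.single i 1))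
      (U.starProjection (EuclideanSpace.single j 1))
      = inner ℝ (U.orthogonalProjectionOnto (EuclideanSpace.single i (1 : ℝ)))
        (U.orthogonalProjectionOnto (EuclideanSpace.single j (1 : ℝ))) := rfl
  rw [h2, ← u.sum_inner_mul_inner, mul_sum]
  refine sum_congr rfl fun l _ => ?_
  rw [h1 l i, h1 l j, real_inner_comm (u l) (U.orthogonalProjectionOnto (EuclideanSpace.single i 1))]
  have h3 := Real.mul_self_sqrt hk
  rw [mul_mul_mul_comm, h3]

/-- The projection commutes with the action. -/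
theorem starProjection_act' (C : Coc Γ ι) {U : Submodule ℝ (EuclideanSpace ℝ ι)} (hU : C.Inv U)
    (g : Γ) (x : EuclideanSpace ℝ ι) :
    U.starProjection (C.act g x) = C.act g (U.starProjection x) := by
  apply Submodule.eq_starProjection_of_mem_orthogonal (hU g _ (Submodule.starProjection_apply_mem U x))
  rw [← map_sub]
  intro y hy
  rw [real_inner_comm, C.inner_act_left]
  have h1 := Submodule.sub_starProjection_mem_orthogonal (K := U) x
  rw [real_inner_comm]
  exact h1 _ (hU _ _ hy)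

/-- The invariance of the minors. -/
theorem abs_det_bmat (C : Coc Γ ι) {U : Submodule ℝ (EuclideanSpace ℝ ι)} (hU : C.Inv U) {N : ℕ}
    (u : OrthonormalBasis (Fin N) ℝ U) {k : ℝ} (hk : 0 ≤ k) (f : Fin N → ι) (g : Γ) :
    |((bmat u k).submatrix id fun j => g • f j).det| = |((bmat u k).submatrix id f).det| := by
  classical
  rw [← sq_eq_sq₀ (abs_nonneg _) (abs_nonneg _), sq_abs, sq_abs]
  have hgram : ∀ (f : Fin N → ι), ((bmat u k).submatrix id f).det ^ 2
      = (Matrix.of fun i j => k * inner ℝ (U.starProjection (EuclideanSpace.single (f i) 1))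
        (U.starProjection (EuclideanSpace.single (f j) 1))).det := by
    intro f
    rw [sq]
    nth_rw 1 [← Matrix.det_transpose]
    rw [← Matrix.det_mul]
    congr 1
    ext i j
    rw [Matrix.mul_apply, Matrix.of_apply, ← bmat_transpose_mul u hk]
    rfl
  rw [hgram, hgram]
  have h1 : (Matrix.of fun i j => k * inner ℝ (U.starProjection (EuclideanSpace.single (g • f i) 1))
        (U.starProjection (EuclideanSpace.single (g • f j) (1 : ℝ))))
      = Matrix.diagonal (fun i => C.ε g (f i)) * (Matrix.of fun i j => k * inner ℝ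
        (U.starProjection (EuclideanSpace.single (f i) 1))
        (U.starProjection (EuclideanSpace.single (f j) 1))) *
        Matrix.diagonal (fun i => C.ε g (f i)) := by
    ext i j
    rw [Matrix.mul_diagonal, Matrix.diagonal_mul, Matrix.of_apply, Matrix.of_apply]
    have h2 : ∀ i : ι, EuclideanSpace.single (g • i) (1 : ℝ)
        = C.ε g i • C.act g (EuclideanSpace.single i 1) := by
      intro i
      rw [C.act_single, mul_one]
      ext j
      by_cases h : j = g • i
      · simp [h, C.mul_self]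
      · simp [h]
    rw [h2, h2, map_smul, map_smul, inner_smul_left, inner_smul_right, starProjection_act' C hU,
      starProjection_act' C hU, C.inner_act]
    simp only [conj_trivial]
    ring
  rw [h1, Matrix.det_mul, Matrix.det_mul, Matrix.det_diagonal]
  have h3 : (∏ i, C.ε g (f i)) * (∏ i, C.ε g (f i)) = 1 := by
    rw [← prod_mul_distrib]
    exact prod_eq_one fun i _ => C.mul_self _ _
  rw [mul_comm, ← mul_assoc, h3, one_mul]

end

/-- Integrability. -/
theorem integrable_gk {k : ℝ} (hk : 0 ≤ k) :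
    Integrable fun t : ℝ => Real.exp (-t ^ 2 / 2) * |Real.cos t| ^ k := by
  have h1 : Integrable fun t : ℝ => Real.exp (-(1 / 2) * t ^ 2) :=
    integrable_exp_neg_mul_sq (by norm_num)
  refine h1.mono' ?_ (Filter.Eventually.of_forall fun t => ?_)
  · apply Continuous.aestronglyMeasurable
    refine Continuous.mul (by fun_prop) ?_
    exact Continuous.rpow_const (by fun_prop) fun _ => Or.inr hk
  · rw [Real.norm_eq_abs, abs_of_nonneg (by positivity)]
    have h2 : |Real.cos t| ^ k ≤ 1 := Real.rpow_le_one (abs_nonneg _) (Real.abs_cos_le_one t) hk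
    have h3 : -t ^ 2 / 2 = -(1 / 2) * t ^ 2 := by ring
    rw [h3]
    exact mul_le_of_le_one_right (Real.exp_pos _).le h2

section

variable {Γ ι : Type*} [Group Γ] [Fintype Γ] [MulAction Γ ι] [Fintype ι] [DecidableEq ι]
  [MulAction.IsPretransitive Γ ι]

/-- The exponential moment. -/
theorem exp_moment (C : Coc Γ ι) {U : Submodule ℝ (EuclideanSpace ℝ ι)} (hU : C.Inv U) {N : ℕ}
    (hN : finrank ℝ U = N) (hN0 : 0 < N) {k : ℝ} (hc : (Fintype.card ι : ℝ) = k * N) :
    ∑ v : ι → Bool, Real.exp (-(k * ‖U.starProjection (sv v)‖ ^ 2) / 2)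
      ≤ 2 ^ Fintype.card ι * (Real.exp (1 / 2) * gk k) ^ N := by
  classical
  have hNR : (0 : ℝ) < N := by exact_mod_cast hN0
  have hb : 0 < Fintype.card ι := by
    rcases Nat.eq_zero_or_pos (Fintype.card ι) with h | h
    · exfalso
      have h1 : finrank ℝ U ≤ Fintype.card ι := by
        have := Submodule.finrank_le U
        rwa [finrank_euclideanSpace] at this
      omega
    · exact h
  have hk : 0 < k := by
    have h1 : (0 : ℝ) < k * N := by rw [← hc]; exact_mod_cast hb
    exact pos_of_mul_pos_left h1 hNR.le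
  let u : OrthonormalBasis (Fin N) ℝ U := (stdOrthonormalBasis ℝ U).reindex (finCongr hN)
  set A := bmat u k with hA
  obtain ⟨f, hf⟩ := exists_big_det A hk (bmat_mul_transpose u hk.le) hc
  have hdet0 : (A.submatrix id f).det ≠ 0 := by
    intro h
    rw [h, sq, mul_zero] at hf
    exact absurd hf (not_le.2 (Real.exp_pos _))
  -- the function
  let φ : ℝ → ℝ≥0∞ := fun t => ENNReal.ofReal (Real.exp (-t ^ 2 / (2 * k)) * |Real.cos t|)
  have hφ : Measurable φ := by
    apply ENNReal.measurable_ofReal.comp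
    exact (by fun_prop : Continuous fun t : ℝ => Real.exp (-t ^ 2 / (2 * k)) * |Real.cos t|).measurable
  have hhold := holder_orbit (Γ := Γ) hN0 A hk hc f hdet0 (fun g => abs_det_bmat C hU u hk.le f g) hφ
  have hφk : ∀ t, φ t ^ k = ENNReal.ofReal (Real.exp (-t ^ 2 / 2) * |Real.cos t| ^ k) := by
    intro t
    rw [ENNReal.ofReal_rpow_of_nonneg (by positivity) hk.le, Real.mul_rpow (Real.exp_pos _).le
      (abs_nonneg _), ← Real.exp_mul]
    congr 3
    field_simp
  have hint : ∫⁻ t, φ t ^ k = ENNReal.ofReal (Real.sqrt (2 * Real.pi) * gk k) := by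
    simp_rw [hφk]
    rw [← ofReal_integral_eq_lintegral_ofReal (integrable_gk hk.le)
      (Filter.Eventually.of_forall fun t => by positivity)]
    congr 1
    unfold gk
    rw [← mul_assoc, mul_inv_cancel₀ (by positivity), one_mul]
  have hgk : 0 ≤ gk k := gk_nonneg k
  -- the Fourier side
  have h1 : ∀ v : ι → Bool, Real.exp (-(k * ‖U.starProjection (sv v)‖ ^ 2) / 2)
      = Real.exp (-(∑ l, (∑ i, A l i * sv v i) ^ 2) / 2) := by
    intro v
    rw [sum_bmat_sq u hk.le]
  rw [sum_congr rfl fun v _ => h1 v, sum_exp_eq]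
  have hpt : ∀ θ : Fin N → ℝ, ENNReal.ofReal ‖Real.exp (-(∑ l, θ l ^ 2) / 2) *
      ∏ i, Real.cos (∑ l, θ l * A l i)‖ = ∏ i, φ (∑ l, θ l * A l i) := by
    intro θ
    have h2 : ∑ i, (∑ l, θ l * A l i) ^ 2 = k * ∑ l, θ l ^ 2 := by
      have h3 : ∑ i, (∑ l, θ l * A l i) ^ 2 = ∑ l, ∑ m, θ l * θ m * ∑ i, A l i * A m i := by
        simp_rw [sq, Finset.sum_mul_sum, mul_sum]
        rw [Finset.sum_comm]
        refine sum_congr rfl fun l _ => ?_
        rw [Finset.sum_comm]
        refine sum_congr rfl fun m _ => sum_congr rfl fun i _ => by ring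
      have h4 : ∀ l m, ∑ i, A l i * A m i = if l = m then k else 0 := by
        intro l m
        have h5 := congrFun (congrFun (bmat_mul_transpose u hk.le) l) m
        rw [Matrix.mul_apply, Matrix.smul_apply, Matrix.one_apply, smul_eq_mul] at h5
        rw [show ∑ i, A l i * A m i = ∑ i, bmat u k l i * (bmat u k)ᵀ i m from rfl, h5]
        split_ifs <;> simp
      rw [h3, mul_sum]
      refine sum_congr rfl fun l _ => ?_
      simp_rw [h4]
      simp
      ring
    rw [norm_mul, Real.norm_eq_abs, abs_of_pos (Real.exp_pos _), norm_prod,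
      ← ENNReal.ofReal_prod_of_nonneg (fun i _ => by positivity)]
    congr 1
    rw [prod_mul_distrib, ← Real.exp_sum]
    congr 2
    · rw [← Finset.sum_div, sum_neg_distrib, h2]
      field_simp
  have h2 : ∫ θ : Fin N → ℝ, Real.exp (-(∑ l, θ l ^ 2) / 2) * ∏ i, Real.cos (∑ l, θ l * A l i)
      ≤ |(A.submatrix id f).det|⁻¹ * (Real.sqrt (2 * Real.pi) * gk k) ^ N := by
    refine (le_abs_self _).trans ?_
    rw [← Real.norm_eq_abs]
    refine (norm_integral_le_lintegral_norm _).trans ?_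
    simp_rw [hpt]
    refine (ENNReal.toReal_mono ?_ hhold).trans ?_
    · rw [hint]
      exact ENNReal.mul_ne_top ENNReal.ofReal_ne_top (ENNReal.pow_ne_top ENNReal.ofReal_ne_top)
    · rw [hint, ENNReal.toReal_mul, ENNReal.toReal_pow, ENNReal.toReal_ofReal (by positivity),
        ENNReal.toReal_ofReal (by positivity)]
  have h3 : |(A.submatrix id f).det|⁻¹ ≤ Real.exp (1 / 2) ^ N := by
    rw [← Real.exp_nat_mul, inv_le_comm₀ (by positivity) (Real.exp_pos _), ← Real.exp_neg]
    rw [← sq_le_sq₀ (Real.exp_pos _).le (abs_nonneg _), sq_abs, ← Real.exp_nat_mul]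
    refine le_trans (le_of_eq ?_) hf
    congr 1
    push_cast
    ring
  calc 2 ^ Fintype.card ι * ((Real.sqrt (2 * Real.pi))⁻¹ ^ N *
        ∫ θ : Fin N → ℝ, Real.exp (-(∑ l, θ l ^ 2) / 2) * ∏ i, Real.cos (∑ l, θ l * A l i))
      ≤ 2 ^ Fintype.card ι * ((Real.sqrt (2 * Real.pi))⁻¹ ^ N *
        (Real.exp (1 / 2) ^ N * (Real.sqrt (2 * Real.pi) * gk k) ^ N)) := by
        gcongr
        refine h2.trans ?_
        gcongr
    _ = 2 ^ Fintype.card ι * (Real.exp (1 / 2) * gk k) ^ N := by
        congr 1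
        rw [← mul_pow, ← mul_pow]
        congr 1
        field_simp

open Classical in
/-- The small ball inequality. -/
theorem small_ball (C : Coc Γ ι) {U : Submodule ℝ (EuclideanSpace ℝ ι)} (hU : C.Inv U) {N : ℕ}
    (hN : finrank ℝ U = N) (hN0 : 0 < N) {k : ℝ} (hc : (Fintype.card ι : ℝ) = k * N) {ρ : ℝ}
    (hρ : 0 ≤ ρ) :
    ((univ.filter fun v : ι → Bool => ‖U.starProjection (sv v)‖ ^ 2 ≤ ρ ^ 2 * (N / k)).card : ℝ)
      ≤ 2 ^ Fintype.card ι * (Real.exp (ρ ^ 2 / 2) * (Real.exp (1 / 2) * gk k)) ^ N := by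
  have hNR : (0 : ℝ) < N := by exact_mod_cast hN0
  have hk0 : 0 ≤ k := by
    have h1 : (0 : ℝ) ≤ k * N := by rw [← hc]; positivity
    exact nonneg_of_mul_nonneg_left h1 hNR
  have h1 := exp_moment C hU hN hN0 hc
  have h2 : ((univ.filter fun v : ι → Bool =>
      ‖U.starProjection (sv v)‖ ^ 2 ≤ ρ ^ 2 * (N / k)).card : ℝ) * Real.exp (-(ρ ^ 2 * N) / 2)
      ≤ ∑ v : ι → Bool, Real.exp (-(k * ‖U.starProjection (sv v)‖ ^ 2) / 2) := by
    rw [← nsmul_eq_mul, ← sum_const]
    refine (sum_le_sum (g := fun v : ι → Bool =>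
      Real.exp (-(k * ‖U.starProjection (sv v)‖ ^ 2) / 2)) fun v hv => ?_).trans
      (sum_le_univ_sum_of_nonneg fun v => (Real.exp_pos _).le)
    rw [mem_filter] at hv
    apply Real.exp_le_exp.2
    have h3 : k * ‖U.starProjection (sv v)‖ ^ 2 ≤ k * (ρ ^ 2 * (N / k)) :=
      mul_le_mul_of_nonneg_left hv.2 hk0
    have h4 : k * (ρ ^ 2 * (N / k)) ≤ ρ ^ 2 * N := by
      rcases hk0.eq_or_lt with h | h
      · rw [← h, zero_mul]; positivity
      · apply le_of_eq; field_simp
    linarith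
  have h3 : (Real.exp (ρ ^ 2 / 2) * (Real.exp (1 / 2) * gk k)) ^ N
      = Real.exp (ρ ^ 2 * N / 2) * (Real.exp (1 / 2) * gk k) ^ N := by
    rw [mul_pow, ← Real.exp_nat_mul]
    congr 2
    ring
  rw [h3]
  have h4 : Real.exp (-(ρ ^ 2 * N) / 2) * Real.exp (ρ ^ 2 * N / 2) = 1 := by
    rw [← Real.exp_add]
    have : -(ρ ^ 2 * N) / 2 + ρ ^ 2 * N / 2 = 0 := by ring
    rw [this, Real.exp_zero]
  calc ((univ.filter fun v : ι → Bool =>
      ‖U.starProjection (sv v)‖ ^ 2 ≤ ρ ^ 2 * (N / k)).card : ℝ)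
      = ((univ.filter fun v : ι → Bool =>
      ‖U.starProjection (sv v)‖ ^ 2 ≤ ρ ^ 2 * (N / k)).card : ℝ) *
        (Real.exp (-(ρ ^ 2 * N) / 2) * Real.exp (ρ ^ 2 * N / 2)) := by rw [h4, mul_one]
    _ = (((univ.filter fun v : ι → Bool =>
      ‖U.starProjection (sv v)‖ ^ 2 ≤ ρ ^ 2 * (N / k)).card : ℝ) *
        Real.exp (-(ρ ^ 2 * N) / 2)) * Real.exp (ρ ^ 2 * N / 2) := by ring
    _ ≤ (2 ^ Fintype.card ι * (Real.exp (1 / 2) * gk k) ^ N) * Real.exp (ρ ^ 2 * N / 2) := by
        exact mul_le_mul_of_nonneg_right (h2.trans h1) (Real.exp_pos _).le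
    _ = _ := by ring

end

end Pool.MP43e44c
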