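import Pool.Agent.H.MP_43e44c_ag.SB.Grp3
import Pool.Agent.H.MP_43e44c_ag.Count2

/-!
The number of CM types whose Hodge rings are not generated by divisor classes, for CM fields with
at least three classes.
-/

set_option autoImplicit false

open NumberField Finset Module

namespace Pool.MP43e44c

variable {K : Type*} [Field K] [NumberField K] [IsCMField K]

theorem class_count3 {b c : ℕ} (hK : finrank ℚ K = 2 * (b * c)) {θ : K} (hθ0 : θ ≠ 0)
    (hθ : IsCMField.complexConj K θ = -θ) (χ : K →+* ℂ)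
    (hb : {φ : K →+* ℂ | φ θ * χ θ ∈ GC0 K}.ncard = 2 * b) (hc : 3 ≤ c) :
    ({Φ : Finset (K →+* ℂ) | IsCMType Φ ∧ ¬ HodgeRingGeneratedByDivisors Φ}.ncard : ℝ) * Real.sqrt b
        ≤ C₁ * 2 ^ (b * c) := by
  classical
  let cc : (K →+* ℂ) → (K →+* ℂ) := ComplexEmbedding.conjugate
  have hcc : ∀ x, cc (cc x) = x := conj_conj
  have hcg : ∀ (g : GG K) x, g • cc x = cc (g • x) := hcgK
  have hne : ∀ x, cc x ≠ x := conj_ne
  let P := Quotient (pairSetoid cc hcc)
  let actP : MulAction (GG K) P := pairAction cc hcc hcg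
  let Q := Cls (G := GG K) hcc hcg
  let π : (K →+* ℂ) → P := Quotient.mk (pairSetoid cc hcc)
  have hπ : ∀ (g : GG K) x, π (g • x) = g • π x := fun _ _ => rfl
  have hfib : ∀ x y, π x = π y ↔ y = x ∨ y = cc x := by
    intro x y
    exact Quotient.eq
  have hsurj : Function.Surjective π := Quotient.exists_rep
  have : Finite P := Finite.of_surjective π hsurj
  let fP : Fintype P := Fintype.ofFinite P
  have : Finite Q := inferInstance
  let fQ : Fintype Q := Fintype.ofFinite Q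
  let κ : P → Q := Quotient.lift (fun x => Quotient.mk (clsSetoid hcc hcg) x) (by
    rintro x y (h | h)
    · rw [h]
    · rw [h]
      exact Quotient.sound (cls_conj hcc hcg x))
  have hκ : ∀ (g : GG K) p, κ (g • p) = g • κ p := by
    rintro g ⟨x⟩
    rfl
  have hκs : Function.Surjective κ := by
    rintro ⟨x⟩
    exact ⟨π x, rfl⟩
  obtain ⟨x₀⟩ : Nonempty (K →+* ℂ) := inferInstance
  have hproj : ∀ Φ : Finset (K →+* ℂ), (∀ x, x ∈ Φ ↔ cc x ∉ Φ) → ∀ f ∈ lat (GG K) cc Φ, ∀ q : Q,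
      ∃ f' ∈ lat (GG K) cc Φ, ∀ x, (κ (π x) = q → f' x = f x) ∧ (κ (π x) ≠ q → f' x = 0) := by
    intro Φ _ f hf q
    refine ⟨_, proj_mem_lat hcc hcg hne hf q, fun x => ⟨fun h => if_pos h, fun h => if_neg h⟩⟩
  -- sizes
  have hfibre : ∀ p : P, (univ.filter fun x => π x = p).card = 2 := by
    intro p
    obtain ⟨x, rfl⟩ := hsurj p
    have h3 : (univ.filter fun y => π y = π x) = {x, cc x} := by
      ext y
      simp only [mem_filter, mem_univ, true_and, mem_insert, mem_singleton]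
      rw [eq_comm, hfib]
    rw [h3, card_pair (Ne.symm (hne x))]
  have hcardP : Fintype.card P = b * c := by
    have h1 : Fintype.card (K →+* ℂ) = 2 * Fintype.card P := by
      rw [← card_univ, card_eq_sum_card_fiberwise (f := π) (t := univ)
        (fun _ _ => mem_coe.2 (mem_univ _)), sum_congr rfl fun p _ => hfibre p, sum_const,
        card_univ, smul_eq_mul, mul_comm]
    rw [NumberField.Embeddings.card K ℂ, hK] at h1
    omega
  have hclsb : ∀ x₀ : K →+* ℂ, {y : K →+* ℂ | mkc hcc hcg y = mkc hcc hcg x₀}.ncard = 2 * b :=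
    ncard_cl_eq hθ0 hθ χ hb
  have hbpos : 0 < b := by
    rcases Nat.eq_zero_or_pos b with rfl | h
    · rw [zero_mul, mul_zero] at hK
      exact absurd hK finrank_pos.ne'
    · exact h
  have hcardQ : Fintype.card Q = c := by
    have h1 := card_cls_mul (G := GG K) hcc hcg (hclsb x₀)
    rw [card_embeddings, hK, Nat.card_eq_fintype_card] at h1
    have h2 : Fintype.card Q * (2 * b) = c * (2 * b) := by
      rw [h1]; ring
    exact Nat.eq_of_mul_eq_mul_right (by omega) h2
  have hmain := bad_count3 hcc hcg hπ hfib hsurj hκ hκs hproj (b := b) (by rw [hcardP, hcardQ])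
    (by rw [hcardQ]; exact hc)
  rw [hcardP] at hmain
  refine le_trans (mul_le_mul_of_nonneg_right ?_ (Real.sqrt_nonneg _)) hmain
  exact_mod_cast Set.ncard_le_ncard bad_subset_lat (Set.toFinite _)

/-- The uniform bound. -/
theorem uniform_count : ∃ C : ℝ, ∀ {K : Type*} [Field K] [NumberField K] [IsCMField K] {n : ℕ},
    finrank ℚ K = 2 * n → 4 * finrank ℚ (GC0 K) < finrank ℚ (GC K) →
    ({Φ : Finset (K →+* ℂ) | IsCMType Φ ∧ ¬ HodgeRingGeneratedByDivisors Φ}.ncard : ℝ)
        ≤ C * Real.sqrt (Real.log n / n) * 2 ^ n := by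
  classical
  refine ⟨4 + 2 * C₁, fun {K} _ _ _ {n} hK hlt => ?_⟩
  have hC := C₁_pos
  set B : Set (Finset (K →+* ℂ)) := {Φ | IsCMType Φ ∧ ¬ HodgeRingGeneratedByDivisors Φ} with hB
  rcases Set.eq_empty_or_nonempty B with hempty | ⟨Φ, hΦ, -⟩
  · rw [hempty, Set.ncard_empty, Nat.cast_zero]
    positivity
  obtain ⟨χ⟩ : Nonempty (K →+* ℂ) := inferInstance
  obtain ⟨θ, hθ0, hθ⟩ := exists_purely_imaginary K
  -- the size of the classes is even
  have h2 : ∃ b, {y : K →+* ℂ | cl y = cl χ}.ncard = 2 * b := by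
    have h3 := sum_half conj_conj hΦ (fun y => if cl y = cl χ then 1 else 0) (fun y => by
      have h4 : cl (ComplexEmbedding.conjugate y) = cl y := mkc_conj (G := GG K) conj_conj hcgK y
      rw [h4])
    have h4 : (({y : K →+* ℂ | cl y = cl χ}.ncard : ℕ) : ℤ)
        = ∑ y : K →+* ℂ, if cl y = cl χ then 1 else 0 := by
      rw [sum_boole, ← Set.ncard_coe_finset]
      congr 2
      ext y
      simp
    refine ⟨(Φ.filter fun y => cl y = cl χ).card, ?_⟩
    rw [h3, sum_boole] at h4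
    exact_mod_cast h4
  obtain ⟨b, hb⟩ := h2
  have h1 := card_cls_mul (G := GG K) conj_conj hcgK hb
  rw [card_embeddings, hK] at h1
  obtain ⟨c, hc⟩ : ∃ c, c = Nat.card (Cls (G := GG K) (X := K →+* ℂ) conj_conj hcgK) := ⟨_, rfl⟩
  rw [← hc] at h1
  have hn : n = b * c := by
    have : 2 * n = 2 * (b * c) := by rw [← h1]; ring
    omega
  have hcl : {φ : K →+* ℂ | φ θ * χ θ ∈ GC0 K}.ncard = 2 * b := by
    rw [← hb]
    congr 1
    ext y
    exact (cl_eq_iff hθ0 hθ y χ).symm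
  subst hn
  obtain ⟨hgc, hcount, -⟩ := class_count hK hθ0 hθ χ hcl
  have hc3 : 3 ≤ c := by
    by_contra hcon
    have h3 : 2 ^ c ≤ 2 ^ 2 := Nat.pow_le_pow_right (by norm_num) (by omega)
    have h4 : 2 ^ c * finrank ℚ (GC0 K) ≤ 2 ^ 2 * finrank ℚ (GC0 K) := Nat.mul_le_mul_right _ h3
    omega
  have hbpos : 0 < b := by
    rcases Nat.eq_zero_or_pos b with rfl | h
    · rw [zero_mul, mul_zero] at hK
      exact absurd hK finrank_pos.ne'
    · exact h
  have hn3 : 3 ≤ b * c := by nlinarith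
  have hcount3 := class_count3 hK hθ0 hθ χ hcl hc3
  rw [← hB] at hcount hcount3
  have hbR : (1 : ℝ) ≤ b := by exact_mod_cast hbpos
  have hcR : (3 : ℝ) ≤ c := by exact_mod_cast hc3
  obtain ⟨x, hx⟩ : ∃ x : ℝ, x = ((b * c : ℕ) : ℝ) := ⟨_, rfl⟩
  have hxbc : x = b * c := by rw [hx]; push_cast; ring
  have hx3 : 3 ≤ x := by rw [hx]; exact_mod_cast hn3
  have hx0 : 0 < x := by linarith
  have hlog : 1 ≤ Real.log x := by
    rw [Real.le_log_iff_exp_le hx0]
    have := Real.exp_one_lt_three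
    linarith
  rw [← hx]
  have hsqrt0 : 0 ≤ Real.sqrt (Real.log x / x) := Real.sqrt_nonneg _
  by_cases hcase : b * c ≤ 2 ^ c
  · -- many classes
    have hcaseR : x ≤ 2 ^ c := by rw [hx]; exact_mod_cast hcase
    have h5 : (B.ncard : ℝ) * 4 ^ c ≤ 2 ^ (b * c + 1) * (b + 2 ^ c) := by exact_mod_cast hcount
    have h6 : (4 : ℝ) ^ c = 2 ^ c * 2 ^ c := by rw [← mul_pow]; norm_num
    have h7 : (b : ℝ) ≤ 2 ^ c := by
      refine le_trans ?_ hcaseR
      rw [hxbc]
      nlinarith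
    have hp : (0 : ℝ) < 2 ^ c := by positivity
    have h8 : (B.ncard : ℝ) * 2 ^ c ≤ 4 * 2 ^ (b * c) := by
      have h9 : ((B.ncard : ℝ) * 2 ^ c) * 2 ^ c ≤ (4 * 2 ^ (b * c)) * 2 ^ c := by
        calc ((B.ncard : ℝ) * 2 ^ c) * 2 ^ c = (B.ncard : ℝ) * 4 ^ c := by rw [h6]; ring
          _ ≤ 2 ^ (b * c + 1) * (b + 2 ^ c) := h5
          _ ≤ 2 ^ (b * c + 1) * (2 ^ c + 2 ^ c) := by gcongr
          _ = (4 * 2 ^ (b * c)) * 2 ^ c := by ring
      exact le_of_mul_le_mul_right h9 hp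
    have h9 : (B.ncard : ℝ) * x ≤ 4 * 2 ^ (b * c) := by
      refine le_trans ?_ h8
      gcongr
    have h10 : 1 / x ≤ Real.sqrt (Real.log x / x) := by
      apply Real.le_sqrt_of_sq_le
      rw [div_pow, one_pow, sq]
      rw [div_le_div_iff₀ (by positivity) hx0]
      nlinarith
    calc (B.ncard : ℝ) = ((B.ncard : ℝ) * x) * (1 / x) := by field_simp
      _ ≤ (4 * 2 ^ (b * c)) * (1 / x) := by gcongr
      _ ≤ (4 * 2 ^ (b * c)) * Real.sqrt (Real.log x / x) := by gcongr
      _ = 4 * Real.sqrt (Real.log x / x) * 2 ^ (b * c) := by ring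
      _ ≤ (4 + 2 * C₁) * Real.sqrt (Real.log x / x) * 2 ^ (b * c) := by
        gcongr
        linarith
  · -- large classes
    push Not at hcase
    have hcaseR : (2 : ℝ) ^ c < x := by rw [hx]; exact_mod_cast hcase
    have h5 : (c : ℝ) * Real.log 2 < Real.log x := by
      rw [← Real.log_pow]
      exact Real.log_lt_log (by positivity) hcaseR
    have h6 : (1 / 4 : ℝ) < Real.log 2 := by
      have := Real.log_two_gt_d9
      linarith
    have h7 : 1 / (b : ℝ) ≤ 4 * (Real.log x / x) := by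
      have h9 : (c : ℝ) ≤ 4 * Real.log x := by nlinarith
      rw [← mul_div_assoc, div_le_div_iff₀ (by positivity) hx0, one_mul]
      calc x = b * c := hxbc
        _ ≤ b * (4 * Real.log x) := by gcongr
        _ = 4 * Real.log x * b := by ring
    have h8 : 1 / Real.sqrt b ≤ 2 * Real.sqrt (Real.log x / x) := by
      rw [← Real.sqrt_one, ← Real.sqrt_div zero_le_one]
      calc Real.sqrt (1 / (b : ℝ)) ≤ Real.sqrt (4 * (Real.log x / x)) := Real.sqrt_le_sqrt h7
        _ = 2 * Real.sqrt (Real.log x / x) := by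
          rw [Real.sqrt_mul (by norm_num), show (4 : ℝ) = 2 ^ 2 by norm_num,
            Real.sqrt_sq (by norm_num)]
    have hsb : 0 < Real.sqrt b := Real.sqrt_pos.2 (by linarith)
    calc (B.ncard : ℝ) = ((B.ncard : ℝ) * Real.sqrt b) * (1 / Real.sqrt b) := by field_simp
      _ ≤ (C₁ * 2 ^ (b * c)) * (1 / Real.sqrt b) := by gcongr
      _ ≤ (C₁ * 2 ^ (b * c)) * (2 * Real.sqrt (Real.log x / x)) := by gcongr
      _ = 2 * C₁ * Real.sqrt (Real.log x / x) * 2 ^ (b * c) := by ring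
      _ ≤ (4 + 2 * C₁) * Real.sqrt (Real.log x / x) * 2 ^ (b * c) := by
        gcongr
        linarith

end Pool.MP43e44c
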