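import Pool.Agent.H.MP_43e44c_ag.SB.Grp2

/-!
One-dimensional invariant subspaces and subgroups of index two.
-/

set_option autoImplicit false

open Finset Module

namespace Pool.MP43e44c

section Aux

variable {G X ι : Type*} [Group G] [MulAction G X] {Γ : Subgroup G} [MulAction Γ ι] [Fintype ι]

/-- The pointwise stabiliser of a subspace. -/
def lines_K (C : Coc Γ ι) (U : Submodule ℝ (EuclideanSpace ℝ ι)) : Subgroup Γ where
  carrier := {h | ∀ x ∈ U, C.act h x = x}
  mul_mem' := by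
    intro a b ha hb x hx
    rw [C.act_mul, hb x hx, ha x hx]
  one_mem' := fun x _ => C.act_one x
  inv_mem' := by
    intro a ha x hx
    have h := C.act_inv_act a x
    rwa [ha x hx] at h

theorem lines_neg {u : EuclideanSpace ℝ ι} (h : u = - u) : u = 0 := by
  ext i
  have h1 : u i = - u i := congrArg (fun v : EuclideanSpace ℝ ι => v i) h
  show u i = 0
  linarith

theorem lines_sgn (C : Coc Γ ι) {U : Submodule ℝ (EuclideanSpace ℝ ι)} (hU : C.Inv U)
    (h1 : finrank ℝ U = 1) : ∃ u ∈ U, u ≠ 0 ∧ (∀ x ∈ U, ∃ r : ℝ, r • u = x) ∧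
      ∀ h, C.act h u = u ∨ C.act h u = -u := by
  obtain ⟨v, hv0, hv⟩ := finrank_eq_one_iff'.1 h1
  have hall : ∀ x ∈ U, ∃ r : ℝ, r • (v : EuclideanSpace ℝ ι) = x := by
    intro x hx
    obtain ⟨r, hr⟩ := hv ⟨x, hx⟩
    exact ⟨r, congrArg Subtype.val hr⟩
  have hne : (v : EuclideanSpace ℝ ι) ≠ 0 := fun h => hv0 (Subtype.ext h)
  refine ⟨v, v.2, hne, hall, fun h => ?_⟩
  obtain ⟨r, hr⟩ := hall _ (hU h v v.2)
  have hn := C.norm_act h (v : EuclideanSpace ℝ ι)
  rw [← hr, norm_smul] at hn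
  have hpos : 0 < ‖(v : EuclideanSpace ℝ ι)‖ := norm_pos_iff.2 hne
  have hr1 : ‖r‖ = 1 := by
    have h2 : ‖r‖ * ‖(v : EuclideanSpace ℝ ι)‖ = 1 * ‖(v : EuclideanSpace ℝ ι)‖ := by
      rw [hn, one_mul]
    exact mul_right_cancel₀ hpos.ne' h2
  rw [Real.norm_eq_abs] at hr1
  rcases (abs_eq zero_le_one).1 hr1 with h2 | h2
  · left
    rw [← hr, h2, one_smul]
  · right
    rw [← hr, h2, neg_smul, one_smul]

open Classical in
/-- The odd function attached to a vector. -/
noncomputable def lines_F (c : X → X) (rr : ι → X) (u : EuclideanSpace ℝ ι) (x : X) : ℝ :=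
  ∑ i, u i * ((if x = rr i then 1 else 0) - (if x = c (rr i) then 1 else 0))

theorem lines_F_odd {c : X → X} (hcc : ∀ x, c (c x) = x) (rr : ι → X)
    (u : EuclideanSpace ℝ ι) (x : X) : lines_F c rr u (c x) = - lines_F c rr u x := by
  classical
  unfold lines_F
  rw [← Finset.sum_neg_distrib]
  refine Finset.sum_congr rfl fun i _ => ?_
  have e1 : (c x = rr i) ↔ (x = c (rr i)) := by
    constructor
    · intro h
      rw [← h, hcc]
    · intro h
      rw [h, hcc]
  have e2 : (c x = c (rr i)) ↔ (x = rr i) := by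
    constructor
    · intro h
      rw [← hcc x, h, hcc]
    · intro h
      rw [h]
  simp only [e1, e2]
  ring

theorem lines_F_rr {c : X → X} {rr : ι → X} (hinj : Function.Injective rr)
    (hne : ∀ i j, rr i ≠ c (rr j)) (u : EuclideanSpace ℝ ι) (i : ι) :
    lines_F c rr u (rr i) = u i := by
  classical
  unfold lines_F
  rw [Finset.sum_eq_single i]
  · rw [if_pos rfl, if_neg (hne i i)]
    ring
  · intro j _ hj
    rw [if_neg (fun h => hj (hinj h).symm), if_neg (hne i j)]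
    ring
  · intro h
    exact absurd (Finset.mem_univ i) h

theorem lines_F_act {c : X → X} (hcc : ∀ x, c (c x) = x) {rr : ι → X}
    (hinj : Function.Injective rr) (hne : ∀ i j, rr i ≠ c (rr j)) (C : Coc Γ ι)
    (hF : ∀ F : X → ℝ, (∀ x, F (c x) = - F x) → ∀ (g : Γ) i,
        F ((g : G) • rr i) = C.ε g i * F (rr (g • i)))
    (u : EuclideanSpace ℝ ι) (g : Γ) (i : ι) :
    lines_F c rr u ((g : G) • rr i) = C.act g⁻¹ u i := by
  rw [hF _ (lines_F_odd hcc rr u), lines_F_rr hinj hne, C.act_apply, inv_inv, C.inv]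

theorem lines_F_eig {c : X → X} (hcc : ∀ x, c (c x) = x) (hcg : ∀ (g : G) x, g • c x = c (g • x))
    {rr : ι → X}
    (hinj : Function.Injective rr) (hne : ∀ i j, rr i ≠ c (rr j)) (C : Coc Γ ι)
    (hF : ∀ F : X → ℝ, (∀ x, F (c x) = - F x) → ∀ (g : Γ) i,
        F ((g : G) • rr i) = C.ε g i * F (rr (g • i)))
    {u : EuclideanSpace ℝ ι} {g : Γ} {s : ℝ} (h : C.act g⁻¹ u = s • u) {y : X}
    (hy : ∃ i, y = rr i ∨ y = c (rr i)) :
    lines_F c rr u ((g : G) • y) = s * lines_F c rr u y := by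
  obtain ⟨i, rfl | rfl⟩ := hy
  · rw [lines_F_act hcc hinj hne C hF, lines_F_rr hinj hne, h]
    rfl
  · rw [hcg, lines_F_odd hcc, lines_F_odd hcc, lines_F_act hcc hinj hne C hF,
      lines_F_rr hinj hne, h]
    show -(s * u i) = s * -(u i)
    ring

end Aux

section Main

variable {G X ι : Type*} [Group G] [Finite G] [MulAction G X] {Γ : Subgroup G} [MulAction Γ ι]
  [Fintype ι]

theorem lines_aux [MulAction.IsPretransitive G X] {c : X → X} (hcc : ∀ x, c (c x) = x)
    (hcg : ∀ (g : G) x, g • c x = c (g • x)) {rr : ι → X}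
    (hinj : Function.Injective rr) (hne : ∀ i j, rr i ≠ c (rr j)) (C : Coc Γ ι)
    (hF : ∀ F : X → ℝ, (∀ x, F (c x) = - F x) → ∀ (g : Γ) i,
        F ((g : G) • rr i) = C.ε g i * F (rr (g • i)))
    {x₀ : X} (hx₀ : ∃ i, x₀ = rr i ∨ x₀ = c (rr i))
    (hΓ : ∀ g : G, (∃ i, g • x₀ = rr i ∨ g • x₀ = c (rr i)) ↔ g ∈ Γ)
    (S : Finset (Submodule ℝ (EuclideanSpace ℝ ι))) (hS : ∀ U ∈ S, C.Inv U ∧ finrank ℝ U = 1) :
    S.card ≤ {H : Subgroup G | H ≤ Γ ∧ H.relIndex Γ = 2 ∧ MulAction.stabilizer G x₀ ≤ H ∧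
          ∀ h ∈ H, h • x₀ ≠ c x₀}.ncard := by
  classical
  -- the value at the base point is not zero
  have hne0 : ∀ u : EuclideanSpace ℝ ι, u ≠ 0 → (∀ h, C.act h u = u ∨ C.act h u = -u) →
      lines_F c rr u x₀ ≠ 0 := by
    intro u hu hsg h0
    apply hu
    ext i
    obtain ⟨g, hg⟩ := MulAction.exists_smul_eq G x₀ (rr i)
    have hgΓ : g ∈ Γ := (hΓ g).1 ⟨i, Or.inl hg⟩
    have h1 : lines_F c rr u (((⟨g, hgΓ⟩ : Γ) : G) • x₀) = 0 := by
      rcases hsg (⟨g, hgΓ⟩ : Γ)⁻¹ with h2 | h2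
      · rw [lines_F_eig hcc hcg hinj hne C hF (s := 1) (by rw [h2, one_smul]) hx₀, h0, mul_zero]
      · rw [lines_F_eig hcc hcg hinj hne C hF (s := -1) (by rw [h2, neg_smul, one_smul]) hx₀, h0,
          mul_zero]
    have h2 : ((⟨g, hgΓ⟩ : Γ) : G) • x₀ = rr i := hg
    rw [h2, lines_F_rr hinj hne] at h1
    exact h1
  have hcx : ∃ i, c x₀ = rr i ∨ c x₀ = c (rr i) := by
    obtain ⟨i, h | h⟩ := hx₀
    · exact ⟨i, Or.inr (by rw [h])⟩
    · exact ⟨i, Or.inl (by rw [h, hcc])⟩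
  obtain ⟨g₁, hg₁⟩ := MulAction.exists_smul_eq G x₀ (c x₀)
  have hg₁Γ : g₁ ∈ Γ := (hΓ g₁).1 (by rw [hg₁]; exact hcx)
  -- elements which act trivially or by the sign
  have hpos : ∀ (u : EuclideanSpace ℝ ι) (g : Γ), u ≠ 0 →
      (∀ h, C.act h u = u ∨ C.act h u = -u) → C.act g u = u →
      lines_F c rr u ((g : G) • x₀) = lines_F c rr u x₀ := by
    intro u g hu hsg h
    have h2 : C.act g⁻¹ u = (1 : ℝ) • u := by
      have h3 := C.act_inv_act g u
      rw [h] at h3
      rw [h3, one_smul]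
    rw [lines_F_eig hcc hcg hinj hne C hF h2 hx₀, one_mul]
  have hneg : ∀ (u : EuclideanSpace ℝ ι) (g : Γ), u ≠ 0 →
      (∀ h, C.act h u = u ∨ C.act h u = -u) → C.act g u = -u →
      lines_F c rr u ((g : G) • x₀) = - lines_F c rr u x₀ := by
    intro u g hu hsg h
    have h2 : C.act g⁻¹ u = (-1 : ℝ) • u := by
      have h3 := C.act_inv_act g u
      rw [h, map_neg] at h3
      rw [neg_smul, one_smul]
      exact neg_eq_iff_eq_neg.1 h3
    rw [lines_F_eig hcc hcg hinj hne C hF h2 hx₀]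
    ring
  have hself : ∀ r : ℝ, r ≠ 0 → r ≠ - r := by
    intro r hr h
    apply hr
    linarith
  -- membership in the pointwise stabiliser
  have hmem : ∀ U ∈ S, ∀ u ∈ U, (∀ x ∈ U, ∃ r : ℝ, r • u = x) → ∀ g : Γ,
      g ∈ lines_K C U ↔ C.act g u = u := by
    intro U _ u hu hall g
    constructor
    · intro h
      exact h u hu
    · intro h x hx
      obtain ⟨r, rfl⟩ := hall x hx
      rw [map_smul, h]
  let f : Submodule ℝ (EuclideanSpace ℝ ι) → Subgroup G := fun U => (lines_K C U).map Γ.subtype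
  have hfmem : ∀ U (g : Γ), (g : G) ∈ f U ↔ g ∈ lines_K C U := by
    intro U g
    constructor
    · intro h
      obtain ⟨k, hk, hkg⟩ := Subgroup.mem_map.1 h
      have : k = g := Subtype.ext hkg
      rwa [← this]
    · intro h
      exact Subgroup.mem_map.2 ⟨g, h, rfl⟩
  have hfle : ∀ U, f U ≤ Γ := by
    intro U g hg
    obtain ⟨k, _, rfl⟩ := Subgroup.mem_map.1 hg
    exact k.2
  have hsub : ((S.image f : Finset (Subgroup G)) : Set (Subgroup G)) ⊆
      {H : Subgroup G | H ≤ Γ ∧ H.relIndex Γ = 2 ∧ MulAction.stabilizer G x₀ ≤ H ∧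
          ∀ h ∈ H, h • x₀ ≠ c x₀} := by
    intro H hH
    rw [Finset.mem_coe, Finset.mem_image] at hH
    obtain ⟨U, hUS, rfl⟩ := hH
    obtain ⟨hUi, hU1⟩ := hS U hUS
    obtain ⟨u, huU, hu0, hall, hsg⟩ := lines_sgn C hUi hU1
    have hF0 := hne0 u hu0 hsg
    refine ⟨hfle U, ?_, ?_, ?_⟩
    · have hK : (f U).subgroupOf Γ = lines_K C U := by
        ext g
        rw [Subgroup.mem_subgroupOf]
        exact hfmem U g
      rw [Subgroup.relIndex, hK, Subgroup.index_eq_two_iff]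
      have ha : C.act (⟨g₁, hg₁Γ⟩ : Γ) u = -u := by
        rcases hsg ⟨g₁, hg₁Γ⟩ with h | h
        · exfalso
          have h2 := hpos u _ hu0 hsg h
          have h3 : ((⟨g₁, hg₁Γ⟩ : Γ) : G) • x₀ = c x₀ := hg₁
          rw [h3, lines_F_odd hcc] at h2
          exact hself _ hF0 h2.symm
        · exact h
      refine ⟨⟨g₁, hg₁Γ⟩, fun b => ?_⟩
      rw [hmem U hUS u huU hall, hmem U hUS u huU hall, C.act_mul, ha, map_neg]
      have hun : u ≠ - u := by
        intro h
        exact hu0 (lines_neg h)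
      rcases hsg b with h | h
      · right
        refine ⟨h, ?_⟩
        rw [h]
        exact fun h2 => hun h2.symm
      · left
        rw [h, neg_neg]
        exact ⟨rfl, fun h2 => hun h2.symm⟩
    · intro g hg
      rw [MulAction.mem_stabilizer_iff] at hg
      have hgΓ : g ∈ Γ := (hΓ g).1 (by rw [hg]; exact hx₀)
      have hgK : (⟨g, hgΓ⟩ : Γ) ∈ lines_K C U := by
        rw [hmem U hUS u huU hall]
        rcases hsg ⟨g, hgΓ⟩ with h | h
        · exact h
        · exfalso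
          have h2 := hneg u _ hu0 hsg h
          have h3 : ((⟨g, hgΓ⟩ : Γ) : G) • x₀ = x₀ := hg
          rw [h3] at h2
          exact hself _ hF0 h2
      exact (hfmem U ⟨g, hgΓ⟩).2 hgK
    · intro g hg hgc
      have hgΓ : g ∈ Γ := hfle U hg
      have hgK := (hfmem U ⟨g, hgΓ⟩).1 hg
      rw [hmem U hUS u huU hall] at hgK
      have h2 := hpos u _ hu0 hsg hgK
      have h3 : ((⟨g, hgΓ⟩ : Γ) : G) • x₀ = c x₀ := hgc
      rw [h3, lines_F_odd hcc] at h2
      exact hself _ hF0 h2.symm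
  have hinjf : Set.InjOn f (S : Set (Submodule ℝ (EuclideanSpace ℝ ι))) := by
    intro U hUS U' hUS' hUU'
    rw [Finset.mem_coe] at hUS hUS'
    obtain ⟨hUi, hU1⟩ := hS U hUS
    obtain ⟨hUi', hU1'⟩ := hS U' hUS'
    obtain ⟨u, huU, hu0, hall, hsg⟩ := lines_sgn C hUi hU1
    obtain ⟨u', huU', hu0', hall', hsg'⟩ := lines_sgn C hUi' hU1'
    have hF0 := hne0 u hu0 hsg
    have hF0' := hne0 u' hu0' hsg'
    have hprop : ∀ i, u i * lines_F c rr u' x₀ = u' i * lines_F c rr u x₀ := by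
      intro i
      obtain ⟨g, hg⟩ := MulAction.exists_smul_eq G x₀ (rr i)
      have hgΓ : g ∈ Γ := (hΓ g).1 ⟨i, Or.inl hg⟩
      have h3 : ((⟨g, hgΓ⟩ : Γ) : G) • x₀ = rr i := hg
      have hiff : C.act (⟨g, hgΓ⟩ : Γ) u = u ↔ C.act (⟨g, hgΓ⟩ : Γ) u' = u' := by
        rw [← hmem U hUS u huU hall, ← hmem U' hUS' u' huU' hall', ← hfmem, ← hfmem]
        rw [hUU']
      rcases hsg ⟨g, hgΓ⟩ with h | h
      · have h' := hiff.1 h
        have e1 := hpos u _ hu0 hsg h
        have e2 := hpos u' _ hu0' hsg' h'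
        rw [h3, lines_F_rr hinj hne] at e1 e2
        rw [e1, e2]
        ring
      · rcases hsg' ⟨g, hgΓ⟩ with h' | h'
        · exfalso
          have h4 := hiff.2 h'
          rw [h4] at h
          exact hu0 (lines_neg h)
        · have e1 := hneg u _ hu0 hsg h
          have e2 := hneg u' _ hu0' hsg' h'
          rw [h3, lines_F_rr hinj hne] at e1 e2
          rw [e1, e2]
          ring
    have hsm : (lines_F c rr u' x₀) • u = (lines_F c rr u x₀) • u' := by
      ext i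
      show lines_F c rr u' x₀ * u i = lines_F c rr u x₀ * u' i
      have := hprop i
      linarith
    apply le_antisymm
    · intro x hx
      obtain ⟨r, rfl⟩ := hall x hx
      apply Submodule.smul_mem
      have h4 : u = ((lines_F c rr u' x₀)⁻¹ * lines_F c rr u x₀) • u' := by
        rw [mul_smul, ← hsm, smul_smul, inv_mul_cancel₀ hF0', one_smul]
      rw [h4]
      exact Submodule.smul_mem _ _ huU'
    · intro x hx
      obtain ⟨r, rfl⟩ := hall' x hx
      apply Submodule.smul_mem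
      have h4 : u' = ((lines_F c rr u x₀)⁻¹ * lines_F c rr u' x₀) • u := by
        rw [mul_smul, hsm, smul_smul, inv_mul_cancel₀ hF0, one_smul]
      rw [h4]
      exact Submodule.smul_mem _ _ huU
  rw [← Finset.card_image_of_injOn hinjf, ← Set.ncard_coe_finset]
  exact Set.ncard_le_ncard hsub (Set.toFinite _)

end Main

variable {G X P Q : Type*} [Group G] [Finite G] [MulAction G X] [Fintype X]
  [MulAction G P] [Fintype P] [MulAction G Q] [Fintype Q]

/-- One-dimensional invariant subspaces give subgroups of index two of the stabiliser of the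
class. -/
theorem card_lines_le [MulAction.IsPretransitive G X] {c : X → X} (hcc : ∀ x, c (c x) = x)
    (hne : ∀ x, c x ≠ x)
    (hcg : ∀ (g : G) x, g • c x = c (g • x)) {π : X → P}
    (hπ : ∀ (g : G) x, π (g • x) = g • π x) (hfib : ∀ x y, π x = π y ↔ y = x ∨ y = c x)
    (hsurj : Function.Surjective π) {κ : P → Q}
    (hκ : ∀ (g : G) p, κ (g • p) = g • κ p) (x₀ : X) :
    letI := clsAct (G := G) hκ (κ (π x₀))
    ∀ (C : Coc (MulAction.stabilizer G (κ (π x₀))) {p : P // κ p = κ (π x₀)})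
      (rr : {p : P // κ p = κ (π x₀)} → X), (∀ i, π (rr i) = i.1) →
      (∀ F : X → ℝ, (∀ x, F (c x) = - F x) → ∀ (g : MulAction.stabilizer G (κ (π x₀))) i,
        F ((g : G) • rr i) = C.ε g i * F (rr (g • i))) →
      ∀ S : Finset (Submodule ℝ (EuclideanSpace ℝ {p : P // κ p = κ (π x₀)})),
        (∀ U ∈ S, C.Inv U ∧ finrank ℝ U = 1) →
        S.card ≤ {H : Subgroup G | H ≤ MulAction.stabilizer G (κ (π x₀)) ∧
          H.relIndex (MulAction.stabilizer G (κ (π x₀))) = 2 ∧ MulAction.stabilizer G x₀ ≤ H ∧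
          ∀ h ∈ H, h • x₀ ≠ c x₀}.ncard := by
  letI := clsAct (G := G) hκ (κ (π x₀))
  intro C rr hrr hF S hS
  have hinj : Function.Injective rr := by
    intro i j hij
    apply Subtype.ext
    rw [← hrr i, ← hrr j, hij]
  have hner : ∀ i j, rr i ≠ c (rr j) := by
    intro i j hij
    have h1 : π (rr j) = π (rr i) := (hfib (rr j) (rr i)).2 (Or.inr hij)
    rw [hrr, hrr] at h1
    have h2 : j = i := Subtype.ext h1
    rw [h2] at hij
    exact hne _ hij.symm
  have hmem : ∀ y : X, κ (π y) = κ (π x₀) ↔ ∃ i, y = rr i ∨ y = c (rr i) := by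
    intro y
    constructor
    · intro h
      refine ⟨⟨π y, h⟩, ?_⟩
      have h1 : π (rr ⟨π y, h⟩) = π y := hrr ⟨π y, h⟩
      exact (hfib _ _).1 h1
    · rintro ⟨i, h⟩
      have h1 : π (rr i) = π y := (hfib _ _).2 h
      rw [← h1, hrr]
      exact i.2
  have hfin : Fintype {p : P // κ p = κ (π x₀)} := Fintype.ofFinite _
  refine lines_aux hcc hcg hinj hner C hF ((hmem x₀).1 rfl) ?_ S hS
  intro g
  rw [← hmem, hπ, hκ, MulAction.mem_stabilizer_iff]

end Pool.MP43e44c
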