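import Pool.Agent.H.MP_43e44c_ag.SB.Core2
import Pool.Agent.H.MP_43e44c_ag.SB.Lines
import Pool.Agent.H.MP_43e44c_ag.SB.SubF
import Pool.Agent.H.MP_43e44c_ag.SB.CM3

/-!
The number of CM types whose Hodge rings are not generated by divisor classes, for CM fields with
two classes.
-/

set_option autoImplicit false

open NumberField Finset Module

namespace Pool.MP43e44c

section Abs

variable {G X P Q : Type*} [Group G] [Finite G] [MulAction G X] [Fintype X]
  [MulAction G P] [Fintype P] [MulAction G Q] [Fintype Q]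

theorem cm2_abs [MulAction.IsPretransitive G X] {c : X → X} (hcc : ∀ x, c (c x) = x)
    (hne : ∀ x, c x ≠ x)
    (hcg : ∀ (g : G) x, g • c x = c (g • x)) {π : X → P}
    (hπ : ∀ (g : G) x, π (g • x) = g • π x) (hfib : ∀ x y, π x = π y ↔ y = x ∨ y = c x)
    (hsurj : Function.Surjective π) {κ : P → Q}
    (hκ : ∀ (g : G) p, κ (g • p) = g • κ p) (hκs : Function.Surjective κ)
    (hproj : ∀ Φ : Finset X, (∀ x, x ∈ Φ ↔ c x ∉ Φ) → ∀ f ∈ lat G c Φ, ∀ q,
      ∃ f' ∈ lat G c Φ, ∀ x, (κ (π x) = q → f' x = f x) ∧ (κ (π x) ≠ q → f' x = 0))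
    {b : ℕ} (hP : Fintype.card P = b * 2) (hQ : Fintype.card Q = 2) (hb2 : 2 ≤ b)
    (x₀ : X) {m : ℕ}
    (hm : {H : Subgroup G | H.index = 4 ∧ MulAction.stabilizer G x₀ ≤ H ∧
        ∀ h ∈ H, h • x₀ ≠ c x₀}.ncard ≤ m) :
    ({Φ : Finset X | (∀ x, x ∈ Φ ↔ c x ∉ Φ) ∧ ∃ f ∈ lat G c Φ, f ≠ 0}.ncard : ℝ)
      ≤ C₂ * ((m : ℝ) / b + Real.sqrt (Real.log b / b)) * 2 ^ (b * 2) := by
  classical
  let act := clsAct (G := G) hκ (κ (π x₀))
  obtain ⟨hpre, hcardι, C, rr, hrr, hF, hmain⟩ := bad_count_gen hcc hne hcg hπ hfib hsurj hκ hκs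
    hproj (b := b) (by rw [hP, hQ]) (r := 2) (by norm_num) (by rw [hQ]) (κ (π x₀))
  have hlines := card_lines_le hcc hne hcg hπ hfib hsurj hκ x₀ C rr hrr hF
  have fΓ : Fintype (MulAction.stabilizer G (κ (π x₀))) := Fintype.ofFinite _
  -- the index of the stabiliser of a class
  have hpreQ : MulAction.IsPretransitive G Q := by
    refine ⟨fun q q' => ?_⟩
    obtain ⟨p, rfl⟩ := hκs q
    obtain ⟨x, rfl⟩ := hsurj p
    obtain ⟨p', rfl⟩ := hκs q'
    obtain ⟨x', rfl⟩ := hsurj p'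
    obtain ⟨g, rfl⟩ := MulAction.exists_smul_eq G x x'
    exact ⟨g, by rw [hπ, hκ]⟩
  have hidx : (MulAction.stabilizer G (κ (π x₀))).index = 2 := by
    rw [MulAction.index_stabilizer_of_transitive, Nat.card_eq_fintype_card, hQ]
  have hsub : {H : Subgroup G | H ≤ MulAction.stabilizer G (κ (π x₀)) ∧
          H.relIndex (MulAction.stabilizer G (κ (π x₀))) = 2 ∧ MulAction.stabilizer G x₀ ≤ H ∧
          ∀ h ∈ H, h • x₀ ≠ c x₀} ⊆ {H : Subgroup G | H.index = 4 ∧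
          MulAction.stabilizer G x₀ ≤ H ∧ ∀ h ∈ H, h • x₀ ≠ c x₀} := by
    rintro H ⟨h1, h2, h3, h4⟩
    refine ⟨?_, h3, h4⟩
    rw [← Subgroup.relIndex_mul_index h1, h2, hidx]
  have hmm : ∀ S : Finset (Submodule ℝ (EuclideanSpace ℝ {p : P // κ p = κ (π x₀)})),
      (∀ U ∈ S, C.Inv U ∧ finrank ℝ U = 1) → S.card ≤ m := by
    intro S hS
    exact ((hlines S hS).trans (Set.ncard_le_ncard hsub (Set.toFinite _))).trans hm
  have hcore := core_count2 C (m := m) (by rw [hcardι]; exact hb2) hmm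
  rw [hcardι] at hcore
  have h1 : ({Φ : Finset X | (∀ x, x ∈ Φ ↔ c x ∉ Φ) ∧ ∃ f ∈ lat G c Φ, f ≠ 0}.ncard : ℝ) *
      2 ^ (2 * b) ≤ ((univ.filter fun v : Fin 2 → {p : P // κ p = κ (π x₀)} → Bool =>
            ∃ U : Submodule ℝ (EuclideanSpace ℝ {p : P // κ p = κ (π x₀)}),
              C.Inv U ∧ U ≠ ⊥ ∧ ∀ j, SOrth (v j) U).card : ℝ) * 2 ^ (b * 2) := by
    rw [hP] at hmain
    exact_mod_cast hmain
  have hpos : (0 : ℝ) < 2 ^ (2 * b) := by positivity
  refine le_of_mul_le_mul_right ?_ hpos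
  refine h1.trans ?_
  calc _ ≤ (C₂ * ((m : ℝ) / b + Real.sqrt (Real.log b / b)) * (2 ^ b) ^ 2) * 2 ^ (b * 2) := by
        gcongr
    _ = C₂ * ((m : ℝ) / b + Real.sqrt (Real.log b / b)) * 2 ^ (b * 2) * 2 ^ (2 * b) := by
        rw [← pow_mul, mul_comm b 2]

end Abs

variable {K : Type*} [Field K] [NumberField K] [IsCMField K]

theorem class_count2 {b : ℕ} (hK : finrank ℚ K = 2 * (b * 2)) {θ : K} (hθ0 : θ ≠ 0)
    (hθ : IsCMField.complexConj K θ = -θ) (χ : K →+* ℂ)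
    (hb : {φ : K →+* ℂ | φ θ * χ θ ∈ GC0 K}.ncard = 2 * b) (hb2 : 2 ≤ b) :
    ({Φ : Finset (K →+* ℂ) | IsCMType Φ ∧ ¬ HodgeRingGeneratedByDivisors Φ}.ncard : ℝ)
        ≤ C₂ * (({F : IntermediateField ℚ K | finrank ℚ F = 4 ∧
          ¬ ∀ x ∈ F, x ∈ maximalRealSubfield K}.ncard : ℝ) / b + Real.sqrt (Real.log b / b))
          * 2 ^ (b * 2) := by
  classical
  let cc : (K →+* ℂ) → (K →+* ℂ) := ComplexEmbedding.conjugate
  have hcc : ∀ x, cc (cc x) = x := conj_conj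
  have hcg : ∀ (g : GG K) x, g • cc x = cc (g • x) := hcgK
  have hne : ∀ x, cc x ≠ x := conj_ne
  let P := Quotient (pairSetoid cc hcc)
  let actP : MulAction (GG K) P := pairAction cc hcc hcg
  let Q := Cls (G := GG K) hcc hcg
  let π : (K →+* ℂ) → P := Quotient.mk (pairSetoid cc hcc)
  have hπ : ∀ (g : GG K) x, π (g • x) = g • π x := fun _ _ => rfl
  have hfib : ∀ x y, π x = π y ↔ y = x ∨ y = cc x := by
    intro x y
    exact Quotient.eq
  have hsurj : Function.Surjective π := Quotient.exists_rep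
  have : Finite P := Finite.of_surjective π hsurj
  let fP : Fintype P := Fintype.ofFinite P
  have : Finite Q := inferInstance
  let fQ : Fintype Q := Fintype.ofFinite Q
  let κ : P → Q := Quotient.lift (fun x => Quotient.mk (clsSetoid hcc hcg) x) (by
    rintro x y (h | h)
    · rw [h]
    · rw [h]
      exact Quotient.sound (cls_conj hcc hcg x))
  have hκ : ∀ (g : GG K) p, κ (g • p) = g • κ p := by
    rintro g ⟨x⟩
    rfl
  have hκs : Function.Surjective κ := by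
    rintro ⟨x⟩
    exact ⟨π x, rfl⟩
  obtain ⟨x₀⟩ : Nonempty (K →+* ℂ) := inferInstance
  have hproj : ∀ Φ : Finset (K →+* ℂ), (∀ x, x ∈ Φ ↔ cc x ∉ Φ) → ∀ f ∈ lat (GG K) cc Φ, ∀ q : Q,
      ∃ f' ∈ lat (GG K) cc Φ, ∀ x, (κ (π x) = q → f' x = f x) ∧ (κ (π x) ≠ q → f' x = 0) := by
    intro Φ _ f hf q
    refine ⟨_, proj_mem_lat hcc hcg hne hf q, fun x => ⟨fun h => if_pos h, fun h => if_neg h⟩⟩
  -- sizes
  have hfibre : ∀ p : P, (univ.filter fun x => π x = p).card = 2 := by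
    intro p
    obtain ⟨x, rfl⟩ := hsurj p
    have h3 : (univ.filter fun y => π y = π x) = {x, cc x} := by
      ext y
      simp only [mem_filter, mem_univ, true_and, mem_insert, mem_singleton]
      rw [eq_comm, hfib]
    rw [h3, card_pair (Ne.symm (hne x))]
  have hcardP : Fintype.card P = b * 2 := by
    have h1 : Fintype.card (K →+* ℂ) = 2 * Fintype.card P := by
      rw [← card_univ, card_eq_sum_card_fiberwise (f := π) (t := univ)
        (fun _ _ => mem_coe.2 (mem_univ _)), sum_congr rfl fun p _ => hfibre p, sum_const,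
        card_univ, smul_eq_mul, mul_comm]
    rw [NumberField.Embeddings.card K ℂ, hK] at h1
    omega
  have hclsb : ∀ x₀ : K →+* ℂ, {y : K →+* ℂ | mkc hcc hcg y = mkc hcc hcg x₀}.ncard = 2 * b :=
    ncard_cl_eq hθ0 hθ χ hb
  have hcardQ : Fintype.card Q = 2 := by
    have h1 := card_cls_mul (G := GG K) hcc hcg (hclsb x₀)
    rw [card_embeddings, hK, Nat.card_eq_fintype_card] at h1
    have h2 : Fintype.card Q * (2 * b) = 2 * (2 * b) := by
      rw [h1]; ring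
    exact Nat.eq_of_mul_eq_mul_right (by omega) h2
  have hmain := cm2_abs hcc hne hcg hπ hfib hsurj hκ hκs hproj hcardP hcardQ hb2 x₀
    (ncard_subgroups_le x₀ 4)
  refine le_trans ?_ hmain
  exact_mod_cast Set.ncard_le_ncard bad_subset_lat (Set.toFinite _)

/-- The estimate for at least three classes. -/
theorem cm2_three {b c : ℕ} (hK : finrank ℚ K = 2 * (b * c)) {θ : K} (hθ0 : θ ≠ 0)
    (hθ : IsCMField.complexConj K θ = -θ) (χ : K →+* ℂ)
    (hcl : {φ : K →+* ℂ | φ θ * χ θ ∈ GC0 K}.ncard = 2 * b) (hc3 : 3 ≤ c) (hbpos : 0 < b) :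
    ({Φ : Finset (K →+* ℂ) | IsCMType Φ ∧ ¬ HodgeRingGeneratedByDivisors Φ}.ncard : ℝ)
        ≤ (4 + 2 * C₁) * Real.sqrt (Real.log (b * c : ℕ) / (b * c : ℕ)) * 2 ^ (b * c) := by
  classical
  have hC := C₁_pos
  set B : Set (Finset (K →+* ℂ)) := {Φ | IsCMType Φ ∧ ¬ HodgeRingGeneratedByDivisors Φ} with hB
  obtain ⟨-, hcount, -⟩ := class_count hK hθ0 hθ χ hcl
  have hn3 : 3 ≤ b * c := by nlinarith
  have hcount3 := class_count3 hK hθ0 hθ χ hcl hc3
  rw [← hB] at hcount hcount3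
  have hbR : (1 : ℝ) ≤ b := by exact_mod_cast hbpos
  have hcR : (3 : ℝ) ≤ c := by exact_mod_cast hc3
  obtain ⟨x, hx⟩ : ∃ x : ℝ, x = ((b * c : ℕ) : ℝ) := ⟨_, rfl⟩
  have hxbc : x = b * c := by rw [hx]; push_cast; ring
  have hx3 : 3 ≤ x := by rw [hx]; exact_mod_cast hn3
  have hx0 : 0 < x := by linarith
  have hlog : 1 ≤ Real.log x := by
    rw [Real.le_log_iff_exp_le hx0]
    have := Real.exp_one_lt_three
    linarith
  rw [← hx]
  have hsqrt0 : 0 ≤ Real.sqrt (Real.log x / x) := Real.sqrt_nonneg _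
  by_cases hcase : b * c ≤ 2 ^ c
  · -- many classes
    have hcaseR : x ≤ 2 ^ c := by rw [hx]; exact_mod_cast hcase
    have h5 : (B.ncard : ℝ) * 4 ^ c ≤ 2 ^ (b * c + 1) * (b + 2 ^ c) := by exact_mod_cast hcount
    have h6 : (4 : ℝ) ^ c = 2 ^ c * 2 ^ c := by rw [← mul_pow]; norm_num
    have h7 : (b : ℝ) ≤ 2 ^ c := by
      refine le_trans ?_ hcaseR
      rw [hxbc]
      nlinarith
    have hp : (0 : ℝ) < 2 ^ c := by positivity
    have h8 : (B.ncard : ℝ) * 2 ^ c ≤ 4 * 2 ^ (b * c) := by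
      have h9 : ((B.ncard : ℝ) * 2 ^ c) * 2 ^ c ≤ (4 * 2 ^ (b * c)) * 2 ^ c := by
        calc ((B.ncard : ℝ) * 2 ^ c) * 2 ^ c = (B.ncard : ℝ) * 4 ^ c := by rw [h6]; ring
          _ ≤ 2 ^ (b * c + 1) * (b + 2 ^ c) := h5
          _ ≤ 2 ^ (b * c + 1) * (2 ^ c + 2 ^ c) := by gcongr
          _ = (4 * 2 ^ (b * c)) * 2 ^ c := by ring
      exact le_of_mul_le_mul_right h9 hp
    have h9 : (B.ncard : ℝ) * x ≤ 4 * 2 ^ (b * c) := by
      refine le_trans ?_ h8
      gcongr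
    have h10 : 1 / x ≤ Real.sqrt (Real.log x / x) := by
      apply Real.le_sqrt_of_sq_le
      rw [div_pow, one_pow, sq]
      rw [div_le_div_iff₀ (by positivity) hx0]
      nlinarith
    calc (B.ncard : ℝ) = ((B.ncard : ℝ) * x) * (1 / x) := by field_simp
      _ ≤ (4 * 2 ^ (b * c)) * (1 / x) := by gcongr
      _ ≤ (4 * 2 ^ (b * c)) * Real.sqrt (Real.log x / x) := by gcongr
      _ = 4 * Real.sqrt (Real.log x / x) * 2 ^ (b * c) := by ring
      _ ≤ (4 + 2 * C₁) * Real.sqrt (Real.log x / x) * 2 ^ (b * c) := by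
        gcongr
        linarith
  · -- large classes
    push Not at hcase
    have hcaseR : (2 : ℝ) ^ c < x := by rw [hx]; exact_mod_cast hcase
    have h5 : (c : ℝ) * Real.log 2 < Real.log x := by
      rw [← Real.log_pow]
      exact Real.log_lt_log (by positivity) hcaseR
    have h6 : (1 / 4 : ℝ) < Real.log 2 := by
      have := Real.log_two_gt_d9
      linarith
    have h7 : 1 / (b : ℝ) ≤ 4 * (Real.log x / x) := by
      have h9 : (c : ℝ) ≤ 4 * Real.log x := by nlinarith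
      rw [← mul_div_assoc, div_le_div_iff₀ (by positivity) hx0, one_mul]
      calc x = b * c := hxbc
        _ ≤ b * (4 * Real.log x) := by gcongr
        _ = 4 * Real.log x * b := by ring
    have h8 : 1 / Real.sqrt b ≤ 2 * Real.sqrt (Real.log x / x) := by
      rw [← Real.sqrt_one, ← Real.sqrt_div zero_le_one]
      calc Real.sqrt (1 / (b : ℝ)) ≤ Real.sqrt (4 * (Real.log x / x)) := Real.sqrt_le_sqrt h7
        _ = 2 * Real.sqrt (Real.log x / x) := by
          rw [Real.sqrt_mul (by norm_num), show (4 : ℝ) = 2 ^ 2 by norm_num,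
            Real.sqrt_sq (by norm_num)]
    have hsb : 0 < Real.sqrt b := Real.sqrt_pos.2 (by linarith)
    calc (B.ncard : ℝ) = ((B.ncard : ℝ) * Real.sqrt b) * (1 / Real.sqrt b) := by field_simp
      _ ≤ (C₁ * 2 ^ (b * c)) * (1 / Real.sqrt b) := by gcongr
      _ ≤ (C₁ * 2 ^ (b * c)) * (2 * Real.sqrt (Real.log x / x)) := by gcongr
      _ = 2 * C₁ * Real.sqrt (Real.log x / x) * 2 ^ (b * c) := by ring
      _ ≤ (4 + 2 * C₁) * Real.sqrt (Real.log x / x) * 2 ^ (b * c) := by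
        gcongr
        linarith

/-- The estimate for two classes. -/
theorem cm2_two {b s N : ℕ} (hb2 : 2 ≤ b)
    (h : (N : ℝ) ≤ C₂ * ((s : ℝ) / b + Real.sqrt (Real.log b / b)) * 2 ^ (b * 2)) :
    (N : ℝ) ≤ 2 * C₂ * ((s : ℝ) / (b * 2 : ℕ) + Real.sqrt (Real.log (b * 2 : ℕ) / (b * 2 : ℕ)))
      * 2 ^ (b * 2) := by
  have hC := C₂_pos
  have hbR : (2 : ℝ) ≤ b := by exact_mod_cast hb2
  have hb0 : (0 : ℝ) < b := by linarith
  refine h.trans ?_
  have e : ((b * 2 : ℕ) : ℝ) = 2 * b := by push_cast; ring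
  rw [e]
  have h1 : Real.sqrt (Real.log b / b) ≤ 2 * Real.sqrt (Real.log (2 * b) / (2 * b)) := by
    have h2 : Real.log b ≤ Real.log (2 * b) := Real.log_le_log hb0 (by linarith)
    have h3 : 0 ≤ Real.log b := Real.log_nonneg (by linarith)
    calc Real.sqrt (Real.log b / b) ≤ Real.sqrt (4 * (Real.log (2 * b) / (2 * b))) := by
          apply Real.sqrt_le_sqrt
          rw [div_le_iff₀ hb0]
          have h4 : 4 * (Real.log (2 * b) / (2 * b)) * b = 2 * Real.log (2 * b) := by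
            field_simp
            ring
          rw [h4]
          linarith
      _ = 2 * Real.sqrt (Real.log (2 * b) / (2 * b)) := by
          rw [Real.sqrt_mul (by norm_num), show (4 : ℝ) = 2 ^ 2 by norm_num,
            Real.sqrt_sq (by norm_num)]
  have h5 : (s : ℝ) / b = 2 * (s / (2 * b)) := by field_simp
  calc C₂ * ((s : ℝ) / b + Real.sqrt (Real.log b / b)) * 2 ^ (b * 2)
      ≤ C₂ * (2 * (s / (2 * b)) + 2 * Real.sqrt (Real.log (2 * b) / (2 * b))) * 2 ^ (b * 2) := by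
        rw [h5]
        gcongr
    _ = _ := by ring

/-- The uniform bound, for the Galois closure of degree at least four. -/
theorem uniform_count2 : ∃ C : ℝ, ∀ {K : Type*} [Field K] [NumberField K] [IsCMField K] {n : ℕ},
    finrank ℚ K = 2 * n → 4 * finrank ℚ (GC0 K) ≤ finrank ℚ (GC K) →
    ({Φ : Finset (K →+* ℂ) | IsCMType Φ ∧ ¬ HodgeRingGeneratedByDivisors Φ}.ncard : ℝ)
        ≤ C * (({F : IntermediateField ℚ K | finrank ℚ F = 4 ∧
          ¬ ∀ x ∈ F, x ∈ maximalRealSubfield K}.ncard : ℝ) / n + Real.sqrt (Real.log n / n))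
          * 2 ^ n := by
  classical
  refine ⟨4 + 2 * C₁ + 2 * C₂, fun {K} _ _ _ {n} hK hle => ?_⟩
  have hC := C₁_pos
  have hC2 := C₂_pos
  obtain ⟨s, hs⟩ : ∃ s, s = {F : IntermediateField ℚ K | finrank ℚ F = 4 ∧
          ¬ ∀ x ∈ F, x ∈ maximalRealSubfield K}.ncard := ⟨_, rfl⟩
  rw [← hs]
  obtain ⟨B, hB⟩ : ∃ B : Set (Finset (K →+* ℂ)),
    B = {Φ | IsCMType Φ ∧ ¬ HodgeRingGeneratedByDivisors Φ} := ⟨_, rfl⟩
  rw [← hB]
  rcases Set.eq_empty_or_nonempty B with hempty | ⟨Φ, hΦB⟩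
  · rw [hempty, Set.ncard_empty, Nat.cast_zero]
    positivity
  have hΦ : IsCMType Φ := by
    rw [hB] at hΦB
    exact hΦB.1
  obtain ⟨χ⟩ : Nonempty (K →+* ℂ) := inferInstance
  obtain ⟨θ, hθ0, hθ⟩ := exists_purely_imaginary K
  -- the size of the classes is even
  have h2 : ∃ b, {y : K →+* ℂ | cl y = cl χ}.ncard = 2 * b := by
    have h3 := sum_half conj_conj hΦ (fun y => if cl y = cl χ then 1 else 0) (fun y => by
      have h4 : cl (ComplexEmbedding.conjugate y) = cl y := mkc_conj (G := GG K) conj_conj hcgK y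
      rw [h4])
    have h4 : (({y : K →+* ℂ | cl y = cl χ}.ncard : ℕ) : ℤ)
        = ∑ y : K →+* ℂ, if cl y = cl χ then 1 else 0 := by
      rw [sum_boole, ← Set.ncard_coe_finset]
      congr 2
      ext y
      simp
    refine ⟨(Φ.filter fun y => cl y = cl χ).card, ?_⟩
    rw [h3, sum_boole] at h4
    exact_mod_cast h4
  obtain ⟨b, hb⟩ := h2
  have h1 := card_cls_mul (G := GG K) conj_conj hcgK hb
  rw [card_embeddings, hK] at h1
  obtain ⟨c, hc⟩ : ∃ c, c = Nat.card (Cls (G := GG K) (X := K →+* ℂ) conj_conj hcgK) := ⟨_, rfl⟩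
  rw [← hc] at h1
  have hn : n = b * c := by
    have : 2 * n = 2 * (b * c) := by rw [← h1]; ring
    omega
  have hcl : {φ : K →+* ℂ | φ θ * χ θ ∈ GC0 K}.ncard = 2 * b := by
    rw [← hb]
    congr 1
    ext y
    exact (cl_eq_iff hθ0 hθ y χ).symm
  subst hn
  obtain ⟨hgc, hcount, -⟩ := class_count hK hθ0 hθ χ hcl
  have hGC0 : 0 < finrank ℚ (GC0 K) := finrank_pos
  have hc2 : 2 ≤ c := by
    by_contra hcon
    have h3 : 2 ^ c ≤ 2 ^ 1 := Nat.pow_le_pow_right (by norm_num) (by omega)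
    have h4 : 2 ^ c * finrank ℚ (GC0 K) ≤ 2 ^ 1 * finrank ℚ (GC0 K) := Nat.mul_le_mul_right _ h3
    omega
  have hbpos : 0 < b := by
    rcases Nat.eq_zero_or_pos b with rfl | h
    · rw [zero_mul, mul_zero] at hK
      exact absurd hK finrank_pos.ne'
    · exact h
  rcases Nat.lt_or_ge c 3 with hc3 | hc3
  · have hc' : c = 2 := by omega
    clear hc
    subst hc'
    rcases Nat.lt_or_ge b 2 with hb2 | hb2
    · have hb' : b = 1 := by omega
      clear hb
      subst hb'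
      rw [← hB] at hcount
      have h5 : B.ncard ≤ 2 := by
        norm_num at hcount
        omega
      have h6 : (B.ncard : ℝ) ≤ 2 := by exact_mod_cast h5
      refine h6.trans ?_
      have h7 : (1 / 2 : ℝ) ≤ Real.sqrt (Real.log ((1 * 2 : ℕ) : ℝ) / ((1 * 2 : ℕ) : ℝ)) := by
        apply Real.le_sqrt_of_sq_le
        have := Real.log_two_gt_d9
        norm_num
        linarith
      have h8 : (0 : ℝ) ≤ (s : ℝ) / ((1 * 2 : ℕ) : ℝ) := by positivity
      calc (2 : ℝ) ≤ 4 * (0 + 1 / 2) * 2 ^ (1 * 2) := by norm_num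
        _ ≤ (4 + 2 * C₁ + 2 * C₂) * ((s : ℝ) / ((1 * 2 : ℕ) : ℝ) +
            Real.sqrt (Real.log ((1 * 2 : ℕ) : ℝ) / ((1 * 2 : ℕ) : ℝ))) * 2 ^ (1 * 2) := by
          gcongr
          linarith
    · have h5 := class_count2 hK hθ0 hθ χ hcl hb2
      rw [← hB, ← hs] at h5
      refine (cm2_two hb2 h5).trans ?_
      gcongr
      linarith
  · have h5 := cm2_three hK hθ0 hθ χ hcl hc3 hbpos
    rw [← hB] at h5
    refine h5.trans ?_
    have h8 : (0 : ℝ) ≤ (s : ℝ) / ((b * c : ℕ) : ℝ) := by positivity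
    have h9 : 4 + 2 * C₁ ≤ 4 + 2 * C₁ + 2 * C₂ := by linarith
    have h10 : Real.sqrt (Real.log (b * c : ℕ) / (b * c : ℕ)) ≤ (s : ℝ) / ((b * c : ℕ) : ℝ) +
      Real.sqrt (Real.log (b * c : ℕ) / (b * c : ℕ)) := by linarith
    have h11 : 0 ≤ 4 + 2 * C₁ + 2 * C₂ := by linarith
    exact mul_le_mul_of_nonneg_right (mul_le_mul h9 h10 (Real.sqrt_nonneg _) h11) (by positivity)

end Pool.MP43e44c
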