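import Pool.Agent.H.MP_43e44c_ag.SB.Uni

/-!
The number of triples of sign vectors orthogonal to an invariant subspace.
-/

set_option autoImplicit false

open Finset Module

namespace Pool.MP43e44c

/-- The constant. -/
noncomputable def C₁ : ℝ := |num_bound.choose| + 1

theorem C₁_pos : 0 < C₁ := by unfold C₁; positivity

/-- Numerical bounds for the factor. -/
theorem exp_seventeen_le : Real.exp (17 / 32) ≤ 1702 / 1000 := by
  have h1 := Real.exp_bound' (x := 17 / 32) (by norm_num) (by norm_num) (n := 6) (by norm_num)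
  refine h1.trans ?_
  simp only [Finset.sum_range_succ, Finset.sum_range_zero, Nat.factorial]
  norm_num

theorem exp_neg_two_le : Real.exp (-2) ≤ 136 / 1000 := by
  have h1 : Real.exp (-2) = (Real.exp 1)⁻¹ ^ 2 := by
    rw [← Real.exp_neg, ← Real.exp_nat_mul]
    norm_num
  have h2 : (2.7182818283 : ℝ) < Real.exp 1 := Real.exp_one_gt_d9
  have h3 : (Real.exp 1)⁻¹ ≤ (2.7182818283)⁻¹ := inv_anti₀ (by norm_num) h2.le
  rw [h1]
  refine (pow_le_pow_left₀ (by positivity) h3 2).trans ?_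
  norm_num

theorem exp_mul_exp : Real.exp ((1 / 4) ^ 2 / 2) * Real.exp (1 / 2) = Real.exp (17 / 32) := by
  rw [← Real.exp_add]
  norm_num

theorem kappa_le {k : ℝ} (hk : 2 ≤ k) :
    Real.exp ((1 / 4) ^ 2 / 2) * (Real.exp (1 / 2) * gk k) ≤ 97 / 100 := by
  rw [← mul_assoc, exp_mul_exp]
  have h1 := gk_le_two hk
  have h2 := exp_neg_two_le
  have h3 := exp_seventeen_le
  calc Real.exp (17 / 32) * gk k ≤ (1702 / 1000) * (568 / 1000) := by
        gcongr
        · exact gk_nonneg k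
        · linarith
    _ ≤ 97 / 100 := by norm_num

theorem kappa_le_sqrt {k : ℝ} (hk : 2 ≤ k) :
    Real.exp ((1 / 4) ^ 2 / 2) * (Real.exp (1 / 2) * gk k) ≤ 13 / 5 / Real.sqrt k := by
  rw [← mul_assoc, exp_mul_exp]
  have h1 := gk_le_sqrt hk
  have h3 := exp_seventeen_le
  have h0 : 0 < Real.sqrt k := Real.sqrt_pos.2 (by linarith)
  calc Real.exp (17 / 32) * gk k ≤ (1702 / 1000) * (3 / 2 / Real.sqrt k) := by
        gcongr
        exact gk_nonneg k
    _ = (1702 / 1000 * (3 / 2)) / Real.sqrt k := by ring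
    _ ≤ 13 / 5 / Real.sqrt k := by
        gcongr
        norm_num

open Classical in
theorem core_count {Γ ι : Type*} [Group Γ] [Fintype Γ] [MulAction Γ ι] [Fintype ι]
    [DecidableEq ι] [MulAction.IsPretransitive Γ ι] [Nonempty ι] (C : Coc Γ ι) :
    ((univ.filter fun v : Fin 3 → ι → Bool => ∃ U : Submodule ℝ (EuclideanSpace ℝ ι),
        C.Inv U ∧ U ≠ ⊥ ∧ ∀ j, SOrth (v j) U).card : ℝ) * Real.sqrt (Fintype.card ι)
      ≤ C₁ * (2 ^ Fintype.card ι) ^ 3 := by
  obtain ⟨R, hR1, hR2, hR3, hR4⟩ := C.exists_reps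
  set b := Fintype.card ι with hb
  have hb0 : 0 < b := Fintype.card_pos
  have hbR : (0 : ℝ) < b := by exact_mod_cast hb0
  let S : Submodule ℝ (EuclideanSpace ℝ ι) → Finset (Fin 3 → ι → Bool) := fun U =>
    univ.filter fun v : Fin 3 → ι → Bool => ∃ T ∈ C.Hom U, T ≠ 0 ∧ ∀ j,
        SOrth (v j) (LinearMap.range (T : U →ₗ[ℝ] EuclideanSpace ℝ ι))
  have hsub : (univ.filter fun v : Fin 3 → ι → Bool => ∃ U : Submodule ℝ (EuclideanSpace ℝ ι),
        C.Inv U ∧ U ≠ ⊥ ∧ ∀ j, SOrth (v j) U) ⊆ R.biUnion S := by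
    intro v hv
    obtain ⟨U, hU, hU0, hv⟩ := (mem_filter.1 hv).2
    obtain ⟨W, hWU, hW⟩ := C.exists_mnl hU hU0
    obtain ⟨U₀, hU₀, T, hT, hT0, hTr⟩ := hR3 W hW
    rw [mem_biUnion]
    refine ⟨U₀, hU₀, mem_filter.2 ⟨mem_univ _, T, hT, hT0, fun j x hx => ?_⟩⟩
    rw [hTr] at hx
    exact hv j x (hWU hx)
  -- small subspaces
  have hsmall : ∀ U ∈ R, 2 * finrank ℝ U ≤ b →
      ((S U).card : ℝ) * (b * Real.sqrt b) ≤ num_bound.choose * finrank ℝ U * (2 ^ b) ^ 3 := by
    intro U hU h2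
    have hm := hR1 U hU
    have hnt : Nontrivial U := Submodule.nontrivial_iff_ne_bot.2 hm.2.1
    have hN0 : 0 < finrank ℝ U := finrank_pos
    set N := finrank ℝ U with hN
    have hNR : (0 : ℝ) < N := by exact_mod_cast hN0
    set k : ℝ := b / N with hk
    have hc : (b : ℝ) = k * N := by rw [hk]; field_simp
    have hk2 : 2 ≤ k := by
      rw [hk, le_div_iff₀ hNR]
      exact_mod_cast h2
    have hntH : Nontrivial (C.Hom U) := by
      refine ⟨⟨⟨U.subtypeL, C.subtypeL_mem_hom U⟩, 0, fun h1 => ?_⟩⟩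
      exact Coc.subtypeL_ne_zero hm.2.1 (congrArg Subtype.val h1)
    have hh1 : 1 ≤ finrank ℝ (C.Hom U) := finrank_pos (R := ℝ) (M := C.Hom U)
    have h3 := card_triple_le C hm hN.symm hc hk2 rfl
    have h4 := num_bound.choose_spec b N (finrank ℝ (C.Hom U)) k
      (Real.exp ((1 / 4) ^ 2 / 2) * (Real.exp (1 / 2) * gk k)) hh1 (C.finrank_hom_le hm) h2
      (C.finrank_hom_mul_le hm) hc
      (mul_nonneg (Real.exp_pos _).le (mul_nonneg (Real.exp_pos _).le (gk_nonneg k)))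
      (kappa_le hk2) (kappa_le_sqrt hk2)
    calc ((S U).card : ℝ) * (b * Real.sqrt b)
        ≤ ((2 ^ b) ^ 3 * (2 * (finrank ℝ (C.Hom U) : ℕ) * (1 + 8 * k) ^ (finrank ℝ (C.Hom U) - 1) *
          (Real.exp ((1 / 4) ^ 2 / 2) * (Real.exp (1 / 2) * gk k)) ^ (3 * N))) *
          (b * Real.sqrt b) := by gcongr
      _ = (2 ^ b) ^ 3 * (2 * (finrank ℝ (C.Hom U) : ℕ) * (1 + 8 * k) ^ (finrank ℝ (C.Hom U) - 1) *
          (Real.exp ((1 / 4) ^ 2 / 2) * (Real.exp (1 / 2) * gk k)) ^ (3 * N) *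
          (b * Real.sqrt b)) := by ring
      _ ≤ (2 ^ b) ^ 3 * (num_bound.choose * N) := by gcongr
      _ = _ := by ring
  -- large subspaces
  have hlarge : ∀ U ∈ R, b < 2 * finrank ℝ U →
      ((S U).card : ℝ) * Real.sqrt b ≤ (2 ^ b) ^ 3 := by
    intro U hU h2
    have hm := hR1 U hU
    have h3 : S U ⊆ Fintype.piFinset fun _ : Fin 3 => univ.filter fun w : ι → Bool => SOrth w U := by
      intro v hv
      obtain ⟨T, hT, hT0, hv⟩ := (mem_filter.1 hv).2
      have hTn : ‖T‖ ≠ 0 := fun h1 => hT0 (by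
        ext1 x
        have h2 := C.norm_hom hm hT x
        rw [h1, zero_mul, norm_eq_zero] at h2
        exact h2)
      have hinj : Function.Injective (T : U →ₗ[ℝ] EuclideanSpace ℝ ι) := by
        intro x y hxy
        have h1 : ‖T (x - y)‖ = 0 := by
          rw [map_sub]
          have : T x = T y := hxy
          rw [this, sub_self, norm_zero]
        rw [C.norm_hom hm hT] at h1
        have h4 := (mul_eq_zero.1 h1).resolve_left hTn
        rw [norm_eq_zero, sub_eq_zero] at h4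
        exact h4
      set W := LinearMap.range (T : U →ₗ[ℝ] EuclideanSpace ℝ ι) with hW
      have hfr : finrank ℝ W = finrank ℝ U := LinearMap.finrank_range_of_inj hinj
      have hint : W ⊓ U ≠ ⊥ := by
        intro h5
        have h6 := Submodule.finrank_sup_add_finrank_inf_eq W U
        rw [h5, finrank_bot, add_zero, hfr] at h6
        have h7 := Submodule.finrank_le (W ⊔ U)
        rw [finrank_euclideanSpace, ← hb] at h7
        omega
      have hWinv : C.Inv (W ⊓ U) := fun g x hx => ⟨C.inv_range hm.1 hT g x hx.1, hm.1 g x hx.2⟩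
      have h5 := hm.2.2 (W ⊓ U) inf_le_right hWinv hint
      have h6 : U ≤ W := by rw [← h5]; exact inf_le_left
      rw [Fintype.mem_piFinset]
      intro j
      exact mem_filter.2 ⟨mem_univ _, fun x hx => hv j x (h6 hx)⟩
    have h4 := card_le_card h3
    rw [Fintype.card_piFinset, prod_const, card_univ, Fintype.card_fin] at h4
    have h5 := card_sorth_le U
    rw [← hb] at h5
    set a := (univ.filter fun w : ι → Bool => SOrth w U).card with ha
    have h6 : (a : ℝ) * Real.sqrt b ≤ 2 ^ b := by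
      have h7 : Real.sqrt b ≤ 2 ^ finrank ℝ U := by
        rw [Real.sqrt_le_left (by positivity), ← pow_mul]
        have h8 : b < 2 ^ b := Nat.lt_two_pow_self
        have h9 : (2 : ℕ) ^ b ≤ 2 ^ (finrank ℝ U * 2) := Nat.pow_le_pow_right two_pos (by omega)
        exact_mod_cast (h8.le.trans h9)
      calc (a : ℝ) * Real.sqrt b ≤ a * 2 ^ finrank ℝ U := by gcongr
        _ ≤ 2 ^ b := by exact_mod_cast h5
    have h7 : (a : ℝ) ≤ 2 ^ b := by
      have h8 : a ≤ 2 ^ b := le_trans (Nat.le_mul_of_pos_right _ (by positivity)) h5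
      exact_mod_cast h8
    calc ((S U).card : ℝ) * Real.sqrt b ≤ (a : ℝ) ^ 3 * Real.sqrt b := by
          gcongr
          exact_mod_cast h4
      _ = (a : ℝ) ^ 2 * (a * Real.sqrt b) := by ring
      _ ≤ (2 ^ b) ^ 2 * 2 ^ b := by gcongr
      _ = (2 ^ b) ^ 3 := by ring
  -- sum
  let R₁ := R.filter fun U : Submodule ℝ (EuclideanSpace ℝ ι) => 2 * finrank ℝ U ≤ b
  let R₂ := R.filter fun U : Submodule ℝ (EuclideanSpace ℝ ι) => ¬ 2 * finrank ℝ U ≤ b
  have hR₂ : R₂.card ≤ 1 := by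
    by_contra h
    push Not at h
    obtain ⟨U, hU, W, hW, hne⟩ := one_lt_card.1 h
    rw [mem_filter] at hU hW
    have h1 : finrank ℝ U + finrank ℝ W ≤ ∑ V ∈ R, finrank ℝ V := by
      have h2 := sum_pair (f := fun V : Submodule ℝ (EuclideanSpace ℝ ι) => finrank ℝ V) hne
      refine le_trans (le_of_eq h2.symm) (sum_le_sum_of_subset ?_)
      intro V hV
      rcases mem_insert.1 hV with h2 | h2
      · rw [h2]; exact hU.1
      · rw [mem_singleton.1 h2]; exact hW.1
    omega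
  have h1 : ((univ.filter fun v : Fin 3 → ι → Bool => ∃ U : Submodule ℝ (EuclideanSpace ℝ ι),
        C.Inv U ∧ U ≠ ⊥ ∧ ∀ j, SOrth (v j) U).card : ℝ) ≤ ∑ U ∈ R, ((S U).card : ℝ) := by
    have h2 := (card_le_card hsub).trans card_biUnion_le
    exact_mod_cast h2
  have h2 : ∑ U ∈ R₁, ((S U).card : ℝ) * Real.sqrt b ≤ |num_bound.choose| * (2 ^ b) ^ 3 := by
    have h3 : (∑ U ∈ R₁, ((S U).card : ℝ) * Real.sqrt b) * b
        ≤ (|num_bound.choose| * (2 ^ b) ^ 3) * b := by
      rw [sum_mul]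
      calc ∑ U ∈ R₁, ((S U).card : ℝ) * Real.sqrt b * b
          ≤ ∑ U ∈ R₁, |num_bound.choose| * (2 ^ b) ^ 3 * finrank ℝ U := by
            refine sum_le_sum fun U hU => ?_
            rw [mem_filter] at hU
            have h4 := hsmall U hU.1 hU.2
            have h5 : num_bound.choose * (finrank ℝ U : ℝ) * (2 ^ b) ^ 3
                ≤ |num_bound.choose| * (finrank ℝ U : ℝ) * (2 ^ b) ^ 3 := by
              gcongr
              exact le_abs_self _
            linarith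
        _ = |num_bound.choose| * (2 ^ b) ^ 3 * ∑ U ∈ R₁, (finrank ℝ U : ℝ) := by rw [mul_sum]
        _ ≤ (|num_bound.choose| * (2 ^ b) ^ 3) * b := by
            gcongr
            have h6 : ∑ U ∈ R₁, finrank ℝ U ≤ b :=
              (sum_le_sum_of_subset (filter_subset _ _)).trans hR4
            exact_mod_cast h6
    exact le_of_mul_le_mul_right h3 hbR
  have h3 : ∑ U ∈ R₂, ((S U).card : ℝ) * Real.sqrt b ≤ (2 ^ b) ^ 3 := by
    calc ∑ U ∈ R₂, ((S U).card : ℝ) * Real.sqrt b ≤ ∑ _U ∈ R₂, ((2 : ℝ) ^ b) ^ 3 := by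
          refine sum_le_sum fun U hU => ?_
          rw [mem_filter] at hU
          exact hlarge U hU.1 (not_le.1 hU.2)
      _ = R₂.card * ((2 : ℝ) ^ b) ^ 3 := by rw [sum_const, nsmul_eq_mul]
      _ ≤ 1 * ((2 : ℝ) ^ b) ^ 3 := by
          gcongr
          exact_mod_cast hR₂
      _ = _ := one_mul _
  calc _ ≤ (∑ U ∈ R, ((S U).card : ℝ)) * Real.sqrt b := by gcongr
    _ = ∑ U ∈ R, ((S U).card : ℝ) * Real.sqrt b := by rw [sum_mul]
    _ = ∑ U ∈ R₁, ((S U).card : ℝ) * Real.sqrt b + ∑ U ∈ R₂, ((S U).card : ℝ) * Real.sqrt b :=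
        (sum_filter_add_sum_filter_not R _ _).symm
    _ ≤ |num_bound.choose| * (2 ^ b) ^ 3 + (2 ^ b) ^ 3 := add_le_add h2 h3
    _ = C₁ * (2 ^ b) ^ 3 := by unfold C₁; ring

end Pool.MP43e44c
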