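import Mathlib

/-!
The numerical estimate for pairs.
-/

set_option autoImplicit false

namespace Pool.MP43e44c

theorem num2_exp_three : Real.exp (-3) ≤ 1 / 16 := by
  have h1 : (16 : ℝ) ≤ Real.exp 3 := by
    have h2 := Real.exp_one_gt_d9
    have h3 : Real.exp 3 = Real.exp 1 ^ 3 := by
      rw [← Real.exp_nat_mul]; norm_num
    rw [h3]
    calc (16 : ℝ) ≤ 2.7 ^ 3 := by norm_num
      _ ≤ Real.exp 1 ^ 3 := pow_le_pow_left₀ (by norm_num) (by linarith) 3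
  rw [Real.exp_neg, one_div]
  exact inv_anti₀ (by norm_num) h1

theorem num2_sqrt_two : Real.sqrt 2 ≤ 3 / 2 := by
  rw [Real.sqrt_le_left (by norm_num)]
  norm_num

theorem num2_one_le_log {b : ℕ} (hb : 4 ≤ b) : 1 ≤ Real.log b := by
  have h1 : Real.log 4 ≤ Real.log b := Real.log_le_log (by norm_num) (by exact_mod_cast hb)
  have h2 : Real.log 4 = 2 * Real.log 2 := by
    rw [show (4 : ℝ) = 2 ^ 2 by norm_num, Real.log_pow]
    norm_num
  have h3 := Real.log_two_gt_d9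
  linarith

theorem num2_log_le {b : ℕ} (hb : 1 ≤ b) : Real.log b ≤ 2 * Real.sqrt b := by
  have hb0 : (0 : ℝ) < b := by exact_mod_cast hb
  have h1 : Real.log b = 2 * Real.log (Real.sqrt b) := by
    rw [Real.log_sqrt hb0.le]
    ring
  have h2 := Real.log_le_sub_one_of_pos (Real.sqrt_pos.2 hb0)
  rw [h1]
  linarith

theorem num2_inv_sqrt_le {b : ℕ} (hb : 4 ≤ b) :
    1 / Real.sqrt b ≤ Real.sqrt (Real.log b / b) := by
  have hb0 : (0 : ℝ) < b := by exact_mod_cast (by omega : 0 < b)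
  rw [Real.sqrt_div' _ hb0.le]
  gcongr
  rw [Real.one_le_sqrt]
  exact num2_one_le_log hb

theorem num2_exp_le (b : ℕ) (hb : 1 ≤ b) (N : ℕ) (hN : 1 ≤ N) (t : ℝ)
    (ht : t = Real.sqrt (16 * (3 + 2 * Real.log b / N))) :
    Real.exp (-(t ^ 2 * N) / 16) = Real.exp (-3) ^ N * (1 / (b : ℝ) ^ 2) := by
  have hb0 : (0 : ℝ) < b := by exact_mod_cast hb
  have hN0 : (0 : ℝ) < N := by exact_mod_cast hN
  have hlog : 0 ≤ Real.log b := Real.log_nonneg (by exact_mod_cast hb)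
  have h1 : t ^ 2 = 16 * (3 + 2 * Real.log b / N) := by
    rw [ht, Real.sq_sqrt (by positivity)]
  have h2 : -(t ^ 2 * N) / 16 = (N : ℝ) * (-3) + -(2 * Real.log b) := by
    rw [h1]
    field_simp
    ring
  rw [h2, Real.exp_add, Real.exp_nat_mul, Real.exp_neg (2 * Real.log b)]
  congr 1
  have h3 : Real.exp (2 * Real.log b) = (b : ℝ) ^ 2 := by
    rw [show 2 * Real.log b = Real.log b + Real.log b by ring, Real.exp_add, Real.exp_log hb0]
    ring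
  rw [h3, one_div]

theorem num2_second (b N h : ℕ) (t : ℝ) (hN2 : 2 ≤ N) (h1 : 1 ≤ h) (hN : h ≤ N)
    (hb : 2 * N ≤ b) (ht : t = Real.sqrt (16 * (3 + 2 * Real.log b / N))) :
    2 * (2 * h * 5 ^ (h - 1) * Real.sqrt 2 ^ N * Real.exp (-(t ^ 2 * N) / 16)) * b ≤
      4 * N * Real.sqrt (Real.log b / b) := by
  have hb4 : 4 ≤ b := by omega
  have hb0 : (0 : ℝ) < b := by exact_mod_cast (by omega : 0 < b)
  have hb1 : (1 : ℝ) ≤ b := by exact_mod_cast (by omega : 1 ≤ b)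
  rw [num2_exp_le b (by omega) N (by omega) t ht]
  have a1 : (5 : ℝ) ^ (h - 1) ≤ 5 ^ N := pow_le_pow_right₀ (by norm_num) (by omega)
  have a2 : (h : ℝ) ≤ N := by exact_mod_cast hN
  have a3 : (5 : ℝ) ^ N * Real.sqrt 2 ^ N * Real.exp (-3) ^ N ≤ 1 := by
    rw [← mul_pow, ← mul_pow]
    refine pow_le_one₀ (by positivity) ?_
    have h3 := num2_exp_three
    have h4 := num2_sqrt_two
    have h5 : 0 ≤ Real.sqrt 2 := Real.sqrt_nonneg 2
    have h6 : 0 ≤ Real.exp (-3) := (Real.exp_pos _).le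
    calc 5 * Real.sqrt 2 * Real.exp (-3) ≤ 5 * (3 / 2) * (1 / 16) := by gcongr
      _ ≤ 1 := by norm_num
  have a4 : 1 / (b : ℝ) ≤ Real.sqrt (Real.log b / b) := by
    refine le_trans ?_ (num2_inv_sqrt_le hb4)
    have h3 : Real.sqrt b ≤ b := by
      rw [Real.sqrt_le_left hb0.le]
      nlinarith
    exact one_div_le_one_div_of_le (Real.sqrt_pos.2 hb0) h3
  calc 2 * (2 * h * 5 ^ (h - 1) * Real.sqrt 2 ^ N * (Real.exp (-3) ^ N * (1 / (b : ℝ) ^ 2))) * b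
      ≤ 2 * (2 * N * 5 ^ N * Real.sqrt 2 ^ N * (Real.exp (-3) ^ N * (1 / (b : ℝ) ^ 2))) * b := by
        gcongr
    _ = 4 * N * (5 ^ N * Real.sqrt 2 ^ N * Real.exp (-3) ^ N) * (1 / b) := by
        field_simp
        ring
    _ ≤ 4 * N * 1 * (1 / b) := by gcongr
    _ ≤ 4 * N * 1 * Real.sqrt (Real.log b / b) := by gcongr
    _ = 4 * N * Real.sqrt (Real.log b / b) := by ring

theorem num2_sq_le (N : ℕ) (hN : 1 ≤ N) : (N : ℝ) ^ 2 ≤ 4 * 2 ^ (N - 1) := by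
  obtain ⟨n, rfl⟩ : ∃ n, N = n + 1 := ⟨N - 1, by omega⟩
  rw [Nat.add_sub_cancel]
  have h : (n + 1) ^ 2 ≤ 4 * 2 ^ n := by
    induction n with
    | zero => norm_num
    | succ n ih =>
      rcases Nat.lt_or_ge n 2 with h | h
      · interval_cases n <;> norm_num
      · have h1 := ih (by omega)
        rw [pow_succ 2 n]
        nlinarith
  exact_mod_cast h

theorem num2_bound_pow : ∃ D : ℝ, 0 ≤ D ∧
    ∀ N : ℕ, (N : ℝ) ^ 1 * ((97 / 100 : ℝ) ^ 2) ^ N ≤ D := by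
  have h := tendsto_pow_const_mul_const_pow_of_abs_lt_one 1 (r := (97 / 100 : ℝ) ^ 2)
    (by rw [abs_of_pos (by norm_num)]; norm_num)
  obtain ⟨D, hD⟩ := h.bddAbove_range
  refine ⟨max D 0, le_max_right _ _, fun N => (hD ⟨N, rfl⟩).trans (le_max_left _ _)⟩

/-- large `k` -/
theorem num2_large (b N h : ℕ) (s κ t : ℝ) (hN2 : 2 ≤ N) (h1 : 1 ≤ h) (hN : h ≤ N)
    (hb : 2 * N ≤ b) (hbk : (b : ℝ) = s ^ 2 * N) (hs : 10 ^ 7 ≤ s) (hκ : 0 ≤ κ)
    (hκ2 : κ ≤ 13 / 5 / s) (ht : t = Real.sqrt (16 * (3 + 2 * Real.log b / N))) :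
    2 * h * (1 + 8 * t * s) ^ (h - 1) * κ ^ (2 * N) * b ≤
      100000 * N * Real.sqrt (Real.log b / b) := by
  have hs0 : 0 < s := lt_of_lt_of_le (by norm_num) hs
  have hb4 : 4 ≤ b := by omega
  have hb0 : (0 : ℝ) < b := by exact_mod_cast (by omega : 0 < b)
  have hN0 : (0 : ℝ) < N := by exact_mod_cast (by omega : 0 < N)
  have hN1 : (1 : ℝ) ≤ N := by exact_mod_cast (by omega : 1 ≤ N)
  have hL1 := num2_one_le_log hb4
  have hL2 := num2_log_le (by omega : 1 ≤ b)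
  set L := Real.log b with hL
  have ht2 : t ^ 2 = 16 * (3 + 2 * L / N) := by
    rw [ht, Real.sq_sqrt (by positivity)]
  have ht0 : 0 ≤ t := by rw [ht]; exact Real.sqrt_nonneg _
  have ht1 : 1 ≤ t := by
    have h3 : 0 ≤ 2 * L / N := by positivity
    nlinarith
  -- z
  set z := 9 * (13 / 5) ^ 2 * t / s with hz
  have hz0 : 0 ≤ z := by positivity
  have hsb : s * 1 ≤ Real.sqrt b := by
    rw [hbk, Real.sqrt_mul (by positivity), Real.sqrt_sq hs0.le]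
    exact mul_le_mul_of_nonneg_left (by rw [Real.one_le_sqrt]; exact hN1) hs0.le
  have hbs : 0 < Real.sqrt b := Real.sqrt_pos.2 hb0
  have hts : t ^ 2 / s ^ 2 = (48 * N + 32 * L) / b := by
    rw [ht2, hbk]
    field_simp
    ring
  have hz12 : z ≤ 1 / 2 := by
    have h3 : z ^ 2 ≤ (1 / 2) ^ 2 := by
      have h4 : z ^ 2 = (9 * (13 / 5) ^ 2) ^ 2 * (t ^ 2 / s ^ 2) := by
        rw [hz]; field_simp
      have h5 : (48 * (N : ℝ) + 32 * L) / b ≤ 48 / s ^ 2 + 64 / s := by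
        have h6 : (48 * (N : ℝ)) / b = 48 / s ^ 2 := by
          rw [hbk]; field_simp
        have h7 : 32 * L / b ≤ 64 / s := by
          rw [div_le_div_iff₀ hb0 hs0]
          have h8 : Real.sqrt b * Real.sqrt b = b := Real.mul_self_sqrt hb0.le
          calc 32 * L * s ≤ 32 * (2 * Real.sqrt b) * Real.sqrt b := by
                gcongr
                linarith
            _ = 64 * (Real.sqrt b * Real.sqrt b) := by ring
            _ = 64 * b := by rw [h8]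
        rw [add_div, h6]
        linarith
      have h6 : 48 / s ^ 2 ≤ 48 / (10 ^ 7) ^ 2 := by gcongr
      have h7 : 64 / s ≤ 64 / 10 ^ 7 := by gcongr
      rw [h4, hts]
      calc (9 * (13 / 5) ^ 2) ^ 2 * ((48 * (N : ℝ) + 32 * L) / b)
          ≤ (9 * (13 / 5) ^ 2) ^ 2 * (48 / (10 ^ 7) ^ 2 + 64 / 10 ^ 7) := by
            gcongr
            linarith
        _ ≤ (1 / 2) ^ 2 := by norm_num
    exact le_of_sq_le_sq h3 (by norm_num)
  have hz2 : z ≤ 549 * Real.sqrt N * Real.sqrt (L / b) := by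
    have h3 : z ^ 2 ≤ (549 * Real.sqrt N * Real.sqrt (L / b)) ^ 2 := by
      have h4 : z ^ 2 = (9 * (13 / 5) ^ 2) ^ 2 * (t ^ 2 / s ^ 2) := by
        rw [hz]; field_simp
      have h5 : (549 * Real.sqrt N * Real.sqrt (L / b)) ^ 2 = 549 ^ 2 * N * (L / b) := by
        rw [mul_pow, mul_pow, Real.sq_sqrt hN0.le, Real.sq_sqrt (by positivity)]
      rw [h4, h5, hts]
      have h6 : 48 * (N : ℝ) + 32 * L ≤ 80 * (N * L) := by nlinarith
      calc (9 * (13 / 5) ^ 2) ^ 2 * ((48 * (N : ℝ) + 32 * L) / b)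
          ≤ (9 * (13 / 5) ^ 2) ^ 2 * ((80 * (N * L)) / b) := by gcongr
        _ = ((9 * (13 / 5) ^ 2) ^ 2 * 80) * (N * (L / b)) := by ring
        _ ≤ 549 ^ 2 * (N * (L / b)) := by
            gcongr
            norm_num
        _ = 549 ^ 2 * N * (L / b) := by ring
    exact le_of_sq_le_sq h3 (by positivity)
  have a1 : (1 + 8 * t * s) ^ (h - 1) ≤ (9 * t * s) ^ (N - 1) := by
    have h3 : 1 ≤ t * s := by nlinarith
    calc (1 + 8 * t * s) ^ (h - 1) ≤ (9 * t * s) ^ (h - 1) :=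
          pow_le_pow_left₀ (by positivity) (by linarith) _
      _ ≤ (9 * t * s) ^ (N - 1) := pow_le_pow_right₀ (by nlinarith) (by omega)
  have a2 : κ ^ (2 * N) ≤ (13 / 5 / s) ^ 2 * ((13 / 5 / s) ^ 2) ^ (N - 1) := by
    calc κ ^ (2 * N) ≤ (13 / 5 / s) ^ (2 * N) := pow_le_pow_left₀ hκ hκ2 _
      _ = ((13 / 5 / s) ^ 2) ^ N := by rw [pow_mul]
      _ = _ := by rw [← pow_succ']; congr 1; omega
  have a3 : (9 * t * s) ^ (N - 1) * ((13 / 5 / s) ^ 2) ^ (N - 1) = z ^ (N - 1) := by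
    rw [← mul_pow, hz]
    congr 1
    field_simp
  have a4 : z ^ (N - 1) ≤ z * (1 / 2) ^ (N - 2) := by
    obtain ⟨n, rfl⟩ : ∃ n, N = n + 2 := ⟨N - 2, by omega⟩
    have h3 : n + 2 - 1 = n + 1 := by omega
    have h4 : n + 2 - 2 = n := by omega
    rw [h3, h4, pow_succ']
    exact mul_le_mul_of_nonneg_left (pow_le_pow_left₀ hz0 hz12 n) hz0
  have a5 : (N : ℝ) * Real.sqrt N * (1 / 2) ^ (N - 2) ≤ 8 := by
    have h3 : Real.sqrt N ≤ N := by
      rw [Real.sqrt_le_left hN0.le]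
      nlinarith
    have h4 := num2_sq_le N (by omega)
    have h5 : (2 : ℝ) ^ (N - 1) = 2 * 2 ^ (N - 2) := by
      rw [← pow_succ']
      congr 1
      omega
    calc (N : ℝ) * Real.sqrt N * (1 / 2) ^ (N - 2) ≤ (N : ℝ) * N * (1 / 2) ^ (N - 2) := by gcongr
      _ = (N : ℝ) ^ 2 * (1 / 2) ^ (N - 2) := by ring
      _ ≤ (4 * 2 ^ (N - 1)) * (1 / 2) ^ (N - 2) := by gcongr
      _ = 8 * (2 * (1 / 2)) ^ (N - 2) := by rw [h5, mul_pow]; ring
      _ = 8 := by norm_num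
  have a6 : (h : ℝ) ≤ N := by exact_mod_cast hN
  have a7 : (13 / 5 / s) ^ 2 * s ^ 2 = (13 / 5) ^ 2 := by
    rw [← mul_pow, div_mul_cancel₀ _ hs0.ne']
  calc 2 * h * (1 + 8 * t * s) ^ (h - 1) * κ ^ (2 * N) * b
      ≤ 2 * N * (9 * t * s) ^ (N - 1) *
        ((13 / 5 / s) ^ 2 * ((13 / 5 / s) ^ 2) ^ (N - 1)) * b := by
        gcongr
    _ = 2 * N * ((9 * t * s) ^ (N - 1) * ((13 / 5 / s) ^ 2) ^ (N - 1)) *
        ((13 / 5 / s) ^ 2 * s ^ 2) * N := by rw [hbk]; ring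
    _ = 2 * N * z ^ (N - 1) * (13 / 5) ^ 2 * N := by rw [a3, a7]
    _ ≤ 2 * N * (z * (1 / 2) ^ (N - 2)) * (13 / 5) ^ 2 * N := by gcongr
    _ ≤ 2 * N * ((549 * Real.sqrt N * Real.sqrt (L / b)) * (1 / 2) ^ (N - 2)) * (13 / 5) ^ 2 * N := by
        gcongr
    _ = 2 * (13 / 5) ^ 2 * 549 * ((N : ℝ) * Real.sqrt N * (1 / 2) ^ (N - 2)) * N *
        Real.sqrt (L / b) := by ring
    _ ≤ 2 * (13 / 5) ^ 2 * 549 * 8 * N * Real.sqrt (L / b) := by gcongr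
    _ ≤ 100000 * N * Real.sqrt (L / b) := by
        gcongr
        norm_num

/-- small `k` -/
theorem num2_small (D S τ : ℝ) (H : ℕ) (hH : 4 * S ^ 2 ≤ H) (hS : 1 ≤ S)
    (hτ : τ = Real.sqrt (48 + 32 * S ^ 2))
    (hD : ∀ N : ℕ, (N : ℝ) ^ 1 * ((97 / 100 : ℝ) ^ 2) ^ N ≤ D)
    (b N h : ℕ) (s κ t : ℝ) (hN2 : 2 ≤ N) (h1 : 1 ≤ h)
    (hb : 2 * N ≤ b) (h4 : (h : ℝ) ≤ 4 * s ^ 2) (hs0 : 0 < s) (hs : s ≤ S)
    (hbk : (b : ℝ) = s ^ 2 * N) (hκ : 0 ≤ κ)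
    (hκ2 : κ ≤ 97 / 100) (ht : t = Real.sqrt (16 * (3 + 2 * Real.log b / N))) :
    2 * h * (1 + 8 * t * s) ^ (h - 1) * κ ^ (2 * N) * b ≤
      (2 * H * (1 + 8 * τ * S) ^ H * S ^ 3 * D) * N * Real.sqrt (Real.log b / b) := by
  have hb4 : 4 ≤ b := by omega
  have hb0 : (0 : ℝ) < b := by exact_mod_cast (by omega : 0 < b)
  have hN0 : (0 : ℝ) < N := by exact_mod_cast (by omega : 0 < N)
  have hN1 : (1 : ℝ) ≤ N := by exact_mod_cast (by omega : 1 ≤ N)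
  have hL1 := num2_one_le_log hb4
  have hs2 : s ^ 2 ≤ S ^ 2 := pow_le_pow_left₀ hs0.le hs 2
  have hD0 : 0 ≤ D := le_trans (by positivity) (hD 0)
  have hbS : (b : ℝ) ≤ S ^ 2 * N := by
    rw [hbk]
    exact mul_le_mul_of_nonneg_right hs2 hN0.le
  have hLN : Real.log b / N ≤ S ^ 2 := by
    rw [div_le_iff₀ hN0]
    have h3 := Real.log_le_sub_one_of_pos hb0
    linarith
  have htτ : t ≤ τ := by
    rw [ht, hτ]
    apply Real.sqrt_le_sqrt
    have h3 : 2 * Real.log b / N = 2 * (Real.log b / N) := by ring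
    rw [h3]
    linarith
  have ht0 : 0 ≤ t := by rw [ht]; exact Real.sqrt_nonneg _
  have hτ0 : 0 ≤ τ := ht0.trans htτ
  have b1 : (h : ℝ) ≤ H := h4.trans (by linarith)
  have b1' : h ≤ H := by exact_mod_cast b1
  have b2 : (1 + 8 * t * s) ^ (h - 1) ≤ (1 + 8 * τ * S) ^ H := by
    calc (1 + 8 * t * s) ^ (h - 1) ≤ (1 + 8 * τ * S) ^ (h - 1) :=
          pow_le_pow_left₀ (by positivity) (by gcongr) _
      _ ≤ (1 + 8 * τ * S) ^ H := pow_le_pow_right₀ (by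
          have : 0 ≤ 8 * τ * S := by positivity
          linarith) (by omega)
  have b3 : κ ^ (2 * N) ≤ ((97 / 100 : ℝ) ^ 2) ^ N := by
    rw [← pow_mul]
    exact pow_le_pow_left₀ hκ hκ2 _
  have b5 : (b : ℝ) ≤ S ^ 3 * N ^ 2 * Real.sqrt (Real.log b / b) := by
    have h3 := num2_inv_sqrt_le hb4
    have h5 : Real.sqrt b ≤ S * N := by
      rw [Real.sqrt_le_left (by positivity)]
      calc (b : ℝ) ≤ S ^ 2 * N := hbS
        _ ≤ S ^ 2 * N ^ 2 := by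
            gcongr
            nlinarith
        _ = (S * N) ^ 2 := by ring
    have h6 : 0 < Real.sqrt b := Real.sqrt_pos.2 hb0
    calc (b : ℝ) = b * Real.sqrt b * (1 / Real.sqrt b) := by field_simp
      _ ≤ (S ^ 2 * N) * (S * N) * Real.sqrt (Real.log b / b) := by gcongr
      _ = S ^ 3 * N ^ 2 * Real.sqrt (Real.log b / b) := by ring
  calc 2 * h * (1 + 8 * t * s) ^ (h - 1) * κ ^ (2 * N) * b
      ≤ 2 * H * (1 + 8 * τ * S) ^ H * ((97 / 100 : ℝ) ^ 2) ^ N *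
        (S ^ 3 * N ^ 2 * Real.sqrt (Real.log b / b)) := by
        gcongr
    _ = 2 * H * (1 + 8 * τ * S) ^ H * S ^ 3 * (N ^ 1 * ((97 / 100 : ℝ) ^ 2) ^ N) * N *
        Real.sqrt (Real.log b / b) := by ring
    _ ≤ 2 * H * (1 + 8 * τ * S) ^ H * S ^ 3 * D * N * Real.sqrt (Real.log b / b) := by
        gcongr
        exact hD N

/-- Subspaces of dimension at least two. -/
theorem num_bound2 : ∃ C : ℝ, ∀ (b N h : ℕ) (k κ t : ℝ), 2 ≤ N → 1 ≤ h → h ≤ N → 2 * N ≤ b →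
    h * N ≤ 4 * b → (b : ℝ) = k * N → 0 ≤ κ → κ ≤ 97 / 100 → κ ≤ 13 / 5 / Real.sqrt k →
    t = Real.sqrt (16 * (3 + 2 * Real.log b / N)) →
    (2 * h * (1 + 8 * t * Real.sqrt k) ^ (h - 1) * κ ^ (2 * N)
      + 2 * (2 * h * 5 ^ (h - 1) * Real.sqrt 2 ^ N * Real.exp (-(t ^ 2 * N) / 16))) * b
      ≤ C * N * Real.sqrt (Real.log b / b) := by
  obtain ⟨D, hD0, hD⟩ := num2_bound_pow
  obtain ⟨S, hS⟩ : ∃ S : ℝ, S = 10 ^ 7 := ⟨_, rfl⟩
  obtain ⟨τ, hτ⟩ : ∃ τ : ℝ, τ = Real.sqrt (48 + 32 * S ^ 2) := ⟨_, rfl⟩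
  obtain ⟨H, hH⟩ := exists_nat_ge (4 * S ^ 2)
  refine ⟨max 100000 (2 * H * (1 + 8 * τ * S) ^ H * S ^ 3 * D) + 4, ?_⟩
  intro b N h k κ t hN2 h1 hN hb hhN hbk hκ hκ1 hκ2 ht
  have hN0 : (0 : ℝ) < N := by exact_mod_cast (by omega : 0 < N)
  have hk : 2 ≤ k := by
    have : (2 : ℝ) * N ≤ b := by exact_mod_cast hb
    rw [hbk] at this
    exact le_of_mul_le_mul_right this hN0
  set s := Real.sqrt k with hs
  have hs2 : k = s ^ 2 := (Real.sq_sqrt (by linarith)).symm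
  have hs0 : 0 < s := Real.sqrt_pos.2 (by linarith)
  rw [hs2] at hbk
  rw [add_mul, add_mul, add_mul]
  refine add_le_add ?_ (num2_second b N h t hN2 h1 hN hb ht)
  have hR : 0 ≤ Real.sqrt (Real.log b / b) := Real.sqrt_nonneg _
  rcases le_total S s with hc | hc
  · rw [hS] at hc
    refine (num2_large b N h s κ t hN2 h1 hN hb hbk hc hκ hκ2 ht).trans ?_
    gcongr
    exact le_max_left _ _
  · refine (num2_small D S τ H hH (by rw [hS]; norm_num) hτ hD b N h s κ t hN2 h1 hb ?_ hs0 hc hbk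
      hκ hκ1 ht).trans ?_
    · have d1 : (h : ℝ) * N ≤ 4 * b := by exact_mod_cast hhN
      rw [hbk, ← mul_assoc] at d1
      exact le_of_mul_le_mul_right d1 hN0
    · gcongr
      exact le_max_right _ _

/-- Subspaces of dimension one. -/
theorem num_bound1 (b : ℕ) (k κ t : ℝ) (hb : 2 ≤ b) (hk : (b : ℝ) = k) (hκ : 0 ≤ κ)
    (hκ2 : κ ≤ 13 / 5 / Real.sqrt k) (ht : t = Real.sqrt (16 * (3 + 2 * Real.log b))) :
    (2 * κ ^ 2 + 2 * (2 * Real.sqrt 2 * Real.exp (-(t ^ 2) / 16))) * b ≤ 20 := by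
  have hb0 : (0 : ℝ) < b := by exact_mod_cast (by omega : 0 < b)
  have hb1 : (1 : ℝ) ≤ b := by exact_mod_cast (by omega : 1 ≤ b)
  have h1 := num2_exp_le b (by omega) 1 le_rfl t (by rw [ht]; norm_num)
  rw [Nat.cast_one, mul_one, pow_one] at h1
  rw [h1]
  subst hk
  have hs0 : 0 < Real.sqrt b := Real.sqrt_pos.2 hb0
  have h2 : κ ^ 2 * b ≤ 169 / 25 := by
    have h3 : κ ^ 2 ≤ (13 / 5 / Real.sqrt b) ^ 2 := pow_le_pow_left₀ hκ hκ2 2
    have h4 : (13 / 5 / Real.sqrt b) ^ 2 * b = 169 / 25 := by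
      rw [div_pow, Real.sq_sqrt hb0.le]
      field_simp
      norm_num
    calc κ ^ 2 * b ≤ (13 / 5 / Real.sqrt b) ^ 2 * b := by gcongr
      _ = 169 / 25 := h4
  have h3 : 2 * (2 * Real.sqrt 2 * (Real.exp (-3) * (1 / (b : ℝ) ^ 2))) * b ≤ 1 := by
    have h4 := num2_exp_three
    have h5 := num2_sqrt_two
    have h6 : 1 / (b : ℝ) ≤ 1 := by
      rw [div_le_one hb0]
      exact hb1
    have h7 : 0 ≤ Real.exp (-3) := (Real.exp_pos _).le
    calc 2 * (2 * Real.sqrt 2 * (Real.exp (-3) * (1 / (b : ℝ) ^ 2))) * b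
        = 4 * Real.sqrt 2 * Real.exp (-3) * (1 / b) := by
          field_simp
          ring
      _ ≤ 4 * (3 / 2) * (1 / 16) * 1 := by gcongr
      _ ≤ 1 := by norm_num
  calc (2 * κ ^ 2 + 2 * (2 * Real.sqrt 2 * (Real.exp (-3) * (1 / (b : ℝ) ^ 2)))) * b
      = 2 * (κ ^ 2 * b) + 2 * (2 * Real.sqrt 2 * (Real.exp (-3) * (1 / (b : ℝ) ^ 2))) * b := by ring
    _ ≤ 2 * (169 / 25) + 1 := by gcongr
    _ ≤ 20 := by norm_num

end Pool.MP43e44c
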