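import Pool.Agent.H.MP_43e44c_ag.SB.Mgf
import Pool.Agent.H.MP_43e44c_ag.SB.Uni

/-!
The supremum of the projections of a sign vector to the images of a minimal subspace.
-/

set_option autoImplicit false

open Finset Module

namespace Pool.MP43e44c

section Adj

variable {Γ ι : Type*} [Group Γ] [MulAction Γ ι] [Fintype ι]

set_option backward.isDefEq.respectTransparency false in
/-- The adjoint of an intertwining operator. -/
theorem adj_comp (C : Coc Γ ι) {U : Submodule ℝ (EuclideanSpace ℝ ι)} (hU : C.Mnl U)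
    {T : U →L[ℝ] EuclideanSpace ℝ ι} (hT : T ∈ C.Hom U) (w : U) :
    ContinuousLinearMap.adjoint T (T w) = (‖T‖ ^ 2) • w := by
  refine ext_inner_right ℝ fun w' => ?_
  rw [ContinuousLinearMap.adjoint_inner_left]
  have h1 : inner ℝ ((‖T‖ ^ 2) • w) w' = ‖T‖ ^ 2 * inner ℝ w w' := real_inner_smul_left _ _ _
  rw [h1]
  have h2 : ∀ x : U, inner ℝ (T x) (T x) = ‖T‖ ^ 2 * inner ℝ x x := by
    intro x
    rw [real_inner_self_eq_norm_sq, real_inner_self_eq_norm_sq, C.norm_hom hU hT, mul_pow]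
  have h3 := h2 (w + w')
  have e1 : inner ℝ (T (w + w')) (T (w + w')) = inner ℝ (T w) (T w) + 2 * inner ℝ (T w) (T w')
      + inner ℝ (T w') (T w') := by
    rw [map_add]; exact real_inner_add_add_self _ _
  have e2 : inner ℝ (w + w') (w + w') = inner ℝ w w + 2 * inner ℝ w w' + inner ℝ w' w' :=
    real_inner_add_add_self _ _
  rw [e1, e2, h2, h2] at h3
  linarith

set_option backward.isDefEq.respectTransparency false in
/-- The norm of the adjoint applied to a vector. -/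
theorem norm_adj (C : Coc Γ ι) {U : Submodule ℝ (EuclideanSpace ℝ ι)} (hU : C.Mnl U)
    {T : U →L[ℝ] EuclideanSpace ℝ ι} (hT : T ∈ C.Hom U) (w : EuclideanSpace ℝ ι) :
    ‖ContinuousLinearMap.adjoint T w‖
      = ‖T‖ * ‖(LinearMap.range (T : U →ₗ[ℝ] EuclideanSpace ℝ ι)).starProjection w‖ := by
  set W := LinearMap.range (T : U →ₗ[ℝ] EuclideanSpace ℝ ι) with hW
  obtain ⟨x, hx⟩ : W.starProjection w ∈ W := Submodule.starProjection_apply_mem W w
  have hx' : T x = W.starProjection w := hx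
  have h1 : ContinuousLinearMap.adjoint T w = ContinuousLinearMap.adjoint T (T x) := by
    refine ext_inner_right ℝ fun y => ?_
    rw [ContinuousLinearMap.adjoint_inner_left, ContinuousLinearMap.adjoint_inner_left, hx']
    have h2 := Submodule.starProjection_inner_eq_zero (K := W) w (T y) ⟨y, rfl⟩
    rw [inner_sub_left, sub_eq_zero] at h2
    exact h2
  rw [h1, adj_comp C hU hT, ← hx', C.norm_hom hU hT x]
  have h3 : ‖(‖T‖ ^ 2) • x‖ = ‖T‖ ^ 2 * ‖x‖ := by
    rw [norm_smul, Real.norm_eq_abs, abs_of_nonneg (by positivity)]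
  rw [h3]
  ring

/-- Norms of multiples. -/
theorem norm_smul_hom (C : Coc Γ ι) {U : Submodule ℝ (EuclideanSpace ℝ ι)} (hU : C.Mnl U)
    {T : U →L[ℝ] EuclideanSpace ℝ ι} (hT : T ∈ C.Hom U) (c : ℝ) : ‖c • T‖ = |c| * ‖T‖ := by
  have hnt : Nontrivial U := Submodule.nontrivial_iff_ne_bot.2 hU.2.1
  obtain ⟨x, hx⟩ := exists_ne (0 : U)
  have hx0 : ‖x‖ ≠ 0 := norm_ne_zero_iff.2 hx
  have e1 := C.norm_hom hU ((C.Hom U).smul_mem c hT) x
  have e2 : ‖(c • T) x‖ = |c| * ‖T‖ * ‖x‖ := by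
    show ‖c • T x‖ = _
    rw [norm_smul, Real.norm_eq_abs, C.norm_hom hU hT, mul_assoc]
  rw [e2] at e1
  exact (mul_right_cancel₀ hx0 e1).symm

/-- Vanishing of the norm. -/
theorem eq_zero_of_norm_hom (C : Coc Γ ι) {U : Submodule ℝ (EuclideanSpace ℝ ι)} (hU : C.Mnl U)
    {T : U →L[ℝ] EuclideanSpace ℝ ι} (hT : T ∈ C.Hom U) (h : ‖T‖ = 0) : T = 0 := by
  ext1 x
  have h2 := C.norm_hom hU hT x
  rw [h, zero_mul, norm_eq_zero] at h2
  exact h2

set_option backward.isDefEq.respectTransparency false in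
/-- The supremum over the unit sphere is at most twice the supremum over a net. -/
theorem sup_le_two_mul (C : Coc Γ ι) {U : Submodule ℝ (EuclideanSpace ℝ ι)} (hU : C.Mnl U)
    (w : EuclideanSpace ℝ ι) {s : Finset (C.Hom U)}
    (hs2 : ∀ x : C.Hom U, ‖x‖ = 1 → ∃ y ∈ s, ‖x - y‖ ≤ 1 / 2) {r : ℝ} 
    (hr : ∀ S ∈ s, ‖ContinuousLinearMap.adjoint (S : U →L[ℝ] EuclideanSpace ℝ ι) w‖ ≤ r)
    (T : C.Hom U) (hT : ‖T‖ = 1) :
    ‖ContinuousLinearMap.adjoint (T : U →L[ℝ] EuclideanSpace ℝ ι) w‖ ≤ 2 * r := by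
  have key : ∀ (n : ℕ) (T : C.Hom U), ‖T‖ = 1 →
      ‖ContinuousLinearMap.adjoint (T : U →L[ℝ] EuclideanSpace ℝ ι) w‖
        ≤ 2 * r + (1 / 2) ^ n * ‖w‖ := by
    intro n
    induction n with
    | zero =>
      intro T hT
      have h0 : 0 ≤ r := by
        obtain ⟨S, hS, -⟩ := hs2 T hT
        exact (norm_nonneg _).trans (hr S hS)
      have h1 := (ContinuousLinearMap.adjoint (T : U →L[ℝ] EuclideanSpace ℝ ι)).le_opNorm w
      have h2 : ‖ContinuousLinearMap.adjoint (T : U →L[ℝ] EuclideanSpace ℝ ι)‖ = 1 := by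
        rw [LinearIsometryEquiv.norm_map]
        exact hT
      rw [h2, one_mul] at h1
      rw [pow_zero, one_mul]
      linarith
    | succ n ih =>
      intro T hT
      obtain ⟨S, hS, hTS⟩ := hs2 T hT
      have hRmem : (T : U →L[ℝ] EuclideanSpace ℝ ι) - S ∈ C.Hom U := (C.Hom U).sub_mem T.2 S.2
      have hTS' : ‖(T : U →L[ℝ] EuclideanSpace ℝ ι) - S‖ ≤ 1 / 2 := hTS
      have h0 : 0 ≤ r := (norm_nonneg _).trans (hr S hS)
      have h1 := hr S hS
      obtain ⟨a, ha⟩ : ∃ a, a = ‖(T : U →L[ℝ] EuclideanSpace ℝ ι) - S‖ := ⟨_, rfl⟩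
      rw [← ha] at hTS'
      have ha0 : 0 ≤ a := by rw [ha]; exact ContinuousLinearMap.opNorm_nonneg _
      rcases ha0.eq_or_lt with h2 | h2
      · have hR' := eq_zero_of_norm_hom C hU hRmem (ha.symm.trans h2.symm)
        rw [sub_eq_zero] at hR'
        rw [hR']
        have h2 : 0 ≤ (1 / 2 : ℝ) ^ (n + 1) * ‖w‖ := by positivity
        linarith
      · have hR1 : ‖a⁻¹ • ((T : U →L[ℝ] EuclideanSpace ℝ ι) - (S : U →L[ℝ] EuclideanSpace ℝ ι))‖ = 1 := by
          rw [norm_smul_hom C hU hRmem, ← ha, abs_of_nonneg (inv_nonneg.2 ha0),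
            inv_mul_cancel₀ h2.ne']
        have h3 := ih ⟨_, (C.Hom U).smul_mem a⁻¹ hRmem⟩ hR1
        have h4 : ContinuousLinearMap.adjoint (T : U →L[ℝ] EuclideanSpace ℝ ι) w
            = ContinuousLinearMap.adjoint (S : U →L[ℝ] EuclideanSpace ℝ ι) w
              + a • ContinuousLinearMap.adjoint
                (a⁻¹ • ((T : U →L[ℝ] EuclideanSpace ℝ ι) - (S : U →L[ℝ] EuclideanSpace ℝ ι))) w := by
          refine ext_inner_right ℝ fun y => ?_
          rw [inner_add_left, real_inner_smul_left, ContinuousLinearMap.adjoint_inner_left,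
            ContinuousLinearMap.adjoint_inner_left, ContinuousLinearMap.adjoint_inner_left]
          show _ = inner ℝ w _ + a * inner ℝ w (a⁻¹ • ((T : U →L[ℝ] EuclideanSpace ℝ ι) y
            - (S : U →L[ℝ] EuclideanSpace ℝ ι) y))
          rw [real_inner_smul_right, inner_sub_right, ← mul_assoc, mul_inv_cancel₀ h2.ne', one_mul]
          ring
        rw [h4]
        refine (norm_add_le _ _).trans ?_
        rw [norm_smul, Real.norm_eq_abs, abs_of_nonneg ha0]
        have h5 : 0 ≤ ‖ContinuousLinearMap.adjoint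
            (a⁻¹ • ((T : U →L[ℝ] EuclideanSpace ℝ ι) - (S : U →L[ℝ] EuclideanSpace ℝ ι))) w‖ := norm_nonneg _
        calc ‖ContinuousLinearMap.adjoint (S : U →L[ℝ] EuclideanSpace ℝ ι) w‖
              + a * ‖ContinuousLinearMap.adjoint (a⁻¹ • ((T : U →L[ℝ] EuclideanSpace ℝ ι) - (S : U →L[ℝ] EuclideanSpace ℝ ι))) w‖
            ≤ r + 1 / 2 * (2 * r + (1 / 2) ^ n * ‖w‖) := by
              gcongr
          _ = 2 * r + (1 / 2) ^ (n + 1) * ‖w‖ := by ring
  refine le_of_forall_pos_le_add fun δ hδ => ?_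
  obtain ⟨n, hn⟩ := exists_pow_lt_of_lt_one (show (0 : ℝ) < δ / (‖w‖ + 1) by positivity)
    (show (1 / 2 : ℝ) < 1 by norm_num)
  refine (key n T hT).trans ?_
  have h1 : (1 / 2 : ℝ) ^ n * ‖w‖ ≤ δ := by
    rw [lt_div_iff₀ (by positivity)] at hn
    have h2 : (0 : ℝ) ≤ (1 / 2) ^ n := by positivity
    nlinarith
  linarith

end Adj

variable {Γ ι : Type*} [Group Γ] [Fintype Γ] [MulAction Γ ι] [Fintype ι] [DecidableEq ι]
  [MulAction.IsPretransitive Γ ι]

set_option backward.isDefEq.respectTransparency false in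
open Classical in
omit [Fintype Γ] [MulAction.IsPretransitive Γ ι] in
/-- Sign vectors with a large projection to an image of a minimal subspace. -/
theorem card_sup_le (C : Coc Γ ι) {U : Submodule ℝ (EuclideanSpace ℝ ι)} (hU : C.Mnl U)
    {N : ℕ} (hN : finrank ℝ U = N) {h : ℕ} (hh : finrank ℝ (C.Hom U) = h) {t : ℝ} (ht : 0 ≤ t) :
    ((univ.filter fun v : ι → Bool => ∃ T ∈ C.Hom U, ‖T‖ = 1 ∧
        t ^ 2 * N < ‖(LinearMap.range (T : U →ₗ[ℝ] EuclideanSpace ℝ ι)).starProjection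
          (sv v)‖ ^ 2).card : ℝ)
      ≤ 2 ^ Fintype.card ι * (2 * h * 5 ^ (h - 1) * Real.sqrt 2 ^ N *
        Real.exp (-(t ^ 2 * N) / 16)) := by
  have hntH : Nontrivial (C.Hom U) := by
    refine ⟨⟨⟨U.subtypeL, C.subtypeL_mem_hom U⟩, 0, fun h1 => ?_⟩⟩
    exact Coc.subtypeL_ne_zero hU.2.1 (congrArg Subtype.val h1)
  have hh1 : 1 ≤ h := by rw [← hh]; exact finrank_pos (R := ℝ) (M := C.Hom U)
  obtain ⟨s, hs1, hs2, hs3⟩ := exists_net (H := C.Hom U) hh hh1 (ε := 1 / 2) (by norm_num)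
    (by norm_num)
  let Bd : C.Hom U → Finset (ι → Bool) := fun S => univ.filter fun v : ι → Bool =>
    t ^ 2 * N / 4 < ‖(LinearMap.range
      ((S : U →L[ℝ] EuclideanSpace ℝ ι) : U →ₗ[ℝ] EuclideanSpace ℝ ι)).starProjection (sv v)‖ ^ 2
  have hB : ∀ S ∈ s, ((Bd S).card : ℝ)
      ≤ 2 ^ Fintype.card ι * Real.sqrt 2 ^ N * Real.exp (-(t ^ 2 * N) / 16) := by
    intro S hS
    have hSn : ‖(S : U →L[ℝ] EuclideanSpace ℝ ι)‖ = 1 := hs1 S hS
    have hfr : finrank ℝ (LinearMap.range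
        ((S : U →L[ℝ] EuclideanSpace ℝ ι) : U →ₗ[ℝ] EuclideanSpace ℝ ι)) = N := by
      rw [← hN]
      apply LinearMap.finrank_range_of_inj
      intro x y hxy
      have h1 : ‖(S : U →L[ℝ] EuclideanSpace ℝ ι) (x - y)‖ = 0 := by
        rw [map_sub]
        have : (S : U →L[ℝ] EuclideanSpace ℝ ι) x = (S : U →L[ℝ] EuclideanSpace ℝ ι) y := hxy
        rw [this, sub_self, norm_zero]
      rw [C.norm_hom hU S.2, hSn, one_mul, norm_eq_zero, sub_eq_zero] at h1
      exact h1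
    have h2 := sum_exp_quarter hfr
    have h3 : ((Bd S).card : ℝ) * Real.exp (t ^ 2 * N / 16)
        ≤ ∑ v : ι → Bool, Real.exp (‖(LinearMap.range
          ((S : U →L[ℝ] EuclideanSpace ℝ ι) : U →ₗ[ℝ] EuclideanSpace ℝ ι)).starProjection
          (sv v)‖ ^ 2 / 4) := by
      rw [← nsmul_eq_mul, ← sum_const]
      refine (sum_le_sum (g := fun v : ι → Bool => Real.exp (‖(LinearMap.range
          ((S : U →L[ℝ] EuclideanSpace ℝ ι) : U →ₗ[ℝ] EuclideanSpace ℝ ι)).starProjection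
          (sv v)‖ ^ 2 / 4)) fun v hv => ?_).trans
        (sum_le_univ_sum_of_nonneg fun v => (Real.exp_pos _).le)
      rw [mem_filter] at hv
      apply Real.exp_le_exp.2
      linarith [hv.2]
    have h4 : Real.exp (t ^ 2 * N / 16) * Real.exp (-(t ^ 2 * N) / 16) = 1 := by
      rw [← Real.exp_add]
      have : t ^ 2 * N / 16 + -(t ^ 2 * N) / 16 = 0 := by ring
      rw [this, Real.exp_zero]
    calc ((Bd S).card : ℝ) = ((Bd S).card : ℝ) * Real.exp (t ^ 2 * N / 16)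
          * Real.exp (-(t ^ 2 * N) / 16) := by rw [mul_assoc, h4, mul_one]
      _ ≤ 2 ^ Fintype.card ι * Real.sqrt 2 ^ N * Real.exp (-(t ^ 2 * N) / 16) :=
        mul_le_mul_of_nonneg_right (h3.trans h2) (Real.exp_pos _).le
  have hsub : (univ.filter fun v : ι → Bool => ∃ T ∈ C.Hom U, ‖T‖ = 1 ∧
        t ^ 2 * N < ‖(LinearMap.range (T : U →ₗ[ℝ] EuclideanSpace ℝ ι)).starProjection
          (sv v)‖ ^ 2) ⊆ s.biUnion Bd := by
    intro v hv
    obtain ⟨T, hT, hT1, hv⟩ := (mem_filter.1 hv).2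
    rw [mem_biUnion]
    by_contra hcon
    push Not at hcon
    have h1 : ∀ S ∈ s, ‖ContinuousLinearMap.adjoint (S : U →L[ℝ] EuclideanSpace ℝ ι) (sv v)‖
        ≤ t * Real.sqrt N / 2 := by
      intro S hS
      have h2 := hcon S hS
      have hSn : ‖(S : U →L[ℝ] EuclideanSpace ℝ ι)‖ = 1 := hs1 S hS
      rw [mem_filter, not_and] at h2
      have h3 := not_lt.1 (h2 (mem_univ _))
      rw [norm_adj C hU S.2, hSn, one_mul]
      rw [← sq_le_sq₀ (norm_nonneg _) (by positivity)]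
      refine h3.trans (le_of_eq ?_)
      rw [div_pow, mul_pow, Real.sq_sqrt (Nat.cast_nonneg N)]
      norm_num
    have h2 := sup_le_two_mul C hU (sv v) hs2 h1 ⟨T, hT⟩ hT1
    rw [norm_adj C hU hT, hT1, one_mul] at h2
    have h3 := pow_le_pow_left₀ (norm_nonneg _) h2 2
    have h4 : (2 * (t * Real.sqrt N / 2)) ^ 2 = t ^ 2 * N := by
      have : 2 * (t * Real.sqrt N / 2) = t * Real.sqrt N := by ring
      rw [this, mul_pow, Real.sq_sqrt (Nat.cast_nonneg N)]
    rw [h4] at h3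
    exact absurd hv (not_lt.2 h3)
  have h1 : ((univ.filter fun v : ι → Bool => ∃ T ∈ C.Hom U, ‖T‖ = 1 ∧
        t ^ 2 * N < ‖(LinearMap.range (T : U →ₗ[ℝ] EuclideanSpace ℝ ι)).starProjection
          (sv v)‖ ^ 2).card : ℝ) ≤ ∑ S ∈ s, ((Bd S).card : ℝ) := by
    exact_mod_cast (card_le_card hsub).trans card_biUnion_le
  refine h1.trans ?_
  calc ∑ S ∈ s, ((Bd S).card : ℝ)
      ≤ ∑ _S ∈ s, 2 ^ Fintype.card ι * Real.sqrt 2 ^ N * Real.exp (-(t ^ 2 * N) / 16) :=
        sum_le_sum hB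
    _ = s.card * (2 ^ Fintype.card ι * Real.sqrt 2 ^ N * Real.exp (-(t ^ 2 * N) / 16)) := by
        rw [sum_const, nsmul_eq_mul]
    _ ≤ (2 * h * (1 + 2 / (1 / 2)) ^ (h - 1)) *
        (2 ^ Fintype.card ι * Real.sqrt 2 ^ N * Real.exp (-(t ^ 2 * N) / 16)) := by
        gcongr
    _ = _ := by
        have : (1 + 2 / (1 / 2) : ℝ) = 5 := by norm_num
        rw [this]
        ring

set_option backward.isDefEq.respectTransparency false in
open Classical in
/-- Pairs of sign vectors orthogonal to an image of a minimal subspace. -/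
theorem card_pair_le (C : Coc Γ ι) {U : Submodule ℝ (EuclideanSpace ℝ ι)} (hU : C.Mnl U)
    {N : ℕ} (hN : finrank ℝ U = N) {k : ℝ} (hc : (Fintype.card ι : ℝ) = k * N) (hk : 2 ≤ k)
    {h : ℕ} (hh : finrank ℝ (C.Hom U) = h) {t : ℝ} (ht : 1 ≤ t) :
    ((univ.filter fun v : Fin 2 → ι → Bool => ∃ T ∈ C.Hom U, T ≠ 0 ∧ ∀ j,
        SOrth (v j) (LinearMap.range (T : U →ₗ[ℝ] EuclideanSpace ℝ ι))).card : ℝ)
      ≤ (2 ^ Fintype.card ι) ^ 2 * (2 * h * (1 + 8 * t * Real.sqrt k) ^ (h - 1) *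
          (Real.exp ((1 / 4) ^ 2 / 2) * (Real.exp (1 / 2) * gk k)) ^ (2 * N)
        + 2 * (2 * h * 5 ^ (h - 1) * Real.sqrt 2 ^ N * Real.exp (-(t ^ 2 * N) / 16))) := by
  have hnt : Nontrivial U := Submodule.nontrivial_iff_ne_bot.2 hU.2.1
  have hN0 : 0 < N := by rw [← hN]; exact finrank_pos
  have hk0 : 0 < k := by linarith
  have ht0 : 0 ≤ t := by linarith
  have hsk : 1 ≤ Real.sqrt k := Real.one_le_sqrt.2 (by linarith)
  have hntH : Nontrivial (C.Hom U) := by
    refine ⟨⟨⟨U.subtypeL, C.subtypeL_mem_hom U⟩, 0, fun h1 => ?_⟩⟩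
    exact Coc.subtypeL_ne_zero hU.2.1 (congrArg Subtype.val h1)
  have hh1 : 1 ≤ h := by rw [← hh]; exact finrank_pos (R := ℝ) (M := C.Hom U)
  obtain ⟨s, hs1, hs2, hs3⟩ := exists_net (H := C.Hom U) hh hh1
    (ε := 1 / (4 * (t * Real.sqrt k))) (by positivity) (by
      rw [div_le_one (by positivity)]
      nlinarith)
  let Bd : C.Hom U → Finset (ι → Bool) := fun S => univ.filter fun v : ι → Bool =>
    ‖(LinearMap.range ((S : U →L[ℝ] EuclideanSpace ℝ ι) : U →ₗ[ℝ] EuclideanSpace ℝ ι)).starProjection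
      (sv v)‖ ^ 2 ≤ (1 / 4) ^ 2 * (N / k)
  let Z : Finset (ι → Bool) := univ.filter fun v : ι → Bool => ∃ T ∈ C.Hom U, ‖T‖ = 1 ∧
        t ^ 2 * N < ‖(LinearMap.range (T : U →ₗ[ℝ] EuclideanSpace ℝ ι)).starProjection
          (sv v)‖ ^ 2
  have hZ : (Z.card : ℝ) ≤ 2 ^ Fintype.card ι * (2 * h * 5 ^ (h - 1) * Real.sqrt 2 ^ N *
        Real.exp (-(t ^ 2 * N) / 16)) := card_sup_le C hU hN hh ht0
  set κ := Real.exp ((1 / 4) ^ 2 / 2) * (Real.exp (1 / 2) * gk k) with hκ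
  have hκ0 : 0 ≤ κ := mul_nonneg (Real.exp_pos _).le (mul_nonneg (Real.exp_pos _).le (gk_nonneg k))
  have hB : ∀ S ∈ s, ((Bd S).card : ℝ) ≤ 2 ^ Fintype.card ι * κ ^ N := by
    intro S hS
    have hSn : ‖(S : U →L[ℝ] EuclideanSpace ℝ ι)‖ = 1 := hs1 S hS
    refine small_ball C (C.inv_range hU.1 S.2) ?_ hN0 hc (by norm_num)
    rw [← hN]
    apply LinearMap.finrank_range_of_inj
    intro x y hxy
    have h1 : ‖(S : U →L[ℝ] EuclideanSpace ℝ ι) (x - y)‖ = 0 := by
      rw [map_sub]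
      have : (S : U →L[ℝ] EuclideanSpace ℝ ι) x = (S : U →L[ℝ] EuclideanSpace ℝ ι) y := hxy
      rw [this, sub_self, norm_zero]
    rw [C.norm_hom hU S.2, hSn, one_mul, norm_eq_zero, sub_eq_zero] at h1
    exact h1
  have hsub : (univ.filter fun v : Fin 2 → ι → Bool => ∃ T ∈ C.Hom U, T ≠ 0 ∧ ∀ j,
        SOrth (v j) (LinearMap.range (T : U →ₗ[ℝ] EuclideanSpace ℝ ι)))
      ⊆ (s.biUnion fun S => Fintype.piFinset fun _ : Fin 2 => Bd S) ∪
        (univ.biUnion fun i : Fin 2 => Fintype.piFinset fun j : Fin 2 => if j = i then Z else univ) := by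
    intro v hv
    obtain ⟨T, hT, hT0, hv⟩ := (mem_filter.1 hv).2
    rw [mem_union]
    by_cases hvZ : ∃ i, v i ∈ Z
    · right
      obtain ⟨i, hi⟩ := hvZ
      rw [mem_biUnion]
      refine ⟨i, mem_univ _, ?_⟩
      rw [Fintype.mem_piFinset]
      intro j
      by_cases hji : j = i
      · rw [if_pos hji, hji]; exact hi
      · rw [if_neg hji]; exact mem_univ _
    · left
      push Not at hvZ
      have hTn : ‖T‖ ≠ 0 := fun h1 => hT0 (eq_zero_of_norm_hom C hU hT h1)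
      have hTn0 : 0 ≤ ‖T‖ := T.opNorm_nonneg
      have hT₁mem : ‖T‖⁻¹ • T ∈ C.Hom U := (C.Hom U).smul_mem _ hT
      have hT₁ : ‖‖T‖⁻¹ • T‖ = 1 := by
        rw [norm_smul_hom C hU hT, abs_of_nonneg (inv_nonneg.2 hTn0), inv_mul_cancel₀ hTn]
      obtain ⟨S, hS, hST⟩ := hs2 ⟨_, hT₁mem⟩ hT₁
      have hSn : ‖(S : U →L[ℝ] EuclideanSpace ℝ ι)‖ = 1 := hs1 S hS
      have hST' : ‖‖T‖⁻¹ • T - (S : U →L[ℝ] EuclideanSpace ℝ ι)‖ ≤ 1 / (4 * (t * Real.sqrt k)) := hST
      have hRmem : ‖T‖⁻¹ • T - (S : U →L[ℝ] EuclideanSpace ℝ ι) ∈ C.Hom U :=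
        (C.Hom U).sub_mem hT₁mem S.2
      rw [mem_biUnion]
      refine ⟨S, hS, ?_⟩
      rw [Fintype.mem_piFinset]
      intro j
      refine mem_filter.2 ⟨mem_univ _, ?_⟩
      -- the good event
      have hgood : ∀ R ∈ C.Hom U, ‖ContinuousLinearMap.adjoint R (sv (v j))‖
          ≤ ‖R‖ * (t * Real.sqrt N) := by
        intro R hR
        rcases (ContinuousLinearMap.opNorm_nonneg R).eq_or_lt with h1 | h1
        · rw [norm_adj C hU hR, ← h1]
          simp
        · have hR₁ : ‖‖R‖⁻¹ • R‖ = 1 := by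
            rw [norm_smul_hom C hU hR, abs_of_nonneg (inv_nonneg.2 h1.le), inv_mul_cancel₀ h1.ne']
          have h2 := hvZ j
          rw [mem_filter, not_and] at h2
          have h3 := h2 (mem_univ _)
          push Not at h3
          have h4 := h3 _ ((C.Hom U).smul_mem ‖R‖⁻¹ hR) hR₁
          have h5 : ContinuousLinearMap.adjoint R (sv (v j))
              = ‖R‖ • ContinuousLinearMap.adjoint (‖R‖⁻¹ • R) (sv (v j)) := by
            refine ext_inner_right ℝ fun y => ?_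
            rw [real_inner_smul_left, ContinuousLinearMap.adjoint_inner_left,
              ContinuousLinearMap.adjoint_inner_left]
            show _ = ‖R‖ * inner ℝ (sv (v j)) (‖R‖⁻¹ • R y)
            rw [real_inner_smul_right, ← mul_assoc, mul_inv_cancel₀ h1.ne', one_mul]
          have h6 : ‖ContinuousLinearMap.adjoint (‖R‖⁻¹ • R) (sv (v j))‖ ≤ t * Real.sqrt N := by
            rw [norm_adj C hU ((C.Hom U).smul_mem ‖R‖⁻¹ hR), hR₁, one_mul,
              ← sq_le_sq₀ (norm_nonneg _) (by positivity), mul_pow,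
              Real.sq_sqrt (Nat.cast_nonneg N)]
            exact h4
          rw [h5, norm_smul, Real.norm_eq_abs, abs_of_nonneg h1.le]
          exact mul_le_mul_of_nonneg_left h6 h1.le
      have h1 := hgood _ hRmem
      have h2 : ContinuousLinearMap.adjoint (S : U →L[ℝ] EuclideanSpace ℝ ι) (sv (v j))
          = - ContinuousLinearMap.adjoint
            (‖T‖⁻¹ • T - (S : U →L[ℝ] EuclideanSpace ℝ ι)) (sv (v j)) := by
        refine ext_inner_right ℝ fun y => ?_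
        rw [inner_neg_left, ContinuousLinearMap.adjoint_inner_left,
          ContinuousLinearMap.adjoint_inner_left]
        show _ = - inner ℝ (sv (v j)) (‖T‖⁻¹ • T y - (S : U →L[ℝ] EuclideanSpace ℝ ι) y)
        rw [inner_sub_right, real_inner_smul_right, hv j (T y) ⟨y, rfl⟩]
        ring
      have h3 : ‖(LinearMap.range ((S : U →L[ℝ] EuclideanSpace ℝ ι) :
          U →ₗ[ℝ] EuclideanSpace ℝ ι)).starProjection (sv (v j))‖
          ≤ 1 / (4 * (t * Real.sqrt k)) * (t * Real.sqrt N) := by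
        have h4 := norm_adj C hU S.2 (sv (v j))
        rw [hSn, one_mul] at h4
        rw [← h4, h2, norm_neg]
        refine h1.trans (mul_le_mul_of_nonneg_right hST' (by positivity))
      have h5 := pow_le_pow_left₀ (norm_nonneg _) h3 2
      refine h5.trans (le_of_eq ?_)
      have ht1 : t ≠ 0 := by linarith
      have hsk0 : Real.sqrt k ≠ 0 := by linarith
      have h6 : 1 / (4 * (t * Real.sqrt k)) * (t * Real.sqrt N) = 1 / 4 * (Real.sqrt N / Real.sqrt k) := by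
        field_simp
      rw [h6, mul_pow, div_pow (Real.sqrt N), Real.sq_sqrt (Nat.cast_nonneg N),
        Real.sq_sqrt hk0.le]
  have hcardle : ((univ.filter fun v : Fin 2 → ι → Bool => ∃ T ∈ C.Hom U, T ≠ 0 ∧ ∀ j,
        SOrth (v j) (LinearMap.range (T : U →ₗ[ℝ] EuclideanSpace ℝ ι))).card : ℝ)
      ≤ ∑ S ∈ s, ((Bd S).card : ℝ) ^ 2 + 2 * (Z.card * 2 ^ Fintype.card ι) := by
    have h1 := (card_le_card hsub).trans ((card_union_le _ _).trans
      (add_le_add card_biUnion_le card_biUnion_le))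
    have h2 : ∀ S : C.Hom U, (Fintype.piFinset fun _ : Fin 2 => Bd S).card = (Bd S).card ^ 2 := by
      intro S
      rw [Fintype.card_piFinset, prod_const, card_univ, Fintype.card_fin]
    have h3 : ∀ i : Fin 2, (Fintype.piFinset fun j : Fin 2 =>
        if j = i then Z else (univ : Finset (ι → Bool))).card = Z.card * 2 ^ Fintype.card ι := by
      intro i
      have hu : (univ : Finset (ι → Bool)).card = 2 ^ Fintype.card ι := by
        rw [card_univ, Fintype.card_fun, Fintype.card_bool]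
      rw [Fintype.card_piFinset, Fin.prod_univ_two]
      fin_cases i
      · simp [hu]
      · simp [hu, mul_comm]
    simp_rw [h2, h3] at h1
    rw [sum_const, card_univ, Fintype.card_fin, smul_eq_mul] at h1
    exact_mod_cast h1
  refine hcardle.trans ?_
  have hfirst : ∑ S ∈ s, ((Bd S).card : ℝ) ^ 2 ≤ (2 ^ Fintype.card ι) ^ 2 *
      (2 * h * (1 + 8 * t * Real.sqrt k) ^ (h - 1) * κ ^ (2 * N)) := by
    calc ∑ S ∈ s, ((Bd S).card : ℝ) ^ 2 ≤ ∑ _S ∈ s, (2 ^ Fintype.card ι * κ ^ N) ^ 2 :=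
          sum_le_sum fun S hS => pow_le_pow_left₀ (Nat.cast_nonneg _) (hB S hS) 2
      _ = s.card * (2 ^ Fintype.card ι * κ ^ N) ^ 2 := by rw [sum_const, nsmul_eq_mul]
      _ ≤ (2 * h * (1 + 2 / (1 / (4 * (t * Real.sqrt k)))) ^ (h - 1)) *
          (2 ^ Fintype.card ι * κ ^ N) ^ 2 := by
          gcongr
      _ = _ := by
          have h1 : 2 / (1 / (4 * (t * Real.sqrt k))) = 8 * t * Real.sqrt k := by
            rw [div_div_eq_mul_div, div_one]; ring
          have h2 : κ ^ (2 * N) = (κ ^ N) ^ 2 := by rw [← pow_mul, mul_comm]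
          rw [h1, mul_pow, h2]
          ring
  calc ∑ S ∈ s, ((Bd S).card : ℝ) ^ 2 + 2 * (Z.card * 2 ^ Fintype.card ι)
      ≤ (2 ^ Fintype.card ι) ^ 2 *
          (2 * h * (1 + 8 * t * Real.sqrt k) ^ (h - 1) * κ ^ (2 * N))
        + 2 * ((2 ^ Fintype.card ι * (2 * h * 5 ^ (h - 1) * Real.sqrt 2 ^ N *
        Real.exp (-(t ^ 2 * N) / 16))) * 2 ^ Fintype.card ι) := by
        gcongr
    _ = _ := by ring

end Pool.MP43e44c
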