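import Pool.Agent.H.MP_43e44c_ag.SB.Core
import Pool.Agent.H.MP_43e44c_ag.SB.Sup
import Pool.Agent.H.MP_43e44c_ag.SB.Num2

/-!
The number of pairs of sign vectors orthogonal to an invariant subspace.
-/

set_option autoImplicit false

open Finset Module

namespace Pool.MP43e44c

/-- The constant. -/
noncomputable def C₂ : ℝ := |num_bound2.choose| + 40

theorem C₂_pos : 0 < C₂ := by unfold C₂; positivity

open Classical in
theorem core_count2 {Γ ι : Type*} [Group Γ] [Fintype Γ] [MulAction Γ ι] [Fintype ι]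
    [DecidableEq ι] [MulAction.IsPretransitive Γ ι] (C : Coc Γ ι) {m : ℕ}
    (hb : 2 ≤ Fintype.card ι)
    (hm : ∀ S : Finset (Submodule ℝ (EuclideanSpace ℝ ι)),
      (∀ U ∈ S, C.Inv U ∧ finrank ℝ U = 1) → S.card ≤ m) :
    ((univ.filter fun v : Fin 2 → ι → Bool => ∃ U : Submodule ℝ (EuclideanSpace ℝ ι),
        C.Inv U ∧ U ≠ ⊥ ∧ ∀ j, SOrth (v j) U).card : ℝ)
      ≤ C₂ * (m / Fintype.card ι + Real.sqrt (Real.log (Fintype.card ι) / Fintype.card ι))
        * (2 ^ Fintype.card ι) ^ 2 := by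
  obtain ⟨R, hR1, hR2, hR3, hR4⟩ := C.exists_reps
  obtain ⟨b, hbdef⟩ : ∃ b, b = Fintype.card ι := ⟨_, rfl⟩
  rw [← hbdef] at hb hR4 ⊢
  have hb0 : 0 < b := by omega
  have hbR : (0 : ℝ) < b := by exact_mod_cast hb0
  have hb2R : (2 : ℝ) ≤ b := by exact_mod_cast hb
  have hne : Nonempty ι := Fintype.card_pos_iff.1 (by omega)
  have hlog : 0 < Real.log b := Real.log_pos (by linarith)
  set L : ℝ := Real.sqrt (Real.log b / b) with hL
  have hL0 : 0 ≤ L := Real.sqrt_nonneg _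
  let S : Submodule ℝ (EuclideanSpace ℝ ι) → Finset (Fin 2 → ι → Bool) := fun U =>
    univ.filter fun v : Fin 2 → ι → Bool => ∃ T ∈ C.Hom U, T ≠ 0 ∧ ∀ j,
        SOrth (v j) (LinearMap.range (T : U →ₗ[ℝ] EuclideanSpace ℝ ι))
  have hsub : (univ.filter fun v : Fin 2 → ι → Bool => ∃ U : Submodule ℝ (EuclideanSpace ℝ ι),
        C.Inv U ∧ U ≠ ⊥ ∧ ∀ j, SOrth (v j) U) ⊆ R.biUnion S := by
    intro v hv
    obtain ⟨U, hU, hU0, hv⟩ := (mem_filter.1 hv).2
    obtain ⟨W, hWU, hW⟩ := C.exists_mnl hU hU0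
    obtain ⟨U₀, hU₀, T, hT, hT0, hTr⟩ := hR3 W hW
    rw [mem_biUnion]
    refine ⟨U₀, hU₀, mem_filter.2 ⟨mem_univ _, T, hT, hT0, fun j x hx => ?_⟩⟩
    rw [hTr] at hx
    exact hv j x (hWU hx)
  have hnt : ∀ U ∈ R, 1 ≤ finrank ℝ U := by
    intro U hU
    have : Nontrivial U := Submodule.nontrivial_iff_ne_bot.2 (hR1 U hU).2.1
    exact finrank_pos
  have hH : ∀ U ∈ R, 1 ≤ finrank ℝ (C.Hom U) := by
    intro U hU
    have hntH : Nontrivial (C.Hom U) := by
      refine ⟨⟨⟨U.subtypeL, C.subtypeL_mem_hom U⟩, 0, fun h1 => ?_⟩⟩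
      exact Coc.subtypeL_ne_zero (hR1 U hU).2.1 (congrArg Subtype.val h1)
    exact finrank_pos (R := ℝ) (M := C.Hom U)
  -- subspaces of dimension at least two
  have hsmall : ∀ U ∈ R, 2 ≤ finrank ℝ U → 2 * finrank ℝ U ≤ b →
      ((S U).card : ℝ) * b ≤ num_bound2.choose * finrank ℝ U * L * (2 ^ b) ^ 2 := by
    intro U hU hU2 h2
    have hm := hR1 U hU
    set N := finrank ℝ U with hN
    have hNR : (2 : ℝ) ≤ N := by exact_mod_cast hU2
    have hNR0 : (0 : ℝ) < N := by linarith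
    set k : ℝ := b / N with hk
    have hc : (b : ℝ) = k * N := by rw [hk]; field_simp
    have hk2 : 2 ≤ k := by
      rw [hk, le_div_iff₀ hNR0]
      exact_mod_cast h2
    set t : ℝ := Real.sqrt (16 * (3 + 2 * Real.log b / N)) with ht
    have ht1 : 1 ≤ t := by
      rw [ht]
      apply Real.one_le_sqrt.2
      have : 0 ≤ 2 * Real.log b / N := by positivity
      linarith
    have hc' : (Fintype.card ι : ℝ) = k * N := by rw [← hbdef]; exact hc
    have h3 := card_pair_le C hm hN.symm hc' hk2 rfl ht1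
    rw [← hbdef] at h3
    have h4 := num_bound2.choose_spec b N (finrank ℝ (C.Hom U)) k
      (Real.exp ((1 / 4) ^ 2 / 2) * (Real.exp (1 / 2) * gk k)) t hU2 (hH U hU)
      (C.finrank_hom_le hm) h2 (by rw [hbdef]; exact C.finrank_hom_mul_le hm) hc
      (mul_nonneg (Real.exp_pos _).le (mul_nonneg (Real.exp_pos _).le (gk_nonneg k)))
      (kappa_le hk2) (kappa_le_sqrt hk2) rfl
    calc ((S U).card : ℝ) * b
        ≤ ((2 ^ b) ^ 2 * (2 * (finrank ℝ (C.Hom U) : ℕ) *
            (1 + 8 * t * Real.sqrt k) ^ (finrank ℝ (C.Hom U) - 1) *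
          (Real.exp ((1 / 4) ^ 2 / 2) * (Real.exp (1 / 2) * gk k)) ^ (2 * N)
        + 2 * (2 * (finrank ℝ (C.Hom U) : ℕ) * 5 ^ (finrank ℝ (C.Hom U) - 1) * Real.sqrt 2 ^ N *
            Real.exp (-(t ^ 2 * N) / 16)))) * b := by
          exact mul_le_mul_of_nonneg_right h3 hbR.le
      _ = (2 ^ b) ^ 2 * ((2 * (finrank ℝ (C.Hom U) : ℕ) *
            (1 + 8 * t * Real.sqrt k) ^ (finrank ℝ (C.Hom U) - 1) *
          (Real.exp ((1 / 4) ^ 2 / 2) * (Real.exp (1 / 2) * gk k)) ^ (2 * N)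
        + 2 * (2 * (finrank ℝ (C.Hom U) : ℕ) * 5 ^ (finrank ℝ (C.Hom U) - 1) * Real.sqrt 2 ^ N *
            Real.exp (-(t ^ 2 * N) / 16))) * b) := by ring
      _ ≤ (2 ^ b) ^ 2 * (num_bound2.choose * N * Real.sqrt (Real.log b / b)) :=
          mul_le_mul_of_nonneg_left h4 (by positivity)
      _ = _ := by rw [← hL]; ring
  -- lines
  have hline : ∀ U ∈ R, finrank ℝ U = 1 → ((S U).card : ℝ) * b ≤ 20 * (2 ^ b) ^ 2 := by
    intro U hU hU1
    have hm := hR1 U hU
    have hh : finrank ℝ (C.Hom U) = 1 := le_antisymm ((C.finrank_hom_le hm).trans hU1.le) (hH U hU)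
    set t : ℝ := Real.sqrt (16 * (3 + 2 * Real.log b)) with ht
    have ht1 : 1 ≤ t := by
      rw [ht]
      apply Real.one_le_sqrt.2
      linarith
    have hc' : (Fintype.card ι : ℝ) = (b : ℝ) * (1 : ℕ) := by rw [← hbdef]; simp
    have h3 := card_pair_le C hm hU1 hc' hb2R hh ht1
    rw [← hbdef] at h3
    have h4 := num_bound1 b b (Real.exp ((1 / 4) ^ 2 / 2) * (Real.exp (1 / 2) * gk b)) t hb rfl
      (mul_nonneg (Real.exp_pos _).le (mul_nonneg (Real.exp_pos _).le (gk_nonneg _)))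
      (kappa_le_sqrt hb2R) rfl
    calc ((S U).card : ℝ) * b
        ≤ ((2 ^ b) ^ 2 * (2 * ((1 : ℕ) : ℝ) * (1 + 8 * t * Real.sqrt b) ^ (1 - 1) *
          (Real.exp ((1 / 4) ^ 2 / 2) * (Real.exp (1 / 2) * gk b)) ^ (2 * 1)
        + 2 * (2 * ((1 : ℕ) : ℝ) * 5 ^ (1 - 1) * Real.sqrt 2 ^ 1 *
            Real.exp (-(t ^ 2 * ((1 : ℕ) : ℝ)) / 16)))) * b := by
          exact mul_le_mul_of_nonneg_right h3 hbR.le
      _ = (2 ^ b) ^ 2 * ((2 * (Real.exp ((1 / 4) ^ 2 / 2) * (Real.exp (1 / 2) * gk b)) ^ 2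
          + 2 * (2 * Real.sqrt 2 * Real.exp (-(t ^ 2) / 16))) * b) := by
          simp only [Nat.cast_one, Nat.sub_self, pow_zero, mul_one, pow_one]
          ring
      _ ≤ (2 ^ b) ^ 2 * 20 := mul_le_mul_of_nonneg_left h4 (by positivity)
      _ = _ := by ring
  -- large subspaces
  have hlarge : ∀ U ∈ R, b < 2 * finrank ℝ U →
      ((S U).card : ℝ) ≤ 2 * L * (2 ^ b) ^ 2 := by
    intro U hU h2
    have hm := hR1 U hU
    have h3 : S U ⊆ Fintype.piFinset fun _ : Fin 2 => univ.filter fun w : ι → Bool => SOrth w U := by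
      intro v hv
      obtain ⟨T, hT, hT0, hv⟩ := (mem_filter.1 hv).2
      have hTn : ‖T‖ ≠ 0 := fun h1 => hT0 (eq_zero_of_norm_hom C hm hT h1)
      have hinj : Function.Injective (T : U →ₗ[ℝ] EuclideanSpace ℝ ι) := by
        intro x y hxy
        have h1 : ‖T (x - y)‖ = 0 := by
          rw [map_sub]
          have : T x = T y := hxy
          rw [this, sub_self, norm_zero]
        rw [C.norm_hom hm hT] at h1
        have h4 := (mul_eq_zero.1 h1).resolve_left hTn
        rw [norm_eq_zero, sub_eq_zero] at h4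
        exact h4
      set W := LinearMap.range (T : U →ₗ[ℝ] EuclideanSpace ℝ ι) with hW
      have hfr : finrank ℝ W = finrank ℝ U := LinearMap.finrank_range_of_inj hinj
      have hint : W ⊓ U ≠ ⊥ := by
        intro h5
        have h6 := Submodule.finrank_sup_add_finrank_inf_eq W U
        rw [h5, finrank_bot, add_zero, hfr] at h6
        have h7 := Submodule.finrank_le (W ⊔ U)
        rw [finrank_euclideanSpace, ← hbdef] at h7
        omega
      have hWinv : C.Inv (W ⊓ U) := fun g x hx => ⟨C.inv_range hm.1 hT g x hx.1, hm.1 g x hx.2⟩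
      have h5 := hm.2.2 (W ⊓ U) inf_le_right hWinv hint
      have h6 : U ≤ W := by rw [← h5]; exact inf_le_left
      rw [Fintype.mem_piFinset]
      intro j
      exact mem_filter.2 ⟨mem_univ _, fun x hx => hv j x (h6 hx)⟩
    have h4 := card_le_card h3
    rw [Fintype.card_piFinset, prod_const, card_univ, Fintype.card_fin] at h4
    have h5 := card_sorth_le U
    rw [← hbdef] at h5
    set a := (univ.filter fun w : ι → Bool => SOrth w U).card with ha
    have h6 : (a : ℝ) * Real.sqrt b ≤ 2 ^ b := by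
      have h7 : Real.sqrt b ≤ 2 ^ finrank ℝ U := by
        rw [Real.sqrt_le_left (by positivity), ← pow_mul]
        have h8 : b < 2 ^ b := Nat.lt_two_pow_self
        have h9 : (2 : ℕ) ^ b ≤ 2 ^ (finrank ℝ U * 2) := Nat.pow_le_pow_right two_pos (by omega)
        exact_mod_cast (h8.le.trans h9)
      calc (a : ℝ) * Real.sqrt b ≤ a * 2 ^ finrank ℝ U := by gcongr
        _ ≤ 2 ^ b := by exact_mod_cast h5
    have h7 : (a : ℝ) ≤ 2 ^ b := by
      have h8 : a ≤ 2 ^ b := le_trans (Nat.le_mul_of_pos_right _ (by positivity)) h5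
      exact_mod_cast h8
    have hsb : 0 < Real.sqrt b := Real.sqrt_pos.2 hbR
    have h8 : 1 ≤ 2 * L * Real.sqrt b := by
      have h9 : L * Real.sqrt b = Real.sqrt (Real.log b) := by
        rw [hL, ← Real.sqrt_mul (by positivity)]
        congr 1
        field_simp
      have h10 : 1 / 2 ≤ Real.sqrt (Real.log b) := by
        apply Real.le_sqrt_of_sq_le
        have h11 : Real.log 2 ≤ Real.log b := Real.log_le_log (by norm_num) hb2R
        have := Real.log_two_gt_d9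
        norm_num
        linarith
      rw [mul_assoc, h9]
      linarith
    calc ((S U).card : ℝ) ≤ (a : ℝ) ^ 2 := by exact_mod_cast h4
      _ = (a : ℝ) * a := by ring
      _ ≤ (a : ℝ) * a * (2 * L * Real.sqrt b) := le_mul_of_one_le_right (by positivity) h8
      _ = 2 * L * (a * (a * Real.sqrt b)) := by ring
      _ ≤ 2 * L * (2 ^ b * 2 ^ b) := by gcongr
      _ = _ := by ring
  -- sum
  let R₁ := R.filter fun U : Submodule ℝ (EuclideanSpace ℝ ι) => 2 * finrank ℝ U ≤ b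
  let R₂ := R.filter fun U : Submodule ℝ (EuclideanSpace ℝ ι) => ¬ 2 * finrank ℝ U ≤ b
  let R₃ := R₁.filter fun U : Submodule ℝ (EuclideanSpace ℝ ι) => finrank ℝ U = 1
  let R₄ := R₁.filter fun U : Submodule ℝ (EuclideanSpace ℝ ι) => ¬ finrank ℝ U = 1
  have hR₂ : R₂.card ≤ 1 := by
    by_contra h
    push Not at h
    obtain ⟨U, hU, W, hW, hne⟩ := one_lt_card.1 h
    rw [mem_filter] at hU hW
    have h1 : finrank ℝ U + finrank ℝ W ≤ ∑ V ∈ R, finrank ℝ V := by
      have h2 := sum_pair (f := fun V : Submodule ℝ (EuclideanSpace ℝ ι) => finrank ℝ V) hne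
      refine le_trans (le_of_eq h2.symm) (sum_le_sum_of_subset ?_)
      intro V hV
      rcases mem_insert.1 hV with h2 | h2
      · rw [h2]; exact hU.1
      · rw [mem_singleton.1 h2]; exact hW.1
    omega
  have hR₃ : R₃.card ≤ m := by
    apply hm
    intro U hU
    have h1 := mem_filter.1 hU
    exact ⟨(hR1 U (mem_filter.1 h1.1).1).1, h1.2⟩
  have h1 : ((univ.filter fun v : Fin 2 → ι → Bool => ∃ U : Submodule ℝ (EuclideanSpace ℝ ι),
        C.Inv U ∧ U ≠ ⊥ ∧ ∀ j, SOrth (v j) U).card : ℝ) ≤ ∑ U ∈ R, ((S U).card : ℝ) := by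
    have h2 := (card_le_card hsub).trans card_biUnion_le
    exact_mod_cast h2
  have h2 : ∑ U ∈ R₄, ((S U).card : ℝ) ≤ |num_bound2.choose| * L * (2 ^ b) ^ 2 := by
    have h3 : (∑ U ∈ R₄, ((S U).card : ℝ)) * b
        ≤ (|num_bound2.choose| * L * (2 ^ b) ^ 2) * b := by
      rw [sum_mul]
      calc ∑ U ∈ R₄, ((S U).card : ℝ) * b
          ≤ ∑ U ∈ R₄, |num_bound2.choose| * L * (2 ^ b) ^ 2 * finrank ℝ U := by
            refine sum_le_sum fun U hU => ?_
            have hU1 := mem_filter.1 hU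
            have hU2 := mem_filter.1 hU1.1
            have h5 := hnt U hU2.1
            have h4 := hsmall U hU2.1 (by have := hU1.2; omega) hU2.2
            have h5 : num_bound2.choose * (finrank ℝ U : ℝ) * L * (2 ^ b) ^ 2
                ≤ |num_bound2.choose| * (finrank ℝ U : ℝ) * L * (2 ^ b) ^ 2 := by
              gcongr
              exact le_abs_self _
            calc ((S U).card : ℝ) * b ≤ _ := h4.trans h5
              _ = _ := by ring
        _ = |num_bound2.choose| * L * (2 ^ b) ^ 2 * ∑ U ∈ R₄, (finrank ℝ U : ℝ) := by rw [mul_sum]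
        _ ≤ (|num_bound2.choose| * L * (2 ^ b) ^ 2) * b := by
            gcongr
            have h6 : ∑ U ∈ R₄, finrank ℝ U ≤ b :=
              (sum_le_sum_of_subset ((filter_subset _ _).trans (filter_subset _ _))).trans hR4
            exact_mod_cast h6
    exact le_of_mul_le_mul_right h3 hbR
  have h3 : ∑ U ∈ R₂, ((S U).card : ℝ) ≤ 2 * L * (2 ^ b) ^ 2 := by
    calc ∑ U ∈ R₂, ((S U).card : ℝ) ≤ ∑ _U ∈ R₂, 2 * L * ((2 : ℝ) ^ b) ^ 2 := by
          refine sum_le_sum fun U hU => ?_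
          rw [mem_filter] at hU
          exact hlarge U hU.1 (not_le.1 hU.2)
      _ = R₂.card * (2 * L * ((2 : ℝ) ^ b) ^ 2) := by rw [sum_const, nsmul_eq_mul]
      _ ≤ 1 * (2 * L * ((2 : ℝ) ^ b) ^ 2) := by
          gcongr
          exact_mod_cast hR₂
      _ = _ := one_mul _
  have h4 : ∑ U ∈ R₃, ((S U).card : ℝ) ≤ 20 * (m / b) * (2 ^ b) ^ 2 := by
    calc ∑ U ∈ R₃, ((S U).card : ℝ) ≤ ∑ _U ∈ R₃, 20 * ((2 : ℝ) ^ b) ^ 2 / b := by
          refine sum_le_sum fun U hU => ?_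
          have hU1 := mem_filter.1 hU
          have hU2 := mem_filter.1 hU1.1
          rw [le_div_iff₀ hbR]
          exact hline U hU2.1 hU1.2
      _ = R₃.card * (20 * ((2 : ℝ) ^ b) ^ 2 / b) := by rw [sum_const, nsmul_eq_mul]
      _ ≤ m * (20 * ((2 : ℝ) ^ b) ^ 2 / b) := by
          gcongr
      _ = _ := by ring
  have h5 : ∑ U ∈ R, ((S U).card : ℝ) = (∑ U ∈ R₃, ((S U).card : ℝ) + ∑ U ∈ R₄, ((S U).card : ℝ))
      + ∑ U ∈ R₂, ((S U).card : ℝ) := by
    rw [sum_filter_add_sum_filter_not R₁, sum_filter_add_sum_filter_not R]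
  calc _ ≤ ∑ U ∈ R, ((S U).card : ℝ) := h1
    _ ≤ (20 * (m / b) * (2 ^ b) ^ 2 + |num_bound2.choose| * L * (2 ^ b) ^ 2)
        + 2 * L * (2 ^ b) ^ 2 := by
        rw [h5]
        exact add_le_add (add_le_add h4 h2) h3
    _ ≤ C₂ * (m / b + L) * (2 ^ b) ^ 2 := by
        unfold C₂
        have h6 : 0 ≤ (m : ℝ) / b * (2 ^ b) ^ 2 := by positivity
        have h7 : 0 ≤ L * (2 ^ b) ^ 2 := by positivity
        have h8 : 0 ≤ |num_bound2.choose| * ((m : ℝ) / b * (2 ^ b) ^ 2) := by positivity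
        nlinarith

end Pool.MP43e44c
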