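import Mathlib

/-!
Signed permutation representations: cocycles of signs, invariant subspaces, sign vectors.
-/

set_option autoImplicit false

open Finset

namespace Pool.MP43e44c

/-- A cocycle of signs for the action of a group on a set. -/
structure Coc (Γ ι : Type*) [Group Γ] [MulAction Γ ι] where
  ε : Γ → ι → ℝ
  sq : ∀ g i, ε g i = 1 ∨ ε g i = -1
  mul : ∀ g h i, ε (g * h) i = ε g (h • i) * ε h i

namespace Coc

variable {Γ ι : Type*} [Group Γ] [MulAction Γ ι] (C : Coc Γ ι)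

theorem mul_self (g : Γ) (i : ι) : C.ε g i * C.ε g i = 1 := by
  rcases C.sq g i with h | h <;> rw [h] <;> norm_num

theorem one (i : ι) : C.ε 1 i = 1 := by
  have h := C.mul 1 1 i
  rw [one_smul, mul_one, C.mul_self] at h
  exact h

theorem inv (g : Γ) (i : ι) : C.ε g⁻¹ (g • i) = C.ε g i := by
  have h := C.mul g⁻¹ g i
  rw [inv_mul_cancel, C.one] at h
  rcases C.sq g i with h1 | h1 <;> rcases C.sq g⁻¹ (g • i) with h2 | h2 <;> rw [h1, h2] at h ⊢ <;>
    norm_num at h

variable [Fintype ι]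

/-- The signed permutation of the coordinates. -/
noncomputable def act (g : Γ) : EuclideanSpace ℝ ι →ₗ[ℝ] EuclideanSpace ℝ ι where
  toFun x := WithLp.toLp 2 fun i => C.ε g (g⁻¹ • i) * x (g⁻¹ • i)
  map_add' x y := by
    ext i
    simp [mul_add]
  map_smul' r x := by
    ext i
    simp only [PiLp.smul_apply, smul_eq_mul, RingHom.id_apply]
    ring

theorem act_apply (g : Γ) (x : EuclideanSpace ℝ ι) (i : ι) :
    C.act g x i = C.ε g (g⁻¹ • i) * x (g⁻¹ • i) := rfl

theorem act_apply_smul (g : Γ) (x : EuclideanSpace ℝ ι) (i : ι) :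
    C.act g x (g • i) = C.ε g i * x i := by
  rw [act_apply, inv_smul_smul]

theorem act_one (x : EuclideanSpace ℝ ι) : C.act 1 x = x := by
  ext i
  rw [act_apply, inv_one, one_smul, C.one, one_mul]

theorem act_mul (g h : Γ) (x : EuclideanSpace ℝ ι) : C.act (g * h) x = C.act g (C.act h x) := by
  ext i
  rw [act_apply, act_apply, act_apply, C.mul, mul_inv_rev, mul_smul, smul_inv_smul, mul_assoc]

theorem act_inv_act (g : Γ) (x : EuclideanSpace ℝ ι) : C.act g⁻¹ (C.act g x) = x := by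
  rw [← act_mul, inv_mul_cancel, act_one]

theorem act_act_inv (g : Γ) (x : EuclideanSpace ℝ ι) : C.act g (C.act g⁻¹ x) = x := by
  rw [← act_mul, mul_inv_cancel, act_one]

theorem inner_act (g : Γ) (x y : EuclideanSpace ℝ ι) :
    inner ℝ (C.act g x) (C.act g y) = inner ℝ x y := by
  rw [PiLp.inner_apply, PiLp.inner_apply]
  refine Fintype.sum_equiv (MulAction.toPerm g⁻¹) _ _ fun i => ?_
  rw [MulAction.toPerm_apply, act_apply, act_apply]
  simp only [RCLike.inner_apply, conj_trivial]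
  have h := C.mul_self g (g⁻¹ • i)
  calc C.ε g (g⁻¹ • i) * y (g⁻¹ • i) * (C.ε g (g⁻¹ • i) * x (g⁻¹ • i))
      = (C.ε g (g⁻¹ • i) * C.ε g (g⁻¹ • i)) * (y (g⁻¹ • i) * x (g⁻¹ • i)) := by ring
    _ = _ := by rw [h, one_mul]

theorem inner_act_left (g : Γ) (x y : EuclideanSpace ℝ ι) :
    inner ℝ (C.act g x) y = inner ℝ x (C.act g⁻¹ y) := by
  conv_lhs => rw [← C.act_act_inv g y]
  rw [inner_act]

theorem norm_act (g : Γ) (x : EuclideanSpace ℝ ι) : ‖C.act g x‖ = ‖x‖ := by
  have h := C.inner_act g x x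
  rw [real_inner_self_eq_norm_sq, real_inner_self_eq_norm_sq] at h
  exact (sq_eq_sq₀ (norm_nonneg _) (norm_nonneg _)).1 h

theorem act_single [DecidableEq ι] (g : Γ) (i : ι) (r : ℝ) :
    C.act g (EuclideanSpace.single i r) = EuclideanSpace.single (g • i) (C.ε g i * r) := by
  ext j
  rw [act_apply]
  by_cases h : j = g • i
  · subst h
    rw [inv_smul_smul]
    simp
  · have h1 : g⁻¹ • j ≠ i := fun h2 => h (by rw [← h2, smul_inv_smul])
    simp [h, h1]

/-- Invariant subspaces. -/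
def Inv (U : Submodule ℝ (EuclideanSpace ℝ ι)) : Prop :=
  ∀ g : Γ, ∀ x ∈ U, C.act g x ∈ U

/-- Minimal nonzero invariant subspaces. -/
def Mnl (U : Submodule ℝ (EuclideanSpace ℝ ι)) : Prop :=
  C.Inv U ∧ U ≠ ⊥ ∧ ∀ W ≤ U, C.Inv W → W ≠ ⊥ → W = U

/-- The intertwining operators from a subspace. -/
noncomputable def Hom (U : Submodule ℝ (EuclideanSpace ℝ ι)) :
    Submodule ℝ (U →L[ℝ] EuclideanSpace ℝ ι) where
  carrier := {T | ∀ (g : Γ) (x y : U), C.act g x = y → T y = C.act g (T x)}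
  zero_mem' := by
    intro g x y _
    simp
  add_mem' := by
    intro S T hS hT g x y h
    rw [_root_.add_apply, _root_.add_apply, hS g x y h, hT g x y h,
      map_add]
  smul_mem' := by
    intro r T hT g x y h
    rw [_root_.smul_apply, _root_.smul_apply, hT g x y h, map_smul]

end Coc

/-- The vector of signs. -/
noncomputable def sv {ι : Type*} [Fintype ι] (v : ι → Bool) : EuclideanSpace ℝ ι :=
  WithLp.toLp 2 fun i => if v i then 1 else -1

theorem norm_sv_sq {ι : Type*} [Fintype ι] (v : ι → Bool) : ‖sv v‖ ^ 2 = Fintype.card ι := by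
  rw [EuclideanSpace.norm_eq, Real.sq_sqrt (Finset.sum_nonneg fun i _ => by positivity)]
  rw [Finset.sum_congr rfl (g := fun _ => (1 : ℝ))]
  · simp
  · intro i _
    unfold sv
    by_cases h : v i <;> simp [h]

/-- The moments of the cosine of a Gaussian variable. -/
noncomputable def gk (k : ℝ) : ℝ :=
  (Real.sqrt (2 * Real.pi))⁻¹ * ∫ t : ℝ, Real.exp (-t ^ 2 / 2) * |Real.cos t| ^ k

end Pool.MP43e44c
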