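import Pool.Agent.H.MP_43e44c_ag.SB.Def

/-!
Bounds for the Gaussian moments of the cosine.
-/

set_option autoImplicit false

open Finset MeasureTheory

namespace Pool.MP43e44c

theorem gk_w_int : Integrable (fun t : ℝ => Real.exp (-t ^ 2 / 2)) := by
  have h := integrable_exp_neg_mul_sq (b := 1 / 2) (by norm_num)
  refine h.congr (Filter.Eventually.of_forall fun t => ?_)
  change Real.exp _ = Real.exp _
  congr 1
  ring

theorem gk_cos_int (s : ℝ) : Integrable (fun t : ℝ => Real.exp (-t ^ 2 / 2) * Real.cos (s * t)) := by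
  refine gk_w_int.mono ?_ (Filter.Eventually.of_forall fun t => ?_)
  · exact (by fun_prop : Continuous fun t : ℝ =>
      Real.exp (-t ^ 2 / 2) * Real.cos (s * t)).aestronglyMeasurable
  · rw [norm_mul]
    calc ‖Real.exp (-t ^ 2 / 2)‖ * ‖Real.cos (s * t)‖ ≤ ‖Real.exp (-t ^ 2 / 2)‖ * 1 :=
          mul_le_mul_of_nonneg_left (Real.abs_cos_le_one _) (norm_nonneg _)
      _ = _ := mul_one _

theorem gk_cos (s : ℝ) : ∫ t : ℝ, Real.exp (-t ^ 2 / 2) * Real.cos (s * t)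
    = Real.sqrt (2 * Real.pi) * Real.exp (-s ^ 2 / 2) := by
  have hb : (0 : ℝ) < (1 / 2 : ℂ).re := by norm_num
  have h := fourierIntegral_gaussian hb (s : ℂ)
  have hint : Integrable (fun x : ℝ => Complex.exp (Complex.I * s * x)
      * Complex.exp (-(1 / 2 : ℂ) * x ^ 2)) := by
    have h1 := integrable_cexp_quadratic hb (Complex.I * s) 0
    refine h1.congr (Filter.Eventually.of_forall fun x => ?_)
    change Complex.exp _ = Complex.exp _ * Complex.exp _
    rw [← Complex.exp_add]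
    congr 1
    ring
  have h2 : (fun t : ℝ => Real.exp (-t ^ 2 / 2) * Real.cos (s * t)) = fun x : ℝ =>
      Complex.reCLM (Complex.exp (Complex.I * s * x) * Complex.exp (-(1 / 2 : ℂ) * x ^ 2)) := by
    funext x
    have e1 : Complex.I * s * x = ((s * x : ℝ) : ℂ) * Complex.I := by push_cast; ring
    have e2 : -(1 / 2 : ℂ) * x ^ 2 = ((-x ^ 2 / 2 : ℝ) : ℂ) := by push_cast; ring
    rw [e1, e2, ← Complex.ofReal_exp, Complex.reCLM_apply, Complex.re_mul_ofReal,
      Complex.exp_ofReal_mul_I_re, mul_comm]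
  rw [h2, ContinuousLinearMap.integral_comp_comm _ hint, h, Complex.reCLM_apply]
  have e3 : (Real.pi : ℂ) / (1 / 2 : ℂ) = ((2 * Real.pi : ℝ) : ℂ) := by push_cast; ring
  have e4 : -(s : ℂ) ^ 2 / (4 * (1 / 2 : ℂ)) = ((-s ^ 2 / 2 : ℝ) : ℂ) := by push_cast; ring
  have e5 : (1 / 2 : ℂ) = ((1 / 2 : ℝ) : ℂ) := by push_cast; ring
  rw [e3, e4, e5, ← Complex.ofReal_cpow (by positivity), ← Complex.ofReal_exp,
    ← Complex.ofReal_mul, Complex.ofReal_re, Real.sqrt_eq_rpow]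

theorem gk_nonneg (k : ℝ) : 0 ≤ gk k := by
  unfold gk
  refine mul_nonneg (by positivity) (integral_nonneg fun t => ?_)
  exact mul_nonneg (Real.exp_pos _).le (Real.rpow_nonneg (abs_nonneg _) _)

/-- Comparison with even powers. -/
theorem gk_le_pow (m : ℕ) {k : ℝ} (hk : 2 * (m : ℝ) ≤ k) :
    gk k ≤ (Real.sqrt (2 * Real.pi))⁻¹ * ∫ t : ℝ, Real.exp (-t ^ 2 / 2) * Real.cos t ^ (2 * m) := by
  unfold gk
  refine mul_le_mul_of_nonneg_left ?_ (by positivity)
  refine integral_mono_of_nonneg (Filter.Eventually.of_forall fun t => ?_) ?_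
    (Filter.Eventually.of_forall fun t => ?_)
  · exact mul_nonneg (Real.exp_pos _).le (Real.rpow_nonneg (abs_nonneg _) _)
  · refine gk_w_int.mono ?_ (Filter.Eventually.of_forall fun t => ?_)
    · exact (by fun_prop : Continuous fun t : ℝ =>
        Real.exp (-t ^ 2 / 2) * Real.cos t ^ (2 * m)).aestronglyMeasurable
    · rw [norm_mul, norm_pow]
      calc ‖Real.exp (-t ^ 2 / 2)‖ * ‖Real.cos t‖ ^ (2 * m) ≤ ‖Real.exp (-t ^ 2 / 2)‖ * 1 :=
            mul_le_mul_of_nonneg_left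
              (pow_le_one₀ (norm_nonneg _) (Real.abs_cos_le_one _)) (norm_nonneg _)
        _ = _ := mul_one _
  · refine mul_le_mul_of_nonneg_left ?_ (Real.exp_pos _).le
    have h1 : |Real.cos t| ^ k ≤ |Real.cos t| ^ (2 * (m : ℝ)) :=
      Real.rpow_le_rpow_of_exponent_ge' (abs_nonneg _) (Real.abs_cos_le_one _) (by positivity) hk
    have h2 : |Real.cos t| ^ (2 * (m : ℝ)) = Real.cos t ^ (2 * m) := by
      have e : (2 * (m : ℝ)) = ((2 * m : ℕ) : ℝ) := by push_cast; ring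
      rw [e, Real.rpow_natCast, pow_mul, sq_abs, ← pow_mul]
    rw [← h2]
    exact h1

theorem gk_cos_pow (m : ℕ) (t : ℝ) : Real.cos t ^ (2 * m) = ((4 : ℝ) ^ m)⁻¹ *
    ∑ j ∈ range (2 * m + 1), ((2 * m).choose j : ℝ) * Real.cos ((2 * j - 2 * m : ℝ) * t) := by
  have h1 : ((Real.cos t ^ (2 * m) : ℝ) : ℂ) = ((4 : ℂ) ^ m)⁻¹ *
      ∑ j ∈ range (2 * m + 1), ((2 * m).choose j : ℂ) *
        Complex.exp (((2 * j - 2 * m : ℝ) * t : ℝ) * Complex.I) := by
    rw [Complex.ofReal_pow, Complex.ofReal_cos, Complex.cos, div_pow, add_pow]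
    have e : (2 : ℂ) ^ (2 * m) = 4 ^ m := by rw [pow_mul]; norm_num
    rw [e, div_eq_inv_mul]
    congr 1
    refine Finset.sum_congr rfl fun j hj => ?_
    have hj' : j ≤ 2 * m := by
      have := Finset.mem_range.1 hj
      omega
    rw [← Complex.exp_nat_mul, ← Complex.exp_nat_mul, ← Complex.exp_add, mul_comm]
    congr 2
    rw [Nat.cast_sub hj']
    push_cast
    ring
  have h2 := congrArg Complex.re h1
  rw [Complex.ofReal_re] at h2
  rw [h2]
  have e2 : ((4 : ℂ) ^ m)⁻¹ = (((4 : ℝ) ^ m)⁻¹ : ℝ) := by push_cast; ring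
  rw [e2, Complex.re_ofReal_mul, Complex.re_sum]
  congr 1
  refine Finset.sum_congr rfl fun j _ => ?_
  have e3 : ((2 * m).choose j : ℂ) = (((2 * m).choose j : ℝ) : ℂ) := by push_cast; ring
  rw [e3, Complex.re_ofReal_mul, Complex.exp_ofReal_mul_I_re]

theorem gk_int_pow (m : ℕ) : (Real.sqrt (2 * Real.pi))⁻¹ *
    ∫ t : ℝ, Real.exp (-t ^ 2 / 2) * Real.cos t ^ (2 * m) = ((4 : ℝ) ^ m)⁻¹ *
    ∑ j ∈ range (2 * m + 1), ((2 * m).choose j : ℝ) * Real.exp (-(2 * j - 2 * m : ℝ) ^ 2 / 2) := by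
  have hpi : Real.sqrt (2 * Real.pi) ≠ 0 := (Real.sqrt_pos.2 (by positivity)).ne'
  have h1 : (fun t : ℝ => Real.exp (-t ^ 2 / 2) * Real.cos t ^ (2 * m)) = fun t : ℝ =>
      ((4 : ℝ) ^ m)⁻¹ * ∑ j ∈ range (2 * m + 1), ((2 * m).choose j : ℝ) *
        (Real.exp (-t ^ 2 / 2) * Real.cos ((2 * j - 2 * m : ℝ) * t)) := by
    funext t
    rw [gk_cos_pow, mul_left_comm, Finset.mul_sum]
    congr 1
    refine Finset.sum_congr rfl fun j _ => ?_
    ring
  rw [h1, integral_const_mul, integral_finsetSum _ fun j _ => (gk_cos_int _).const_mul _,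
    mul_left_comm, Finset.mul_sum]
  congr 1
  refine Finset.sum_congr rfl fun j _ => ?_
  rw [integral_const_mul, gk_cos]
  field_simp

/-- `E |cos g|^k ≤ E cos² g = (1 + e^{-2})/2`. -/
theorem gk_le_two {k : ℝ} (hk : 2 ≤ k) : gk k ≤ (1 + Real.exp (-2)) / 2 := by
  have h := gk_le_pow 1 (k := k) (by norm_num; exact hk)
  rw [gk_int_pow 1] at h
  refine h.trans (le_of_eq ?_)
  norm_num [Finset.sum_range_succ, Nat.choose]
  ring

theorem gk_central (m : ℕ) : ((m.centralBinom : ℝ) / 4 ^ m) ^ 2 * (3 * m + 1) ≤ 1 := by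
  induction m with
  | zero => simp
  | succ m ih =>
    have h1 : ((m : ℝ) + 1) * ((m + 1).centralBinom : ℝ) = 2 * (2 * m + 1) * m.centralBinom := by
      exact_mod_cast Nat.succ_mul_centralBinom_succ m
    have hm : (0 : ℝ) < (m : ℝ) + 1 := by positivity
    have h2 : ((m + 1).centralBinom : ℝ) / 4 ^ (m + 1)
        = ((m.centralBinom : ℝ) / 4 ^ m) * ((2 * m + 1) / (2 * m + 2)) := by
      have h3 : ((m + 1).centralBinom : ℝ) = 2 * (2 * m + 1) * m.centralBinom / (m + 1) := by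
        rw [eq_div_iff hm.ne']
        linarith
      rw [h3, pow_succ]
      field_simp
      ring
    rw [h2, mul_pow]
    have h4 : ((2 * (m : ℝ) + 1) / (2 * m + 2)) ^ 2 * (3 * ((m + 1 : ℕ) : ℝ) + 1) ≤ 3 * m + 1 := by
      rw [div_pow, div_mul_eq_mul_div, div_le_iff₀ (by positivity)]
      push_cast
      have : (0 : ℝ) ≤ m := Nat.cast_nonneg m
      nlinarith [this]
    calc ((m.centralBinom : ℝ) / 4 ^ m) ^ 2 * ((2 * m + 1) / (2 * m + 2)) ^ 2
          * (3 * ((m + 1 : ℕ) : ℝ) + 1)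
        = ((m.centralBinom : ℝ) / 4 ^ m) ^ 2 * (((2 * m + 1) / (2 * m + 2)) ^ 2
          * (3 * ((m + 1 : ℕ) : ℝ) + 1)) := by ring
      _ ≤ ((m.centralBinom : ℝ) / 4 ^ m) ^ 2 * (3 * m + 1) :=
          mul_le_mul_of_nonneg_left h4 (sq_nonneg _)
      _ ≤ 1 := ih

theorem gk_sum (m : ℕ) :
    ∑ j ∈ range (2 * m + 1), Real.exp (-(2 * j - 2 * m : ℝ) ^ 2 / 2) ≤ 132 / 100 := by
  have e : 2 * m + 1 = m + (m + 1) := by ring
  rw [e, Finset.sum_range_add, Finset.sum_range_succ']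
  have h1 : ∑ x ∈ range m, Real.exp (-(2 * (x : ℝ) - 2 * m) ^ 2 / 2)
      = ∑ x ∈ range m, Real.exp (-(2 * ((x : ℝ) + 1) ^ 2)) := by
    rw [← Finset.sum_range_reflect]
    refine Finset.sum_congr rfl fun x hx => ?_
    have hx' : x + 1 ≤ m := Finset.mem_range.1 hx
    congr 1
    have : ((m - 1 - x : ℕ) : ℝ) = m - 1 - x := by
      rw [Nat.sub_sub, Nat.cast_sub (by omega)]
      push_cast
      ring
    rw [this]
    ring
  have h2 : ∑ x ∈ range m, Real.exp (-(2 * ((m + (x + 1) : ℕ) : ℝ) - 2 * m) ^ 2 / 2)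
      = ∑ x ∈ range m, Real.exp (-(2 * ((x : ℝ) + 1) ^ 2)) := by
    refine Finset.sum_congr rfl fun x _ => ?_
    congr 1
    push_cast
    ring
  have h3 : Real.exp (-(2 * ((m + 0 : ℕ) : ℝ) - 2 * m) ^ 2 / 2) = 1 := by
    rw [Real.exp_eq_one_iff]
    push_cast
    ring
  rw [h1, h2, h3]
  have hr0 : 0 < Real.exp (-2) := Real.exp_pos _
  have hr1 : Real.exp (-2) ≤ 1379 / 10000 := by
    have h5 : Real.exp 2 = Real.exp 1 * Real.exp 1 := by
      rw [← Real.exp_add]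
      norm_num
    have h6 := Real.exp_one_gt_d9
    rw [Real.exp_neg, h5]
    rw [inv_le_comm₀ (by positivity) (by norm_num)]
    nlinarith
  have h4 : ∑ x ∈ range m, Real.exp (-(2 * ((x : ℝ) + 1) ^ 2)) ≤ 16 / 100 := by
    calc ∑ x ∈ range m, Real.exp (-(2 * ((x : ℝ) + 1) ^ 2))
        ≤ ∑ x ∈ range m, Real.exp (-2) * Real.exp (-2) ^ x := by
          refine Finset.sum_le_sum fun x _ => ?_
          rw [← Real.exp_nat_mul, ← Real.exp_add]
          refine Real.exp_le_exp.2 ?_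
          have : (0 : ℝ) ≤ x := Nat.cast_nonneg x
          nlinarith
      _ = Real.exp (-2) * ∑ x ∈ range m, Real.exp (-2) ^ x := by rw [Finset.mul_sum]
      _ ≤ Real.exp (-2) * (1 - Real.exp (-2))⁻¹ := by
          refine mul_le_mul_of_nonneg_left ?_ hr0.le
          have h7 := mul_neg_geom_sum (Real.exp (-2)) m
          have h8 : 0 < 1 - Real.exp (-2) := by linarith
          have h9 : 0 < Real.exp (-2) ^ m := pow_pos hr0 m
          rw [← one_div, le_div_iff₀ h8]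
          linarith
      _ ≤ 16 / 100 := by
          rw [← div_eq_mul_inv, div_le_iff₀ (by linarith)]
          linarith
  linarith

theorem gk_le_sqrt {k : ℝ} (hk : 2 ≤ k) : gk k ≤ 3 / 2 / Real.sqrt k := by
  set m := ⌊k / 2⌋₊ with hm
  have hk0 : 0 ≤ k / 2 := by linarith
  have h1 : (m : ℝ) ≤ k / 2 := Nat.floor_le hk0
  have h2 : k / 2 < m + 1 := Nat.lt_floor_add_one _
  have hm1 : 1 ≤ m := by
    rw [hm, Nat.one_le_floor_iff]
    linarith
  have hm1' : (1 : ℝ) ≤ m := by exact_mod_cast hm1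
  have h3 := gk_le_pow m (k := k) (by linarith)
  rw [gk_int_pow m] at h3
  have h4 : ∑ j ∈ range (2 * m + 1), ((2 * m).choose j : ℝ) *
      Real.exp (-(2 * j - 2 * m : ℝ) ^ 2 / 2) ≤ (m.centralBinom : ℝ) * (132 / 100) := by
    calc ∑ j ∈ range (2 * m + 1), ((2 * m).choose j : ℝ) *
          Real.exp (-(2 * j - 2 * m : ℝ) ^ 2 / 2)
        ≤ ∑ j ∈ range (2 * m + 1), (m.centralBinom : ℝ) *
          Real.exp (-(2 * j - 2 * m : ℝ) ^ 2 / 2) := by
          refine Finset.sum_le_sum fun j _ => ?_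
          refine mul_le_mul_of_nonneg_right ?_ (Real.exp_pos _).le
          exact_mod_cast Nat.choose_le_centralBinom j m
      _ = (m.centralBinom : ℝ) * ∑ j ∈ range (2 * m + 1),
          Real.exp (-(2 * j - 2 * m : ℝ) ^ 2 / 2) := by rw [Finset.mul_sum]
      _ ≤ _ := mul_le_mul_of_nonneg_left (gk_sum m) (Nat.cast_nonneg _)
  have h5 : gk k ≤ ((m.centralBinom : ℝ) / 4 ^ m) * (132 / 100) := by
    refine h3.trans ?_
    calc ((4 : ℝ) ^ m)⁻¹ * ∑ j ∈ range (2 * m + 1), ((2 * m).choose j : ℝ) *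
          Real.exp (-(2 * j - 2 * m : ℝ) ^ 2 / 2)
        ≤ ((4 : ℝ) ^ m)⁻¹ * ((m.centralBinom : ℝ) * (132 / 100)) :=
          mul_le_mul_of_nonneg_left h4 (by positivity)
      _ = _ := by ring
  have h6 := gk_central m
  set a := (m.centralBinom : ℝ) / 4 ^ m with ha
  have ha0 : 0 ≤ a := by positivity
  have hsk : 0 < Real.sqrt k := Real.sqrt_pos.2 (by linarith)
  have h7 : a * Real.sqrt k ≤ 1 := by
    have h8 : (a * Real.sqrt k) ^ 2 ≤ 1 := by
      rw [mul_pow, Real.sq_sqrt (by linarith)]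
      refine le_trans ?_ h6
      refine mul_le_mul_of_nonneg_left ?_ (sq_nonneg _)
      linarith
    have h9 : 0 ≤ a * Real.sqrt k := by positivity
    nlinarith
  rw [le_div_iff₀ hsk]
  calc gk k * Real.sqrt k ≤ (a * (132 / 100)) * Real.sqrt k :=
        mul_le_mul_of_nonneg_right h5 hsk.le
    _ = (132 / 100) * (a * Real.sqrt k) := by ring
    _ ≤ (132 / 100) * 1 := mul_le_mul_of_nonneg_left h7 (by norm_num)
    _ ≤ 3 / 2 := by norm_num

end Pool.MP43e44c
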