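import Pool.Agent.H.MP_43e44c_ag.SB.Ball

/-!
Exponential moments of the norm of the projection of a sign vector.
-/

set_option autoImplicit false

open Finset MeasureTheory Matrix Module

namespace Pool.MP43e44c

/-- Gaussian integral of the exponential of a linear form. -/
theorem integral_exp_linear {N : ℕ} (c : Fin N → ℝ) :
    ∫ θ : Fin N → ℝ, Real.exp (-(∑ l, θ l ^ 2) / 2 + ∑ l, c l * θ l)
      = Real.sqrt (2 * Real.pi) ^ N * Real.exp ((∑ l, c l ^ 2) / 2) := by
  have h1 : ∀ θ : Fin N → ℝ, Real.exp (-(∑ l, θ l ^ 2) / 2 + ∑ l, c l * θ l)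
      = ∏ l, Real.exp (-(1 / 2) * θ l ^ 2 + c l * θ l) := by
    intro θ
    rw [← Real.exp_sum]
    congr 1
    rw [sum_add_distrib, neg_div, sum_div, ← sum_neg_distrib]
    congr 1
    exact sum_congr rfl fun l _ => by ring
  simp_rw [h1]
  rw [integral_fintype_prod_volume_eq_prod (f := fun l (x : ℝ) =>
    Real.exp (-(1 / 2) * x ^ 2 + c l * x))]
  have h2 : ∀ a : ℝ, ∫ x : ℝ, Real.exp (-(1 / 2) * x ^ 2 + a * x)
      = Real.sqrt (2 * Real.pi) * Real.exp (a ^ 2 / 2) := by
    intro a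
    have h3 : ∀ x : ℝ, Real.exp (-(1 / 2) * x ^ 2 + a * x)
        = Real.exp (-(1 / 2) * (x - a) ^ 2) * Real.exp (a ^ 2 / 2) := by
      intro x
      rw [← Real.exp_add]
      congr 1
      ring
    simp_rw [h3]
    rw [integral_mul_const, integral_sub_right_eq_self (fun x : ℝ => Real.exp (-(1 / 2) * x ^ 2)),
      integral_gaussian]
    congr 2
    ring
  rw [prod_congr rfl fun l _ => h2 (c l), prod_mul_distrib, prod_const, card_univ,
    Fintype.card_fin, ← Real.exp_sum, sum_div]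

theorem integrable_exp_linear {N : ℕ} (c : Fin N → ℝ) :
    Integrable fun θ : Fin N → ℝ => Real.exp (-(∑ l, θ l ^ 2) / 2 + ∑ l, c l * θ l) := by
  have h1 : ∀ θ : Fin N → ℝ, Real.exp (-(∑ l, θ l ^ 2) / 2 + ∑ l, c l * θ l)
      = ∏ l, Real.exp (-(1 / 2) * θ l ^ 2 + c l * θ l) := by
    intro θ
    rw [← Real.exp_sum]
    congr 1
    rw [sum_add_distrib, neg_div, sum_div, ← sum_neg_distrib]
    congr 1
    exact sum_congr rfl fun l _ => by ring
  simp_rw [h1]
  refine Integrable.fintype_prod (f := fun l (x : ℝ) =>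
    Real.exp (-(1 / 2) * x ^ 2 + c l * x)) fun l => ?_
  have h3 : ∀ x : ℝ, Real.exp (-(1 / 2) * x ^ 2 + c l * x)
      = Real.exp (-(1 / 2) * (x - c l) ^ 2) * Real.exp (c l ^ 2 / 2) := by
    intro x
    rw [← Real.exp_add]
    congr 1
    ring
  simp_rw [h3]
  exact ((integrable_exp_neg_mul_sq (by norm_num : (0 : ℝ) < 1 / 2)).comp_sub_right (c l)).mul_const _

/-- Averages of exponentials over signs. -/
theorem sum_sign_exp {ι : Type*} [Fintype ι] [DecidableEq ι] (x : ι → ℝ) :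
    ∑ v : ι → Bool, Real.exp (∑ i, sv v i * x i) = 2 ^ Fintype.card ι * ∏ i, Real.cosh (x i) := by
  have h1 : ∀ v : ι → Bool, Real.exp (∑ i, sv v i * x i)
      = ∏ i, Real.exp ((if v i then (1 : ℝ) else -1) * x i) := by
    intro v
    rw [Real.exp_sum]
    rfl
  rw [sum_congr rfl fun v _ => h1 v]
  have h2 := Finset.prod_univ_sum (fun _ : ι => (univ : Finset Bool))
    (fun i b => Real.exp ((if b then (1 : ℝ) else -1) * x i))
  rw [Fintype.piFinset_univ] at h2
  rw [← h2]
  have h3 : ∀ i : ι, ∑ b : Bool, Real.exp ((if b then (1 : ℝ) else -1) * x i)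
      = 2 * Real.cosh (x i) := by
    intro i
    rw [Fintype.sum_bool, Real.cosh_eq]
    simp only [if_true, Bool.false_eq_true, if_false, one_mul, neg_one_mul]
    ring
  rw [prod_congr rfl fun i _ => h3 i, prod_mul_distrib, prod_const, card_univ]

theorem sum_exp_quarter {ι : Type*} [Fintype ι] [DecidableEq ι]
    {U : Submodule ℝ (EuclideanSpace ℝ ι)} {N : ℕ} (hN : finrank ℝ U = N) :
    ∑ v : ι → Bool, Real.exp (‖U.starProjection (sv v)‖ ^ 2 / 4)
      ≤ 2 ^ Fintype.card ι * Real.sqrt 2 ^ N := by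
  let u : OrthonormalBasis (Fin N) ℝ U := (stdOrthonormalBasis ℝ U).reindex (finCongr hN)
  set A := bmat u 1 with hA
  have hAA := bmat_mul_transpose u (zero_le_one)
  have hpi : 0 < Real.sqrt (2 * Real.pi) := by positivity
  -- the pointwise identity
  let y : (ι → Bool) → Fin N → ℝ := fun v l => ∑ i, A l i * sv v i
  have hy : ∀ v, ∑ l, y v l ^ 2 = ‖U.starProjection (sv v)‖ ^ 2 := by
    intro v
    have := sum_bmat_sq u (zero_le_one) (sv v)
    rw [one_mul] at this
    exact this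
  have h1 : ∀ v : ι → Bool, Real.exp (‖U.starProjection (sv v)‖ ^ 2 / 4)
      = (Real.sqrt (2 * Real.pi))⁻¹ ^ N * ∫ θ : Fin N → ℝ,
        Real.exp (-(∑ l, θ l ^ 2) / 2 + ∑ l, (y v l / Real.sqrt 2) * θ l) := by
    intro v
    rw [integral_exp_linear, ← mul_assoc, ← mul_pow, inv_mul_cancel₀ hpi.ne', one_pow, one_mul,
      ← hy v]
    congr 1
    simp_rw [div_pow, Real.sq_sqrt (show (0 : ℝ) ≤ 2 by norm_num)]
    rw [← sum_div]
    ring
  rw [sum_congr rfl fun v _ => h1 v, ← mul_sum, ← integral_finsetSum _ fun v _ =>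
    integrable_exp_linear _]
  have h2 : ∀ θ : Fin N → ℝ, ∑ v : ι → Bool,
      Real.exp (-(∑ l, θ l ^ 2) / 2 + ∑ l, (y v l / Real.sqrt 2) * θ l)
      ≤ 2 ^ Fintype.card ι * Real.exp (-(1 / 4) * ∑ l, θ l ^ 2) := by
    intro θ
    let x : ι → ℝ := fun i => (∑ l, θ l * A l i) / Real.sqrt 2
    have h3 : ∀ v : ι → Bool, ∑ l, (y v l / Real.sqrt 2) * θ l = ∑ i, sv v i * x i := by
      intro v
      simp only [y, x, sum_div, mul_sum, sum_mul]
      rw [sum_comm]
      refine sum_congr rfl fun i _ => sum_congr rfl fun l _ => ?_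
      ring
    have h4 : ∑ i, x i ^ 2 = (∑ l, θ l ^ 2) / 2 := by
      have h5 : ∑ i, (∑ l, θ l * A l i) ^ 2 = ∑ l, θ l ^ 2 := by
        have h3 : ∑ i, (∑ l, θ l * A l i) ^ 2 = ∑ l, ∑ m, θ l * θ m * ∑ i, A l i * A m i := by
          simp_rw [sq, Finset.sum_mul_sum, mul_sum]
          rw [Finset.sum_comm]
          refine sum_congr rfl fun l _ => ?_
          rw [Finset.sum_comm]
          refine sum_congr rfl fun m _ => sum_congr rfl fun i _ => by ring
        have h4 : ∀ l m, ∑ i, A l i * A m i = if l = m then (1 : ℝ) else 0 := by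
          intro l m
          have h5 := congrFun (congrFun hAA l) m
          rw [Matrix.mul_apply, Matrix.smul_apply, Matrix.one_apply, smul_eq_mul] at h5
          rw [show ∑ i, A l i * A m i = ∑ i, bmat u 1 l i * (bmat u 1)ᵀ i m from rfl, h5]
          split_ifs <;> simp
        rw [h3]
        refine sum_congr rfl fun l _ => ?_
        simp_rw [h4]
        simp
        ring
      simp only [x]
      simp_rw [div_pow, Real.sq_sqrt (show (0 : ℝ) ≤ 2 by norm_num)]
      rw [← sum_div, h5]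
    simp_rw [Real.exp_add, h3]
    rw [← mul_sum, sum_sign_exp]
    have h5 : ∏ i, Real.cosh (x i) ≤ Real.exp ((∑ l, θ l ^ 2) / 4) := by
      calc ∏ i, Real.cosh (x i) ≤ ∏ i, Real.exp (x i ^ 2 / 2) :=
            prod_le_prod (fun i _ => (Real.cosh_pos _).le) fun i _ => Real.cosh_le_exp_half_sq _
        _ = Real.exp ((∑ l, θ l ^ 2) / 4) := by
            rw [← Real.exp_sum, ← sum_div, h4]
            congr 1
            ring
    calc Real.exp (-(∑ l, θ l ^ 2) / 2) * (2 ^ Fintype.card ι * ∏ i, Real.cosh (x i))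
        ≤ Real.exp (-(∑ l, θ l ^ 2) / 2) * (2 ^ Fintype.card ι * Real.exp ((∑ l, θ l ^ 2) / 4)) := by
          gcongr
      _ = 2 ^ Fintype.card ι * (Real.exp (-(∑ l, θ l ^ 2) / 2) * Real.exp ((∑ l, θ l ^ 2) / 4)) := by
          ring
      _ = _ := by
          rw [← Real.exp_add]
          congr 2
          ring
  have hg : ∫ θ : Fin N → ℝ, Real.exp (-(1 / 4) * ∑ l, θ l ^ 2) = Real.sqrt (4 * Real.pi) ^ N := by
    have h3 : ∀ θ : Fin N → ℝ, Real.exp (-(1 / 4) * ∑ l, θ l ^ 2)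
        = ∏ l, Real.exp (-(1 / 4) * θ l ^ 2) := by
      intro θ
      rw [← Real.exp_sum, mul_sum]
    simp_rw [h3]
    rw [integral_fintype_prod_volume_eq_prod (f := fun _ (x : ℝ) => Real.exp (-(1 / 4) * x ^ 2)),
      prod_const, card_univ, Fintype.card_fin, integral_gaussian]
    congr 2
    ring
  have hgi : Integrable fun θ : Fin N → ℝ => Real.exp (-(1 / 4) * ∑ l, θ l ^ 2) := by
    have h3 : ∀ θ : Fin N → ℝ, Real.exp (-(1 / 4) * ∑ l, θ l ^ 2)
        = ∏ l, Real.exp (-(1 / 4) * θ l ^ 2) := by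
      intro θ
      rw [← Real.exp_sum, mul_sum]
    simp_rw [h3]
    exact Integrable.fintype_prod (f := fun _ (x : ℝ) => Real.exp (-(1 / 4) * x ^ 2)) fun l =>
      integrable_exp_neg_mul_sq (by norm_num)
  have h3 : ∫ θ : Fin N → ℝ, ∑ v : ι → Bool,
      Real.exp (-(∑ l, θ l ^ 2) / 2 + ∑ l, (y v l / Real.sqrt 2) * θ l)
      ≤ 2 ^ Fintype.card ι * Real.sqrt (4 * Real.pi) ^ N := by
    rw [← hg, ← integral_const_mul]
    refine integral_mono (integrable_finsetSum _ fun v _ => integrable_exp_linear _)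
      (hgi.const_mul _) h2
  calc (Real.sqrt (2 * Real.pi))⁻¹ ^ N * ∫ θ : Fin N → ℝ, ∑ v : ι → Bool,
      Real.exp (-(∑ l, θ l ^ 2) / 2 + ∑ l, (y v l / Real.sqrt 2) * θ l)
      ≤ (Real.sqrt (2 * Real.pi))⁻¹ ^ N * (2 ^ Fintype.card ι * Real.sqrt (4 * Real.pi) ^ N) := by
        gcongr
    _ = 2 ^ Fintype.card ι * Real.sqrt 2 ^ N := by
        have h5 : Real.sqrt (4 * Real.pi) = Real.sqrt 2 * Real.sqrt (2 * Real.pi) := by
          rw [← Real.sqrt_mul (by norm_num)]
          congr 1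
          ring
        rw [h5, mul_left_comm, ← mul_pow]
        congr 2
        field_simp

end Pool.MP43e44c
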